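import Mathlib
import Pool.Agent.FAM.KDefs
import Pool.Agent.FAM.KTopA

set_option autoImplicit false

/-!
# The limit of the average over an algebraic family: definitions
-/

namespace Pool.Agent.LIM

open Polynomial NumberField
open Pool.Agent.RDF (lift wedge)
open Pool.Agent.FAM (Cube itP)
open Pool.Agent.FamK (ev spec)

/-- The set `S` of integral points has density zero. -/
def Null {r : ℕ} (S : Set (Fin r → ℤ)) : Prop :=
  ∀ ε : ℝ, 0 < ε → ∃ H₀ : ℕ, ∀ H : ℕ, H₀ ≤ H →
    (((Cube r H : Set (Fin r → ℤ)) ∩ S).ncard : ℝ) ≤ ε * (2 * (H : ℝ) + 1) ^ r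

/-- The box `[0, L)^r`. -/
noncomputable def Box (r L : ℕ) : Finset (Fin r → ℤ) :=
  Fintype.piFinset fun _ => Finset.Ico (0 : ℤ) L

/-- The field `K(s_1, …, s_r)`. -/
abbrev GF (r : ℕ) (K : Type) [Field K] [NumberField K] : Type :=
  FractionRing (MvPolynomial (Fin r) (𝓞 K))

/-- A polynomial over `𝓞 K` as a polynomial over `K`. -/
noncomputable def toK {K : Type} [Field K] [NumberField K] (f : (𝓞 K)[X]) : K[X] :=
  f.map (algebraMap (𝓞 K) K)

/-- A polynomial over `𝓞 K[s]` as a polynomial over `K(s)`. -/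
noncomputable def toG {K : Type} [Field K] [NumberField K] {r : ℕ}
    (f : (MvPolynomial (Fin r) (𝓞 K))[X]) : (GF r K)[X] :=
  f.map (algebraMap (MvPolynomial (Fin r) (𝓞 K)) (GF r K))

/-- The number of roots of degree at most `N` over `k`. -/
noncomputable def cnt (k : Type) [Field k] (N : ℕ) (f : k[X]) : ℕ :=
  {x : AlgebraicClosure k | aeval x f = 0 ∧ (minpoly k x).natDegree ≤ N}.ncard

/-- The preperiodic points of `F / G` in the projective line over the algebraic closure of `k` which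
have degree at most `N` over `k`; points are written as `(x, 1)` and `(1, 0)`. -/
def Pts (k : Type) [Field k] (N d : ℕ) (F G : k[X]) :
    Set (AlgebraicClosure k × AlgebraicClosure k) :=
  {p | (p.2 = 1 ∨ p = (1, 0)) ∧ (minpoly k p.1).natDegree ≤ N ∧ ∃ a b : ℕ, a < b ∧
    wedge ((lift d (F.map (algebraMap k _)) (G.map (algebraMap k _)))^[a] p)
      ((lift d (F.map (algebraMap k _)) (G.map (algebraMap k _)))^[b] p) = 0}

/-- The same with `b ≤ B`. -/
def PtsB (k : Type) [Field k] (N d B : ℕ) (F G : k[X]) :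
    Set (AlgebraicClosure k × AlgebraicClosure k) :=
  {p | (p.2 = 1 ∨ p = (1, 0)) ∧ (minpoly k p.1).natDegree ≤ N ∧ ∃ a b : ℕ, a < b ∧ b ≤ B ∧
    wedge ((lift d (F.map (algebraMap k _)) (G.map (algebraMap k _)))^[a] p)
      ((lift d (F.map (algebraMap k _)) (G.map (algebraMap k _)))^[b] p) = 0}

/-- The polynomial whose roots are the `x` with `f^a(x) = f^b(x)` for some `a < b ≤ B`. -/
noncomputable def WB {A : Type*} [CommRing A] (d B : ℕ) (F G : A[X]) : A[X] :=
  ∏ b ∈ Finset.range (B + 1), ∏ a ∈ Finset.range b, wedge (itP d a F G) (itP d b F G)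

theorem mem_Box {r L : ℕ} {w : Fin r → ℤ} : w ∈ Box r L ↔ ∀ i, 0 ≤ w i ∧ w i < L := by
  unfold Box
  rw [Fintype.mem_piFinset]
  exact forall_congr' fun i => Finset.mem_Ico

theorem card_Box (r L : ℕ) : (Box r L).card = L ^ r := by
  unfold Box
  rw [Fintype.card_piFinset]
  simp

theorem pts_famK {K : Type} [Field K] [NumberField K] (N d : ℕ) (F G : (𝓞 K)[X]) :
    FamK.Pts N d F G = Pts K N d (toK F) (toK G) := by
  unfold FamK.Pts Pts toK
  rw [Polynomial.map_map, Polynomial.map_map, ← IsScalarTower.algebraMap_eq]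

end Pool.Agent.LIM
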