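import Mathlib
import Pool.Agent.LIM.Defs
import Pool.Agent.FAM.Lines
import Pool.Agent.FAM.KNorm

set_option autoImplicit false

/-!
# Sets of integral points of density zero
-/

namespace Pool.Agent.LIM

open Polynomial NumberField
open Pool.Agent.FAM (Cube)
open Pool.Agent.FamK (ev)

theorem Null.mono {r : ℕ} {S T : Set (Fin r → ℤ)} (h : S ⊆ T) (hT : Null T) : Null S := by
  intro ε hε
  obtain ⟨H₀, hH⟩ := hT ε hε
  refine ⟨H₀, fun H hH0 => le_trans ?_ (hH H hH0)⟩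
  have h1 : ((Cube r H : Set (Fin r → ℤ)) ∩ S).ncard ≤
      ((Cube r H : Set (Fin r → ℤ)) ∩ T).ncard :=
    Set.ncard_le_ncard (Set.inter_subset_inter_right _ h)
      (Set.Finite.subset (Finset.finite_toSet _) Set.inter_subset_left)
  exact_mod_cast h1

theorem Null.union {r : ℕ} {S T : Set (Fin r → ℤ)} (hS : Null S) (hT : Null T) :
    Null (S ∪ T) := by
  intro ε hε
  obtain ⟨H₁, h1⟩ := hS (ε / 2) (by positivity)
  obtain ⟨H₂, h2⟩ := hT (ε / 2) (by positivity)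
  refine ⟨max H₁ H₂, fun H hH => ?_⟩
  have h3 := h1 H ((le_max_left _ _).trans hH)
  have h4 := h2 H ((le_max_right _ _).trans hH)
  have h5 : ((Cube r H : Set (Fin r → ℤ)) ∩ (S ∪ T)).ncard ≤
      ((Cube r H : Set (Fin r → ℤ)) ∩ S).ncard + ((Cube r H : Set (Fin r → ℤ)) ∩ T).ncard := by
    rw [Set.inter_union_distrib_left]
    exact Set.ncard_union_le _ _
  have h6 : (((Cube r H : Set (Fin r → ℤ)) ∩ (S ∪ T)).ncard : ℝ) ≤
      (((Cube r H : Set (Fin r → ℤ)) ∩ S).ncard : ℝ) +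
      (((Cube r H : Set (Fin r → ℤ)) ∩ T).ncard : ℝ) := by
    exact_mod_cast h5
  calc (((Cube r H : Set (Fin r → ℤ)) ∩ (S ∪ T)).ncard : ℝ) ≤ _ := h6
    _ ≤ ε / 2 * (2 * (H : ℝ) + 1) ^ r + ε / 2 * (2 * (H : ℝ) + 1) ^ r := add_le_add h3 h4
    _ = ε * (2 * (H : ℝ) + 1) ^ r := by ring

theorem null_empty {r : ℕ} : Null (∅ : Set (Fin r → ℤ)) := by
  intro ε hε
  refine ⟨0, fun H _ => ?_⟩
  rw [Set.inter_empty, Set.ncard_empty, Nat.cast_zero]
  positivity

theorem Null.iUnion {r : ℕ} {ι : Type} [Finite ι] {S : ι → Set (Fin r → ℤ)}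
    (h : ∀ i, Null (S i)) : Null (⋃ i, S i) := by
  classical
  have := Fintype.ofFinite ι
  have key : ∀ t : Finset ι, Null (⋃ i ∈ t, S i) := by
    intro t
    induction t using Finset.induction_on with
    | empty => simpa using null_empty
    | insert a t ha ih =>
      rw [Finset.set_biUnion_insert]
      exact (h a).union ih
  refine (key Finset.univ).mono fun x hx => ?_
  obtain ⟨i, hi⟩ := Set.mem_iUnion.1 hx
  exact Set.mem_iUnion₂.2 ⟨i, Finset.mem_univ i, hi⟩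

theorem null_zeros {K : Type} [Field K] [NumberField K] {r : ℕ}
    (D : MvPolynomial (Fin r) (𝓞 K)) (hD : D ≠ 0) : Null {s : Fin r → ℤ | ev s D = 0} := by
  classical
  intro ε hε
  obtain ⟨W, hW, hW0, -⟩ := Pool.Agent.FamK.norm_poly D
  obtain ⟨C, hC⟩ := Pool.Agent.FAM.zeros W (hW0 hD)
  refine ⟨⌈(C : ℝ) / ε⌉₊, fun H hH => ?_⟩
  have h1 : ((Cube r H : Set (Fin r → ℤ)) ∩ {s : Fin r → ℤ | ev s D = 0}).ncard ≤
      ((Cube r H).filter (fun s => MvPolynomial.eval s W = 0)).card := by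
    rw [← Set.ncard_coe_finset]
    refine Set.ncard_le_ncard (fun s hs => ?_) (Finset.finite_toSet _)
    obtain ⟨hs1, hs2⟩ := hs
    have hs3 : ev s D = 0 := hs2
    rw [Finset.coe_filter]
    refine ⟨Finset.mem_coe.1 hs1, ?_⟩
    rw [hW s, hs3, Algebra.norm_zero]
  have h2 : (2 * (H : ℝ) + 1) *
      (((Cube r H).filter (fun s => MvPolynomial.eval s W = 0)).card : ℝ) ≤
      C * (2 * (H : ℝ) + 1) ^ r := by
    have h3 := hC H
    have h4 : (((2 * H + 1) * ((Cube r H).filter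
      (fun s => MvPolynomial.eval s W = 0)).card : ℕ) : ℝ) ≤ ((C * (2 * H + 1) ^ r : ℕ) : ℝ) := by
      refine Nat.cast_le.2 ?_
      refine le_trans (le_of_eq ?_) h3
      congr 2
    push_cast at h4
    exact h4
  have h3 : (C : ℝ) ≤ ε * (2 * (H : ℝ) + 1) := by
    have h4 : (C : ℝ) / ε ≤ H := (Nat.le_ceil _).trans (by exact_mod_cast hH)
    rw [div_le_iff₀ hε] at h4
    nlinarith [(Nat.cast_nonneg H : (0 : ℝ) ≤ H)]
  have h5 : (0 : ℝ) < 2 * (H : ℝ) + 1 := by positivity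
  have h6 : (2 * (H : ℝ) + 1) *
      (((Cube r H).filter (fun s => MvPolynomial.eval s W = 0)).card : ℝ) ≤
      (2 * (H : ℝ) + 1) * (ε * (2 * (H : ℝ) + 1) ^ r) := by
    refine h2.trans ?_
    calc (C : ℝ) * (2 * (H : ℝ) + 1) ^ r ≤ ε * (2 * (H : ℝ) + 1) * (2 * (H : ℝ) + 1) ^ r :=
          mul_le_mul_of_nonneg_right h3 (by positivity)
      _ = _ := by ring
  refine le_trans ?_ (le_of_mul_le_mul_left h6 h5)
  exact_mod_cast h1

end Pool.Agent.LIM
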