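import Mathlib
import Pool.Agent.LIM.Defs

set_option autoImplicit false

/-!
# Some sub-box of small size meets a set of positive density
-/

namespace Pool.Agent.LIM

open Pool.Agent.FAM (Cube mem_Cube card_Cube)

theorem avg {r : ℕ} (S : Set (Fin r → ℤ)) (H q L : ℕ) (h : q * L ≤ H) (δ : ℝ)
    (hS : δ * (2 * (H : ℝ) + 1) ^ r ≤ (((Cube r H : Set (Fin r → ℤ)) ∩ S).ncard : ℝ)) :
    ∃ (s₀ : Fin r → ℤ) (W : Finset (Fin r → ℤ)), W ⊆ Box r L ∧
      (∀ w ∈ W, s₀ + (q : ℤ) • w ∈ S ∧ s₀ + (q : ℤ) • w ∈ Cube r H) ∧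
      δ / 2 ^ r * (L : ℝ) ^ r ≤ (W.card : ℝ) := by
  classical
  rcases le_or_gt δ 0 with hδ | hδ
  · refine ⟨0, ∅, by simp, by simp, ?_⟩
    rw [Finset.card_empty, Nat.cast_zero]
    exact mul_nonpos_of_nonpos_of_nonneg (div_nonpos_of_nonpos_of_nonneg hδ (by positivity))
      (by positivity)
  set T : Finset (Fin r → ℤ) := (Cube r H).filter (fun s => s ∈ S) with hT
  have hTc : (Cube r H : Set (Fin r → ℤ)) ∩ S = (T : Set (Fin r → ℤ)) := by
    ext s
    simp [hT]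
  rw [hTc, Set.ncard_coe_finset] at hS
  by_contra hcon
  have h1 : ∀ s₀ : Fin r → ℤ,
      (((Box r L).filter (fun w => s₀ + (q : ℤ) • w ∈ T)).card : ℝ) < δ / 2 ^ r * (L : ℝ) ^ r := by
    intro s₀
    by_contra h2
    refine hcon ⟨s₀, _, Finset.filter_subset _ _, fun w hw => ?_, not_lt.1 h2⟩
    have h3 := (Finset.mem_filter.1 hw).2
    rw [hT, Finset.mem_filter] at h3
    exact ⟨h3.2, h3.1⟩
  have h2 : ∑ s₀ ∈ Cube r (2 * H), ((Box r L).filter (fun w => s₀ + (q : ℤ) • w ∈ T)).card =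
      ∑ w ∈ Box r L, ((Cube r (2 * H)).filter (fun s₀ => s₀ + (q : ℤ) • w ∈ T)).card := by
    simp only [Finset.card_filter]
    exact Finset.sum_comm
  have h3 : ∀ w ∈ Box r L, T.card ≤
      ((Cube r (2 * H)).filter (fun s₀ => s₀ + (q : ℤ) • w ∈ T)).card := by
    intro w hw
    refine Finset.card_le_card_of_injOn (fun t => t - (q : ℤ) • w) ?_ ?_
    · intro t ht
      have ht' : t ∈ T := ht
      rw [Finset.mem_coe, Finset.mem_filter, sub_add_cancel]
      refine ⟨?_, ht'⟩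
      rw [mem_Cube]
      intro i
      have h4 := mem_Cube.1 (Finset.mem_filter.1 ht').1 i
      have h5 := mem_Box.1 hw i
      have h6 : (q : ℤ) * w i ≤ H := by
        have : (q : ℤ) * w i ≤ q * L := mul_le_mul_of_nonneg_left h5.2.le (by positivity)
        have h7 : (q : ℤ) * L ≤ H := by exact_mod_cast h
        linarith
      have h7 : 0 ≤ (q : ℤ) * w i := mul_nonneg (by positivity) h5.1
      simp only [Pi.sub_apply, Pi.smul_apply, smul_eq_mul]
      rw [abs_le] at h4 ⊢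
      push_cast
      constructor <;> linarith [h4.1, h4.2]
    · intro a _ b _ hab
      exact sub_left_injective hab
  have h4 : L ^ r * T.card ≤
      ∑ s₀ ∈ Cube r (2 * H), ((Box r L).filter (fun w => s₀ + (q : ℤ) • w ∈ T)).card := by
    rw [h2, ← card_Box r L, ← smul_eq_mul, ← Finset.sum_const]
    exact Finset.sum_le_sum h3
  have h5 : (L : ℝ) ^ r * T.card ≤ ∑ s₀ ∈ Cube r (2 * H),
      (((Box r L).filter (fun w => s₀ + (q : ℤ) • w ∈ T)).card : ℝ) := by exact_mod_cast h4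
  have hne : (Cube r (2 * H)).Nonempty := by
    rw [← Finset.card_pos, card_Cube]
    positivity
  have h6 : ∑ s₀ ∈ Cube r (2 * H),
      (((Box r L).filter (fun w => s₀ + (q : ℤ) • w ∈ T)).card : ℝ) <
      (2 * (2 * (H : ℝ)) + 1) ^ r * (δ / 2 ^ r * (L : ℝ) ^ r) := by
    refine (Finset.sum_lt_sum_of_nonempty hne fun s₀ _ => h1 s₀).trans_le ?_
    rw [Finset.sum_const, card_Cube, nsmul_eq_mul]
    push_cast
    exact le_refl _
  have h7 : (2 * (2 * (H : ℝ)) + 1) ^ r ≤ 2 ^ r * (2 * (H : ℝ) + 1) ^ r := by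
    rw [← mul_pow]
    exact pow_le_pow_left₀ (by positivity) (by linarith) r
  have h8 : (2 * (2 * (H : ℝ)) + 1) ^ r * (δ / 2 ^ r * (L : ℝ) ^ r) ≤
      (L : ℝ) ^ r * (δ * (2 * (H : ℝ) + 1) ^ r) := by
    calc (2 * (2 * (H : ℝ)) + 1) ^ r * (δ / 2 ^ r * (L : ℝ) ^ r)
        ≤ (2 ^ r * (2 * (H : ℝ) + 1) ^ r) * (δ / 2 ^ r * (L : ℝ) ^ r) :=
          mul_le_mul_of_nonneg_right h7 (by positivity)
      _ = (L : ℝ) ^ r * (δ * (2 * (H : ℝ) + 1) ^ r) := by
          field_simp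
  have h9 := mul_le_mul_of_nonneg_left hS (by positivity : (0 : ℝ) ≤ (L : ℝ) ^ r)
  linarith

end Pool.Agent.LIM
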