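import Mathlib
import Pool.Agent.FAM.Cop

set_option autoImplicit false

/-!
# Clearing the denominators of a Bezout relation
-/

namespace Pool.Agent.LIM

open Polynomial
open Pool.Agent.FAM

theorem bezout {A : Type} [CommRing A] [IsDomain A] (f g : A[X])
    (h : IsCoprime (f.map (algebraMap A (FractionRing A)))
      (g.map (algebraMap A (FractionRing A)))) :
    ∃ (D : A) (U V : A[X]), D ≠ 0 ∧ U * f + V * g = C D := by
  obtain ⟨a', b', hab⟩ := h
  obtain ⟨c, a, hc, ha⟩ := Cop.clear (A := A) a'
  obtain ⟨e, b, he, hb⟩ := Cop.clear (A := A) b'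
  refine ⟨c * e, C e * a, C c * b, mul_ne_zero hc he,
    Cop.map_inj (K := FractionRing A) ?_⟩
  rw [Polynomial.map_add, Polynomial.map_mul, Polynomial.map_mul, Polynomial.map_mul,
    Polynomial.map_mul, ha, hb, map_C, map_C, map_C, map_mul, C_mul]
  linear_combination (C (algebraMap A (FractionRing A) c) *
    C (algebraMap A (FractionRing A) e)) * hab

end Pool.Agent.LIM
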