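import Mathlib
import Pool.Agent.LIM.Defs

set_option autoImplicit false

/-!
# The size of the coefficients of a monic factor
-/

namespace Pool.Agent.LIM

open Polynomial NumberField
open Pool.Agent.FAM (Cube mem_Cube)
open Pool.Agent.FamK (ev spec)

namespace Bnd

variable {K : Type} [Field K] [NumberField K]

theorem raise {C H : ℝ} {e f : ℕ} (hC : 0 ≤ C) (hH : 1 ≤ H) (h : e ≤ f) :
    C * H ^ e ≤ C * H ^ f :=
  mul_le_mul_of_nonneg_left (pow_le_pow_right₀ hH h) hC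

theorem value_bound {r : ℕ} (U : MvPolynomial (Fin r) (𝓞 K)) : ∃ C e : ℕ, ∀ H : ℕ, 1 ≤ H →
    ∀ s ∈ Cube r H, ∀ σ : K →+* ℂ,
      ‖(σ.comp (algebraMap (𝓞 K) K)) (ev s U)‖ ≤ C * (H : ℝ) ^ e := by
  classical
  induction U using MvPolynomial.induction_on with
  | C a =>
    refine ⟨⌈∑ σ : K →+* ℂ, ‖(σ.comp (algebraMap (𝓞 K) K)) a‖⌉₊, 0, fun H _ s _ σ => ?_⟩
    have h1 : ev s (MvPolynomial.C a) = a := by simp [ev]
    rw [h1, pow_zero, mul_one]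
    refine le_trans ?_ (Nat.le_ceil _)
    exact Finset.single_le_sum (f := fun σ : K →+* ℂ => ‖(σ.comp (algebraMap (𝓞 K) K)) a‖)
      (fun _ _ => norm_nonneg _) (Finset.mem_univ σ)
  | add P Q hP hQ =>
    obtain ⟨C₁, e₁, h₁⟩ := hP
    obtain ⟨C₂, e₂, h₂⟩ := hQ
    refine ⟨C₁ + C₂, e₁ + e₂, fun H hH s hs σ => ?_⟩
    have hH' : (1 : ℝ) ≤ H := by exact_mod_cast hH
    rw [map_add, map_add]
    refine (norm_add_le _ _).trans ?_
    have h4 := (h₁ H hH s hs σ).trans (raise (Nat.cast_nonneg _) hH' (Nat.le_add_right e₁ e₂))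
    have h5 := (h₂ H hH s hs σ).trans (raise (Nat.cast_nonneg _) hH' (Nat.le_add_left e₂ e₁))
    push_cast
    rw [add_mul]
    exact add_le_add h4 h5
  | mul_X P i hP =>
    obtain ⟨C₁, e₁, h₁⟩ := hP
    refine ⟨C₁, e₁ + 1, fun H hH s hs σ => ?_⟩
    have h2 : ev s (P * MvPolynomial.X i) = ev s P * ((s i : ℤ) : 𝓞 K) := by
      rw [map_mul]
      congr 1
      simp [ev]
    rw [h2, map_mul, map_intCast, norm_mul, pow_succ, ← mul_assoc]
    have h4 : ‖((s i : ℤ) : ℂ)‖ ≤ H := by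
      have h5 := mem_Cube.1 hs i
      rw [Complex.norm_intCast]
      have h6 : ((|s i| : ℤ) : ℝ) ≤ ((H : ℤ) : ℝ) := by exact_mod_cast h5
      rw [Int.cast_abs] at h6
      exact_mod_cast h6
    exact mul_le_mul (h₁ H hH s hs σ) h4 (norm_nonneg _) (by positivity)

/-- The roots of a monic polynomial. -/
theorem root_le (p : ℂ[X]) (hp : p.Monic) (B : ℝ) (hB : 0 ≤ B) (h : ∀ i, ‖p.coeff i‖ ≤ B)
    (x : ℂ) (hx : p.IsRoot x) : ‖x‖ ≤ B + 1 := by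
  have h1 := IsRoot.norm_lt_cauchyBound hp.ne_zero hx
  have h2 : p.cauchyBound ≤ ⟨B, hB⟩ + 1 := by
    unfold cauchyBound
    rw [hp.leadingCoeff, nnnorm_one, div_one]
    refine add_le_add ?_ le_rfl
    refine Finset.sup_le fun i _ => ?_
    exact h i
  have h3 : ‖x‖₊ ≤ ⟨B, hB⟩ + 1 := h1.le.trans h2
  exact h3

end Bnd

theorem coeff_bound {K : Type} [Field K] [NumberField K] {r : ℕ}
    (P : (MvPolynomial (Fin r) (𝓞 K))[X]) (hP : P.Monic) : ∃ C e : ℕ, ∀ H : ℕ, 1 ≤ H →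
    ∀ s ∈ Cube r H, ∀ Q : (𝓞 K)[X], Q.Monic → Q ∣ spec s P → ∀ (i : ℕ) (σ : K →+* ℂ),
      ‖σ (Q.coeff i : K)‖ ≤ C * (H : ℝ) ^ e := by
  classical
  choose C e h using fun i : ℕ => Bnd.value_bound (K := K) (P.coeff i)
  obtain ⟨M, hM⟩ : ∃ M : ℕ, M = P.natDegree := ⟨_, rfl⟩
  obtain ⟨C₀, hC₀⟩ : ∃ C₀ : ℕ, C₀ = ∑ i ∈ Finset.range (M + 1), C i := ⟨_, rfl⟩
  obtain ⟨e₀, he₀⟩ : ∃ e₀ : ℕ, e₀ = ∑ i ∈ Finset.range (M + 1), e i := ⟨_, rfl⟩
  refine ⟨(C₀ + 1) ^ M * M.choose (M / 2), e₀ * M, fun H hH s hs Q hQ hdvd i σ => ?_⟩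
  have hH' : (1 : ℝ) ≤ H := by exact_mod_cast hH
  obtain ⟨B, hB⟩ : ∃ B : ℝ, B = C₀ * (H : ℝ) ^ e₀ := ⟨_, rfl⟩
  have hB0 : 0 ≤ B := by rw [hB]; positivity
  have hcoef : ∀ i, ‖(σ.comp (algebraMap (𝓞 K) K)) ((spec s P).coeff i)‖ ≤ B := by
    intro i
    rw [FamK.spec_coeff]
    by_cases hi : i ∈ Finset.range (M + 1)
    · refine (h i H hH s hs σ).trans ?_
      rw [hB]
      have h1 : (C i : ℝ) ≤ C₀ := by
        rw [hC₀]
        exact_mod_cast Finset.single_le_sum (f := C) (fun _ _ => Nat.zero_le _) hi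
      have h2 : e i ≤ e₀ := by
        rw [he₀]
        exact Finset.single_le_sum (f := e) (fun _ _ => Nat.zero_le _) hi
      exact (Bnd.raise (Nat.cast_nonneg _) hH' h2).trans
        (mul_le_mul_of_nonneg_right h1 (by positivity))
    · have h1 : P.coeff i = 0 := by
        apply coeff_eq_zero_of_natDegree_lt
        rw [Finset.mem_range] at hi
        omega
      rw [h1, map_zero, map_zero, norm_zero]
      exact hB0
  obtain ⟨φ, hφ⟩ : ∃ φ : 𝓞 K →+* ℂ, φ = σ.comp (algebraMap (𝓞 K) K) := ⟨_, rfl⟩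
  have hPm : (spec s P).Monic := hP.map _
  have hdvd' : Q.map φ ∣ (spec s P).map φ := Polynomial.map_dvd φ hdvd
  have hne : (spec s P).map φ ≠ 0 := (hPm.map φ).ne_zero
  have hroots : ∀ z ∈ (Q.map φ).roots, ‖z‖ ≤ B + 1 := by
    intro z hz
    refine Bnd.root_le ((spec s P).map φ) (hPm.map φ) B hB0 ?_ z ?_
    · intro i
      rw [coeff_map, hφ]
      exact hcoef i
    · obtain ⟨R, hR⟩ := hdvd'
      rw [IsRoot.def, hR, eval_mul]
      have h1 := (mem_roots'.1 hz).2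
      rw [IsRoot.def] at h1
      rw [h1, zero_mul]
  have hdeg : Q.natDegree ≤ M := by
    have h1 : Q.natDegree ≤ (spec s P).natDegree := natDegree_le_of_dvd hdvd hPm.ne_zero
    rw [hM]
    exact h1.trans natDegree_map_le
  have h1 := coeff_bdd_of_roots_le φ hQ (IsAlgClosed.splits _) hdeg hroots i
  rw [coeff_map, hφ] at h1
  refine le_trans h1 ?_
  have h2 : max (B + 1) 1 ≤ (C₀ + 1) * (H : ℝ) ^ e₀ := by
    have h3 : (1 : ℝ) ≤ (H : ℝ) ^ e₀ := one_le_pow₀ hH'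
    refine max_le ?_ ?_
    · rw [hB, add_mul, one_mul]
      exact add_le_add le_rfl h3
    · have : (0 : ℝ) ≤ C₀ * (H : ℝ) ^ e₀ := by positivity
      rw [add_mul, one_mul]
      linarith
  have h3 : (max (B + 1) 1) ^ M ≤ ((C₀ + 1) * (H : ℝ) ^ e₀) ^ M :=
    pow_le_pow_left₀ (le_max_of_le_right zero_le_one) h2 M
  have h4 : (((C₀ + 1) ^ M * M.choose (M / 2) : ℕ) : ℝ) * (H : ℝ) ^ (e₀ * M) =
      ((C₀ + 1) * (H : ℝ) ^ e₀) ^ M * M.choose (M / 2) := by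
    push_cast
    rw [mul_pow, ← pow_mul]
    ring
  rw [h4]
  exact mul_le_mul_of_nonneg_right h3 (Nat.cast_nonneg _)

end Pool.Agent.LIM
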