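import Mathlib

set_option autoImplicit false

/-!
# Newton approximation modulo the powers of an ideal
-/

namespace Pool.Agent.LIM

open Polynomial

/-- An approximate simple root modulo `I` gives one modulo `I ^ k`. -/
theorem taylor {B : Type} [CommRing B] (I : Ideal B) (f : B[X]) (a c : B) (h0 : f.eval a ∈ I)
    (h1 : 1 - c * (derivative f).eval a ∈ I) (k : ℕ) :
    ∃ x : B, x - a ∈ I ∧ f.eval x ∈ I ^ k := by
  have key : ∀ k : ℕ, ∃ x : B, x - a ∈ I ∧ f.eval x ∈ I ^ (k + 1) := by
    intro k
    induction k with
    | zero => exact ⟨a, by rw [sub_self]; exact I.zero_mem, by rwa [zero_add, pow_one]⟩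
    | succ k ih =>
      obtain ⟨x, hxa, hx⟩ := ih
      obtain ⟨z, hz⟩ := f.binomExpansion x (-(c * f.eval x))
      have hfI : f.eval x ∈ I := Ideal.pow_le_self (Nat.succ_ne_zero k) hx
      refine ⟨x + -(c * f.eval x), ?_, ?_⟩
      · have h2 : x + -(c * f.eval x) - a = (x - a) - c * f.eval x := by ring
        rw [h2]
        exact I.sub_mem hxa (I.mul_mem_left _ hfI)
      · have h3 : 1 - c * (derivative f).eval x ∈ I := by
          obtain ⟨t, ht⟩ := sub_dvd_eval_sub x a (derivative f)
          have h4 : 1 - c * (derivative f).eval x =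
              (1 - c * (derivative f).eval a) - c * ((x - a) * t) := by
            rw [← ht]
            ring
          rw [h4]
          exact I.sub_mem h1 (I.mul_mem_left _ (I.mul_mem_right _ hxa))
        have h5 : f.eval (x + -(c * f.eval x)) =
            f.eval x * (1 - c * (derivative f).eval x) + z * c ^ 2 * (f.eval x * f.eval x) := by
          rw [hz]
          ring
        rw [h5, pow_succ I (k + 1)]
        refine Ideal.add_mem _ (Ideal.mul_mem_mul hx h3) (Ideal.mul_mem_left _ _ ?_)
        exact Ideal.mul_mem_mul hx hfI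
  rcases k with _ | k
  · exact ⟨a, by rw [sub_self]; exact I.zero_mem, by rw [pow_zero, Ideal.one_eq_top]; trivial⟩
  · exact key k

end Pool.Agent.LIM
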