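import Mathlib
import Pool.Agent.LIM.Defs
import Pool.Agent.LIM.Tay

set_option autoImplicit false

/-!
# The branches of the roots
-/

namespace Pool.Agent.LIM

open Polynomial NumberField
open Pool.Agent.FamK (ev spec)

namespace Bra

variable {r : ℕ} {O : Type} [CommRing O]

theorem exists_fun (n : ℕ) : ∀ m : Multiset O, m.card = n →
    ∃ ρ : Fin n → O, ∀ g : O → O[X], (m.map g).prod = ∏ l, g (ρ l) := by
  induction n with
  | zero =>
    intro m hm
    rw [Multiset.card_eq_zero] at hm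
    subst hm
    exact ⟨Fin.elim0, fun g => by simp⟩
  | succ n ih =>
    intro m hm
    obtain ⟨a, m', rfl⟩ : ∃ a m', m = a ::ₘ m' := by
      obtain ⟨a, ha⟩ := Multiset.card_pos_iff_exists_mem.1 (by omega : 0 < m.card)
      exact ⟨a, (Multiset.exists_cons_of_mem ha)⟩
    rw [Multiset.card_cons, Nat.add_right_cancel_iff] at hm
    obtain ⟨ρ, hρ⟩ := ih m' hm
    refine ⟨Fin.cons a ρ, fun g => ?_⟩
    rw [Multiset.map_cons, Multiset.prod_cons, hρ, Fin.prod_univ_succ, Fin.cons_zero]
    simp only [Fin.cons_succ]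

theorem split [IsDomain O]
    (hs : ∀ f : O[X], f.Monic → ∃ m : Multiset O, f = (m.map fun a => X - C a).prod)
    (f : O[X]) (hf : f.Monic) (n : ℕ) (hn : f.natDegree = n) :
    ∃ ρ : Fin n → O, f = ∏ l, (X - C (ρ l)) := by
  obtain ⟨m, hm⟩ := hs f hf
  have hcard : m.card = n := by
    rw [← hn, hm, natDegree_multiset_prod_X_sub_C_eq_card]
  obtain ⟨ρ, hρ⟩ := exists_fun n m hcard
  exact ⟨ρ, hm.trans (hρ _)⟩

/-- The shift by `b`. -/
noncomputable def sh (b : Fin r → ℤ) : MvPolynomial (Fin r) O →+* MvPolynomial (Fin r) O :=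
  MvPolynomial.eval₂Hom MvPolynomial.C
    fun i => MvPolynomial.C ((b i : ℤ) : O) + MvPolynomial.X i

theorem ev_C (s : Fin r → ℤ) (a : O) : ev s (MvPolynomial.C a) = a := by
  unfold ev
  rw [MvPolynomial.eval_C]

theorem ev_X (s : Fin r → ℤ) (i : Fin r) :
    ev s (MvPolynomial.X i : MvPolynomial (Fin r) O) = ((s i : ℤ) : O) := by
  unfold ev
  rw [MvPolynomial.eval_X]

theorem ev_sh (b s : Fin r → ℤ) :
    (ev (A := O) s).comp (sh b) = ev (b + s) := by
  refine MvPolynomial.ringHom_ext (fun a => ?_) (fun i => ?_)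
  · rw [RingHom.comp_apply, sh, MvPolynomial.coe_eval₂Hom, MvPolynomial.eval₂_C, ev_C, ev_C]
  · rw [RingHom.comp_apply, sh, MvPolynomial.coe_eval₂Hom, MvPolynomial.eval₂_X, map_add, ev_C,
      ev_X, ev_X, Pi.add_apply, Int.cast_add]

/-- Congruence of evaluations. -/
theorem ev_congr (J : Ideal O) (s s' : Fin r → ℤ)
    (h : ∀ i, ((s i : ℤ) : O) - ((s' i : ℤ) : O) ∈ J) :
    (Ideal.Quotient.mk J).comp (ev s) = (Ideal.Quotient.mk J).comp (ev (A := O) s') := by
  refine MvPolynomial.ringHom_ext (fun a => ?_) (fun i => ?_)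
  · rw [RingHom.comp_apply, RingHom.comp_apply, ev_C, ev_C]
  · rw [RingHom.comp_apply, RingHom.comp_apply, ev_X, ev_X]
    exact Ideal.Quotient.eq.2 (h i)

theorem ev_sub_mem (J : Ideal O) (s s' : Fin r → ℤ)
    (h : ∀ i, ((s i : ℤ) : O) - ((s' i : ℤ) : O) ∈ J) (U : MvPolynomial (Fin r) O) :
    ev s U - ev s' U ∈ J :=
  Ideal.Quotient.eq.1 (congrArg (fun g => g U) (ev_congr J s s' h))

/-- Congruence of the values of two congruent specialisations. -/
theorem eval_congr (J : Ideal O) (s s' : Fin r → ℤ)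
    (h : ∀ i, ((s i : ℤ) : O) - ((s' i : ℤ) : O) ∈ J) (P : (MvPolynomial (Fin r) O)[X]) (x : O) :
    (spec s P).eval x - (spec s' P).eval x ∈ J := by
  rw [← Ideal.Quotient.eq, ← Polynomial.eval_map_apply, ← Polynomial.eval_map_apply, spec, spec,
    Polynomial.map_map, Polynomial.map_map, ev_congr J s s' h]

end Bra

open Bra

theorem branch {r : ℕ} {O : Type} [CommRing O] [IsDomain O] [IsLocalRing O]
    (hs : ∀ f : O[X], f.Monic → ∃ m : Multiset O, f = (m.map fun a => X - C a).prod)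
    (P : (MvPolynomial (Fin r) O)[X]) (hP : P.Monic) (b : Fin r → ℤ)
    (hb : ∀ x : O, (spec b P).eval x ∈ IsLocalRing.maximalIdeal O →
      IsUnit ((derivative (spec b P)).eval x)) (k : ℕ) :
    ∃ A : Fin P.natDegree → MvPolynomial (Fin r) O, ∀ (q : ℕ) (w : Fin r → ℤ),
      (q : O) ∈ IsLocalRing.maximalIdeal O → ∀ (j : ℕ) (Q : O[X]), Q.Monic → Q.natDegree = j →
      Q ∣ spec (b + (q : ℤ) • w) P → ∃ l : Fin j → Fin P.natDegree, ∀ i : ℕ,
        (q : O) ^ k ∣ Q.coeff i -
          ev ((q : ℤ) • w) ((∏ t : Fin j, (X - C (A (l t)))).coeff i) := by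
  have hP0 : (spec b P).Monic := hP.map _
  have hP0d : (spec b P).natDegree = P.natDegree := hP.natDegree_map _
  obtain ⟨ρ, hρ⟩ := split hs (spec b P) hP0 P.natDegree hP0d
  set m := IsLocalRing.maximalIdeal O with hm
  have hroot : ∀ l, (spec b P).eval (ρ l) = 0 := fun l => by
    rw [hρ, eval_prod]
    refine Finset.prod_eq_zero (Finset.mem_univ l) ?_
    rw [eval_sub, eval_X, eval_C, sub_self]
  -- the branches
  have hbr : ∀ l, ∃ A : MvPolynomial (Fin r) O,
      ev (0 : Fin r → ℤ) (A - MvPolynomial.C (ρ l)) = 0 ∧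
      (P.map (sh b)).eval A ∈ (RingHom.ker (ev (A := O) (0 : Fin r → ℤ))) ^ k := by
    intro l
    obtain ⟨u, hu⟩ := hb (ρ l) (by rw [hroot]; exact m.zero_mem)
    have e1 : (P.map (sh b)).map (ev (A := O) (0 : Fin r → ℤ)) = spec b P := by
      rw [Polynomial.map_map, ev_sh, add_zero]
      rfl
    obtain ⟨A, hA1, hA2⟩ := taylor (RingHom.ker (ev (A := O) (0 : Fin r → ℤ))) (P.map (sh b))
      (MvPolynomial.C (ρ l)) (MvPolynomial.C ((u⁻¹ : Oˣ) : O)) (by
        rw [RingHom.mem_ker, ← Polynomial.eval_map_apply, e1, ev_C]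
        exact hroot l) (by
        rw [RingHom.mem_ker, map_sub, map_one, map_mul, ← Polynomial.eval_map_apply,
          ← derivative_map, e1, ev_C, ev_C, ← hu, Units.inv_mul, sub_self]) k
    exact ⟨A, hA1, hA2⟩
  choose A hA1 hA2 using hbr
  refine ⟨A, fun q w hq j Q hQ hQj hdvd => ?_⟩
  set s : Fin r → ℤ := b + (q : ℤ) • w with hsdef
  have hqi : ∀ i, (((((q : ℤ) • w) i : ℤ)) : O) = q * ((w i : ℤ) : O) := fun i => by
    rw [Pi.smul_apply, smul_eq_mul, Int.cast_mul, Int.cast_natCast]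
  -- congruences modulo `q`
  have hc0 : ∀ i, ((((q : ℤ) • w) i : ℤ) : O) - (((0 : Fin r → ℤ) i : ℤ) : O) ∈
      Ideal.span {(q : O)} := fun i => by
    rw [hqi, Pi.zero_apply, Int.cast_zero, sub_zero, Ideal.mem_span_singleton]
    exact dvd_mul_right _ _
  have hc1 : ∀ i, ((s i : ℤ) : O) - ((b i : ℤ) : O) ∈ Ideal.span {(q : O)} := fun i => by
    rw [hsdef, Pi.add_apply, Int.cast_add, hqi, add_sub_cancel_left, Ideal.mem_span_singleton]
    exact dvd_mul_right _ _
  have hqm : Ideal.span {(q : O)} ≤ m := by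
    rw [Ideal.span_le, Set.singleton_subset_iff]
    exact hq
  -- the values of the branches
  set α : Fin P.natDegree → O := fun l => ev ((q : ℤ) • w) (A l) with hα
  have hαρ : ∀ l, α l - ρ l ∈ m := by
    intro l
    refine hqm ?_
    have h1 := ev_sub_mem (Ideal.span {(q : O)}) _ _ hc0 (A l - MvPolynomial.C (ρ l))
    rw [hA1, sub_zero, map_sub, ev_C] at h1
    exact h1
  have hαP : ∀ l, (spec s P).eval (α l) ∈ Ideal.span {(q : O) ^ k} := by
    intro l
    have e1 : (P.map (sh b)).map (ev (A := O) ((q : ℤ) • w)) = spec s P := by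
      rw [Polynomial.map_map, ev_sh]
      rfl
    rw [← e1, Polynomial.eval_map_apply, ← Ideal.span_singleton_pow]
    have h1 : Ideal.map (ev (A := O) ((q : ℤ) • w)) (RingHom.ker (ev (A := O) (0 : Fin r → ℤ))) ≤
        Ideal.span {(q : O)} := by
      rw [Ideal.map_le_iff_le_comap]
      intro U hU
      rw [RingHom.mem_ker] at hU
      have h2 := ev_sub_mem (Ideal.span {(q : O)}) _ _ hc0 U
      rw [hU, sub_zero] at h2
      exact h2
    have h2 := Ideal.mem_map_of_mem (ev (A := O) ((q : ℤ) • w)) (hA2 l)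
    rw [Ideal.map_pow] at h2
    exact Ideal.pow_right_mono h1 k h2
  -- the roots of `Q`
  obtain ⟨θ, hθ⟩ := split hs Q hQ j hQj
  have hθ0 : ∀ t, (spec s P).eval (θ t) = 0 := fun t => by
    obtain ⟨R, hR⟩ := hdvd
    rw [hR, eval_mul, hθ, eval_prod, Finset.prod_eq_zero (Finset.mem_univ t), zero_mul]
    rw [eval_sub, eval_X, eval_C, sub_self]
  have hθm : ∀ t, (spec b P).eval (θ t) ∈ m := fun t => by
    refine hqm ?_
    have h1 := eval_congr (Ideal.span {(q : O)}) _ _ hc1 P (θ t)
    rw [hθ0, zero_sub] at h1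
    exact (Ideal.neg_mem_iff _).1 h1
  have hex : ∀ t, ∃ l, θ t - ρ l ∈ m := by
    intro t
    have h1 := hθm t
    rw [hρ, eval_prod] at h1
    simp only [eval_sub, eval_X, eval_C] at h1
    have hprime : m.IsPrime := (IsLocalRing.maximalIdeal.isMaximal O).isPrime
    obtain ⟨l, -, hl⟩ := (Ideal.IsPrime.prod_mem_iff (p := m)).1 h1
    exact ⟨l, hl⟩
  choose l hl using hex
  refine ⟨l, fun i => ?_⟩
  -- `q ^ k` divides `α (l t) - θ t`
  have hkey : ∀ t, α (l t) - θ t ∈ Ideal.span {(q : O) ^ k} := by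
    intro t
    have h1 : α (l t) - θ t ∈ m := by
      have h2 := m.sub_mem (hαρ (l t)) (hl t)
      have h3 : α (l t) - ρ (l t) - (θ t - ρ (l t)) = α (l t) - θ t := by ring
      rwa [h3] at h2
    obtain ⟨z, hz⟩ := (spec s P).binomExpansion (θ t) (α (l t) - θ t)
    rw [hθ0, zero_add, add_sub_cancel] at hz
    have h2 : IsUnit ((derivative (spec s P)).eval (θ t) + z * (α (l t) - θ t)) := by
      have h3 : IsUnit ((derivative (spec b P)).eval (θ t)) := hb _ (hθm t)
      have h4 : (derivative (spec s P)).eval (θ t) - (derivative (spec b P)).eval (θ t) ∈ m := by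
        refine hqm ?_
        have h5 := eval_congr (Ideal.span {(q : O)}) _ _ hc1 (derivative P) (θ t)
        have e5 : ∀ s' : Fin r → ℤ, spec s' (derivative P) = derivative (spec s' P) := fun s' => by
          rw [spec, spec, derivative_map]
        rwa [e5, e5] at h5
      by_contra h5
      have h6 : (derivative (spec s P)).eval (θ t) + z * (α (l t) - θ t) ∈ m :=
        (IsLocalRing.mem_maximalIdeal _).2 h5
      have h7 : (derivative (spec b P)).eval (θ t) ∈ m := by
        have h8 := m.sub_mem (m.sub_mem h6 (m.mul_mem_left z h1)) h4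
        have h9 : (derivative (spec s P)).eval (θ t) + z * (α (l t) - θ t) -
          z * (α (l t) - θ t) - ((derivative (spec s P)).eval (θ t) -
            (derivative (spec b P)).eval (θ t)) = (derivative (spec b P)).eval (θ t) := by ring
        rwa [h9] at h8
      exact (IsLocalRing.mem_maximalIdeal _).1 h7 h3
    have h3 := hαP (l t)
    rw [hz, Ideal.mem_span_singleton] at h3
    rw [Ideal.mem_span_singleton]
    have h4 : (derivative (spec s P)).eval (θ t) * (α (l t) - θ t) + z * (α (l t) - θ t) ^ 2 =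
        (α (l t) - θ t) * ((derivative (spec s P)).eval (θ t) + z * (α (l t) - θ t)) := by ring
    rw [h4] at h3
    exact (IsUnit.dvd_mul_right h2).1 h3
  -- conclusion
  rw [← Ideal.mem_span_singleton, ← Polynomial.coeff_map, Polynomial.map_prod]
  simp only [Polynomial.map_sub, Polynomial.map_X, Polynomial.map_C]
  rw [← Ideal.Quotient.eq, ← Polynomial.coeff_map, ← Polynomial.coeff_map, hθ,
    Polynomial.map_prod, Polynomial.map_prod]
  congr 1
  refine Finset.prod_congr rfl fun t _ => ?_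
  rw [Polynomial.map_sub, Polynomial.map_sub, Polynomial.map_X, Polynomial.map_C,
    Polynomial.map_C]
  congr 2
  exact (Ideal.Quotient.eq.2 (hkey t)).symm

end Pool.Agent.LIM
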