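import Mathlib
import Pool.Agent.LIM.Defs

set_option autoImplicit false

/-!
# Division by a polynomial with coefficients of small degree
-/

namespace Pool.Agent.LIM

open Polynomial NumberField
open Pool.Agent.FamK (ev spec)

namespace DivAux

/-- A substitution by polynomials of degree one does not increase the total degree. -/
theorem totalDegree_subst {r : ℕ} {A B : Type} [CommRing A] [CommRing B]
    (f : A →+* MvPolynomial (Fin r) B) (hf : ∀ a, (f a).totalDegree = 0)
    (g : Fin r → MvPolynomial (Fin r) B) (hg : ∀ i, (g i).totalDegree ≤ 1)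
    (U : MvPolynomial (Fin r) A) :
    (MvPolynomial.eval₂ f g U).totalDegree ≤ U.totalDegree := by
  rw [MvPolynomial.eval₂_eq]
  refine MvPolynomial.totalDegree_finsetSum_le fun m hm => ?_
  refine (MvPolynomial.totalDegree_mul _ _).trans ?_
  rw [hf, zero_add]
  refine (MvPolynomial.totalDegree_finsetProd _ _).trans ?_
  refine le_trans ?_ (MvPolynomial.le_totalDegree hm)
  rw [Finsupp.sum]
  refine Finset.sum_le_sum fun i _ => ?_
  refine (MvPolynomial.totalDegree_pow _ _).trans ?_
  exact (Nat.mul_le_mul_left _ (hg i)).trans (by simp)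

/-- The degrees of the coefficients of a remainder. -/
theorem mod_totalDegree {r : ℕ} {K : Type} [Field K] (g : (MvPolynomial (Fin r) K)[X])
    (hg : g.Monic) (k : ℕ) (hk : ∀ i, (g.coeff i).totalDegree ≤ k) :
    ∀ (n : ℕ) (f : (MvPolynomial (Fin r) K)[X]) (D : ℕ), f.natDegree < n →
      (∀ i, (f.coeff i).totalDegree ≤ D) →
      ∀ i, ((f %ₘ g).coeff i).totalDegree ≤ D + n * k := by
  intro n
  induction n with
  | zero => intro f D h; omega
  | succ n ih =>
    intro f D hn hD i
    by_cases h : degree g ≤ degree f ∧ f ≠ 0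
    · set f' := f - g * (C (leadingCoeff f) * X ^ (natDegree f - natDegree g)) with hf'
      have h1 : degree f' < degree f := div_wf_lemma h hg
      have h2 : f %ₘ g = f' %ₘ g := by
        rw [hf', sub_modByMonic, self_mul_modByMonic hg, sub_zero]
      rw [h2]
      by_cases h0 : f' = 0
      · rw [h0, zero_modByMonic, coeff_zero, MvPolynomial.totalDegree_zero]
        exact Nat.zero_le _
      have h3 : f'.natDegree < f.natDegree := natDegree_lt_natDegree h0 h1
      have h4 : ∀ i, (f'.coeff i).totalDegree ≤ D + k := by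
        intro i
        rw [hf', coeff_sub]
        refine (MvPolynomial.totalDegree_sub _ _).trans (max_le ((hD i).trans (by omega)) ?_)
        rw [← mul_assoc, coeff_mul_X_pow']
        split_ifs
        · rw [coeff_mul_C]
          refine (MvPolynomial.totalDegree_mul _ _).trans ?_
          have h5 := hk (i - (natDegree f - natDegree g))
          have h6 : (leadingCoeff f).totalDegree ≤ D := hD _
          omega
        · rw [MvPolynomial.totalDegree_zero]
          exact Nat.zero_le _
      refine (ih f' (D + k) (by omega) h4 i).trans (le_of_eq ?_)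
      ring
    · have h1 : f %ₘ g = f := by
        by_cases h0 : f = 0
        · rw [h0, zero_modByMonic]
        · rw [modByMonic_eq_self_iff hg]
          exact not_le.1 fun h' => h ⟨h', h0⟩
      rw [h1]
      exact (hD i).trans (Nat.le_add_right _ _)

/-- The substitution `s ↦ s₀ + q s`. -/
noncomputable def th {K : Type} [Field K] [NumberField K] {r : ℕ} (s₀ : Fin r → ℤ) (q : ℕ) :
    MvPolynomial (Fin r) (𝓞 K) →+* MvPolynomial (Fin r) K :=
  MvPolynomial.eval₂Hom (MvPolynomial.C.comp (algebraMap (𝓞 K) K))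
    (fun i => MvPolynomial.C ((s₀ i : ℤ) : K) + MvPolynomial.C ((q : ℕ) : K) * MvPolynomial.X i)

theorem ev_th {K : Type} [Field K] [NumberField K] {r : ℕ} (s₀ : Fin r → ℤ) (q : ℕ)
    (w : Fin r → ℤ) :
    (ev w).comp (th (K := K) s₀ q) = (algebraMap (𝓞 K) K).comp (ev (s₀ + (q : ℤ) • w)) := by
  refine MvPolynomial.ringHom_ext (fun a => by simp [th, ev]) (fun i => ?_)
  simp [th, ev]

theorem th_totalDegree {K : Type} [Field K] [NumberField K] {r : ℕ} (s₀ : Fin r → ℤ) (q : ℕ)
    (U : MvPolynomial (Fin r) (𝓞 K)) : (th (K := K) s₀ q U).totalDegree ≤ U.totalDegree := by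
  refine totalDegree_subst _ (fun a => ?_) _ (fun i => ?_) U
  · rw [RingHom.comp_apply, MvPolynomial.totalDegree_C]
  · refine (MvPolynomial.totalDegree_add _ _).trans (max_le ?_ ?_)
    · rw [MvPolynomial.totalDegree_C]
      exact Nat.zero_le _
    · refine (MvPolynomial.totalDegree_mul _ _).trans ?_
      rw [MvPolynomial.totalDegree_C, MvPolynomial.totalDegree_X]

/-- `K` in `K(s)`. -/
noncomputable def kap (K : Type) [Field K] [NumberField K] (r : ℕ) : K →+* GF r K :=
  IsFractionRing.lift (A := 𝓞 K)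
    (g := (algebraMap (MvPolynomial (Fin r) (𝓞 K)) (GF r K)).comp MvPolynomial.C)
    ((IsFractionRing.injective (MvPolynomial (Fin r) (𝓞 K)) (GF r K)).comp
      (MvPolynomial.C_injective _ _))

theorem kap_algebraMap (K : Type) [Field K] [NumberField K] (r : ℕ) (a : 𝓞 K) :
    kap K r (algebraMap (𝓞 K) K a) =
      algebraMap (MvPolynomial (Fin r) (𝓞 K)) (GF r K) (MvPolynomial.C a) := by
  unfold kap
  rw [IsFractionRing.lift_algebraMap, RingHom.comp_apply]

/-- The inverse of the substitution. -/
noncomputable def be {K : Type} [Field K] [NumberField K] {r : ℕ} (s₀ : Fin r → ℤ) (q : ℕ) :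
    MvPolynomial (Fin r) K →+* GF r K :=
  MvPolynomial.eval₂Hom (kap K r) (fun i =>
    (algebraMap (MvPolynomial (Fin r) (𝓞 K)) (GF r K) (MvPolynomial.X i) -
      ((s₀ i : ℤ) : GF r K)) / ((q : ℕ) : GF r K))

theorem be_th {K : Type} [Field K] [NumberField K] {r : ℕ} (s₀ : Fin r → ℤ) (q : ℕ)
    (hq : 1 ≤ q) :
    (be (K := K) s₀ q).comp (th s₀ q) = algebraMap (MvPolynomial (Fin r) (𝓞 K)) (GF r K) := by
  have hq0 : ((q : ℕ) : GF r K) ≠ 0 := Nat.cast_ne_zero.2 (by omega)
  refine MvPolynomial.ringHom_ext (fun a => ?_) (fun i => ?_)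
  · rw [RingHom.comp_apply]
    unfold th be
    rw [MvPolynomial.coe_eval₂Hom, MvPolynomial.coe_eval₂Hom, MvPolynomial.eval₂_C,
      RingHom.comp_apply, MvPolynomial.eval₂_C, kap_algebraMap]
  · rw [RingHom.comp_apply]
    unfold th be
    rw [MvPolynomial.coe_eval₂Hom, MvPolynomial.coe_eval₂Hom, MvPolynomial.eval₂_X,
      MvPolynomial.eval₂_add, MvPolynomial.eval₂_mul, MvPolynomial.eval₂_C, MvPolynomial.eval₂_C,
      MvPolynomial.eval₂_X, map_intCast, map_natCast]
    field_simp
    ring

/-- A proper monic factor contradicts irreducibility. -/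
theorem irr_contra {L : Type} [Field L] {f g : L[X]} (hf : Irreducible f) (hg : g ∣ f)
    (h1 : 1 ≤ g.natDegree) (h2 : g.natDegree < f.natDegree) : False := by
  obtain ⟨h, rfl⟩ := hg
  have hne : g * h ≠ 0 := hf.ne_zero
  have hg0 : g ≠ 0 := left_ne_zero_of_mul hne
  have hh0 : h ≠ 0 := right_ne_zero_of_mul hne
  rw [natDegree_mul hg0 hh0] at h2
  rcases hf.isUnit_or_isUnit rfl with h | h
  · have := natDegree_eq_zero_of_isUnit h
    omega
  · have := natDegree_eq_zero_of_isUnit h
    omega

/-- The monic polynomial with given lower coefficients. -/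
noncomputable def mk {A : Type} [CommRing A] {j : ℕ} (a : Fin j → A) : A[X] :=
  X ^ j + ∑ i : Fin j, C (a i) * X ^ (i : ℕ)

theorem mk_monic {A : Type} [CommRing A] {j : ℕ} (a : Fin j → A) : (mk a).Monic :=
  monic_X_pow_add (degree_sum_fin_lt a)

theorem mk_natDegree {A : Type} [CommRing A] [Nontrivial A] {j : ℕ} (a : Fin j → A) :
    (mk a).natDegree = j := by
  have h : degree (mk a) = (j : WithBot ℕ) := by
    unfold mk
    rw [degree_add_eq_left_of_degree_lt, degree_X_pow]
    rw [degree_X_pow]
    exact degree_sum_fin_lt a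
  exact natDegree_eq_of_degree_eq_some h

theorem mk_map {A B : Type} [CommRing A] [CommRing B] (f : A →+* B) {j : ℕ} (a : Fin j → A) :
    (mk a).map f = mk fun i => f (a i) := by
  unfold mk
  rw [Polynomial.map_add, Polynomial.map_pow, Polynomial.map_X, Polynomial.map_sum]
  simp

theorem mk_coeff {A : Type} [CommRing A] {j : ℕ} (Q : A[X]) (hQ : Q.Monic)
    (hj : Q.natDegree = j) : Q = mk fun i : Fin j => Q.coeff i := by
  unfold mk
  rw [Fin.sum_univ_eq_sum_range (fun i => C (Q.coeff i) * X ^ i) j, ← hj]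
  exact hQ.as_sum

theorem mk_totalDegree {r : ℕ} {K : Type} [Field K] {j k : ℕ}
    (A : Fin j → MvPolynomial (Fin r) K) (hA : ∀ i, (A i).totalDegree ≤ k) (i : ℕ) :
    ((mk A).coeff i).totalDegree ≤ k := by
  unfold mk
  rw [coeff_add, finsetSum_coeff]
  refine (MvPolynomial.totalDegree_add _ _).trans (max_le ?_ ?_)
  · rw [coeff_X_pow]
    split_ifs
    · rw [MvPolynomial.totalDegree_one]
      exact Nat.zero_le _
    · rw [MvPolynomial.totalDegree_zero]
      exact Nat.zero_le _
  · refine MvPolynomial.totalDegree_finsetSum_le fun t _ => ?_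
    rw [coeff_C_mul, coeff_X_pow]
    split_ifs
    · rw [mul_one]
      exact hA t
    · rw [mul_zero, MvPolynomial.totalDegree_zero]
      exact Nat.zero_le _

/-- The number of zeros in the box. -/
theorem card_zeros {K : Type} [Field K] [CharZero K] {r : ℕ} (c : MvPolynomial (Fin r) K)
    (hc : c ≠ 0) (E L : ℕ) (hE : c.totalDegree ≤ E) (W : Finset (Fin r → ℤ))
    (hW : W ⊆ Box r L) (h : ∀ w ∈ W, ev w c = 0) : W.card * L ≤ E * L ^ r := by
  classical
  rcases Nat.eq_zero_or_pos L with hL | hL
  · rw [hL, mul_zero]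
    exact Nat.zero_le _
  set S : Finset K := (Finset.Ico (0 : ℤ) L).image fun n : ℤ => (n : K) with hS
  have hcard : S.card = L := by
    rw [hS, Finset.card_image_of_injective _ Int.cast_injective, Int.card_Ico]
    simp
  have h1 : W.card ≤ ((Fintype.piFinset fun _ : Fin r => S).filter
      fun f => MvPolynomial.eval f c = 0).card := by
    refine Finset.card_le_card_of_injOn (fun w i => ((w i : ℤ) : K)) (fun w hw => ?_) ?_
    · have h2 := mem_Box.1 (hW hw)
      refine Finset.mem_coe.2 (Finset.mem_filter.2 ⟨Fintype.mem_piFinset.2 fun i => ?_, ?_⟩)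
      · exact Finset.mem_image.2 ⟨w i, Finset.mem_Ico.2 (h2 i), rfl⟩
      · exact h w hw
    · intro w _ w' _ hww
      funext i
      exact Int.cast_injective (congrFun hww i)
  have h2 := MvPolynomial.schwartz_zippel_totalDegree hc S
  rw [hcard] at h2
  have hL0 : (0 : ℚ≥0) < (L : ℚ≥0) := by exact_mod_cast hL
  rw [div_le_div_iff₀ (pow_pos hL0 _) hL0] at h2
  have h3 : ((Fintype.piFinset fun _ : Fin r => S).filter
      fun f => MvPolynomial.eval f c = 0).card * L ≤ c.totalDegree * L ^ r := by
    exact_mod_cast h2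
  exact (Nat.mul_le_mul_right _ h1).trans (h3.trans (Nat.mul_le_mul_right _ hE))

end DivAux

open DivAux in
/-- If the factors of the specialisations at many points of a small box have coefficients which
are polynomials of small degree, the polynomial is reducible. -/
theorem divide {K : Type} [Field K] [NumberField K] {r : ℕ}
    (P : (MvPolynomial (Fin r) (𝓞 K))[X]) (hP : P.Monic) (hirr : Irreducible (toG P))
    (j k : ℕ) (hj : 1 ≤ j) (hjM : j < P.natDegree) :
    ∃ E : ℕ, ∀ (L q : ℕ) (s₀ : Fin r → ℤ) (A : Fin j → MvPolynomial (Fin r) K), 1 ≤ q →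
      (∀ i, (A i).totalDegree ≤ k) → ∀ W : Finset (Fin r → ℤ), W ⊆ Box r L →
      (∀ w ∈ W, ∃ Q : (𝓞 K)[X], Q.Monic ∧ Q.natDegree = j ∧ Q ∣ spec (s₀ + (q : ℤ) • w) P ∧
        ∀ i : Fin j, (Q.coeff i : K) = ev w (A i)) →
      W.card * L ≤ E * L ^ r := by
  set D : ℕ := P.support.sup fun i => (P.coeff i).totalDegree with hD
  have hDc : ∀ i, (P.coeff i).totalDegree ≤ D := by
    intro i
    by_cases hi : i ∈ P.support
    · exact Finset.le_sup (f := fun i => (P.coeff i).totalDegree) hi
    · rw [notMem_support_iff.1 hi, MvPolynomial.totalDegree_zero]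
      exact Nat.zero_le _
  refine ⟨D + (P.natDegree + 1) * k, fun L q s₀ A hq hA W hW hWQ => ?_⟩
  set f : (MvPolynomial (Fin r) K)[X] := P.map (th s₀ q) with hf
  set g : (MvPolynomial (Fin r) K)[X] := mk A with hg
  have hgm : g.Monic := mk_monic A
  have hgd : g.natDegree = j := mk_natDegree A
  have hfd : f.natDegree = P.natDegree := hP.natDegree_map _
  have hfc : ∀ i, (f.coeff i).totalDegree ≤ D := by
    intro i
    rw [hf, coeff_map]
    exact (th_totalDegree s₀ q _).trans (hDc i)
  have hR0 : f %ₘ g ≠ 0 := by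
    intro h0
    rw [modByMonic_eq_zero_iff_dvd hgm] at h0
    have h1 : g.map (be s₀ q) ∣ toG P := by
      have h2 := Polynomial.map_dvd (be s₀ q) h0
      rwa [hf, Polynomial.map_map, be_th s₀ q hq] at h2
    refine irr_contra hirr h1 ?_ ?_
    · rw [hgm.natDegree_map, hgd]
      exact hj
    · rw [hgm.natDegree_map, hgd]
      unfold toG
      rw [hP.natDegree_map]
      exact hjM
  obtain ⟨i, hi⟩ : ∃ i, (f %ₘ g).coeff i ≠ 0 := by
    by_contra hcon
    push Not at hcon
    exact hR0 (Polynomial.ext fun i => by rw [hcon i, coeff_zero])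
  refine card_zeros _ hi _ L
    (mod_totalDegree g hgm k (mk_totalDegree A hA) (P.natDegree + 1) f D (by omega) hfc i) W hW ?_
  intro w hw
  obtain ⟨Q, hQm, hQd, hQ, hQc⟩ := hWQ w hw
  have h1 : g.map (ev w) = Q.map (algebraMap (𝓞 K) K) := by
    rw [mk_coeff Q hQm hQd, hg, mk_map, mk_map]
    congr 1
    funext t
    exact (hQc t).symm
  have h2 : f.map (ev w) = (spec (s₀ + (q : ℤ) • w) P).map (algebraMap (𝓞 K) K) := by
    rw [hf, Polynomial.map_map, ev_th]
    unfold spec
    rw [Polynomial.map_map]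
  have h3 : (f %ₘ g).map (ev w) = 0 := by
    rw [map_modByMonic _ hgm, h1, h2, modByMonic_eq_zero_iff_dvd (hQm.map _)]
    exact Polynomial.map_dvd _ hQ
  rw [← coeff_map, h3, coeff_zero]

end Pool.Agent.LIM
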