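import Mathlib
import Pool.Agent.LIM.Defs

set_option autoImplicit false

/-!
# Integer relations between monomials kill polynomials modulo `q ^ k`
-/

namespace Pool.Agent.LIM

open Polynomial
open Pool.Agent.FamK (ev)

/-- An integer relation between the monomials of degree less than `k`. -/
theorem orth {r : ℕ} {O : Type} [CommRing O] (U : MvPolynomial (Fin r) O) (q k : ℕ)
    (W : Finset (Fin r → ℤ)) (lam : (Fin r → ℤ) → ℤ)
    (h : ∀ α : Fin r →₀ ℕ, α.degree < k → ∑ w ∈ W, lam w * ∏ i, w i ^ α i = 0) :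
    (q : O) ^ k ∣ ∑ w ∈ W, (lam w : O) * ev ((q : ℤ) • w) U := by
  classical
  have h1 : ∀ w : Fin r → ℤ, ev ((q : ℤ) • w) U = ∑ α ∈ U.support,
      U.coeff α * ((q : O) ^ α.degree * ((∏ i, w i ^ α i : ℤ) : O)) := by
    intro w
    unfold ev
    rw [MvPolynomial.eval_eq']
    refine Finset.sum_congr rfl fun α _ => ?_
    congr 1
    have h2 : ∀ i, (((((q : ℤ) • w) i : ℤ) : O)) ^ α i = (q : O) ^ α i * ((w i ^ α i : ℤ) : O) := by
      intro i
      simp only [Pi.smul_apply, smul_eq_mul]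
      push_cast
      rw [mul_pow]
    rw [Finset.prod_congr rfl fun i _ => h2 i, Finset.prod_mul_distrib,
      Finset.prod_pow_eq_pow_sum, Int.cast_prod, Finsupp.degree_eq_sum]
  simp only [h1, Finset.mul_sum]
  rw [Finset.sum_comm]
  refine Finset.dvd_sum fun α _ => ?_
  have h3 : ∑ w ∈ W, (lam w : O) * (U.coeff α * ((q : O) ^ α.degree *
      ((∏ i, w i ^ α i : ℤ) : O))) = U.coeff α * (q : O) ^ α.degree *
      ((∑ w ∈ W, lam w * ∏ i, w i ^ α i : ℤ) : O) := by
    rw [Int.cast_sum, Finset.mul_sum]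
    refine Finset.sum_congr rfl fun w _ => ?_
    rw [Int.cast_mul]
    ring
  rw [h3]
  by_cases hα : α.degree < k
  · rw [h α hα, Int.cast_zero, mul_zero]
    exact dvd_zero _
  · refine Dvd.dvd.mul_right (Dvd.dvd.mul_left (pow_dvd_pow _ (not_lt.1 hα)) _) _

end Pool.Agent.LIM
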