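import Mathlib
import Pool.Agent.LIM.Defs

set_option autoImplicit false

/-!
# A local domain over `𝓞 K` in which monic polynomials split and powers of `p` behave as in `ℤ`
-/

namespace Pool.Agent.LIM

open Polynomial NumberField

/-- A monic polynomial over a valuation subring of an algebraically closed field splits. -/
theorem valSub_splits {L : Type} [Field L] [IsAlgClosed L] (B : ValuationSubring L)
    (f : B[X]) (hf : f.Monic) : ∃ m : Multiset B, f = (m.map fun a => X - C a).prod := by
  have hinj : Function.Injective (algebraMap B L) := IsFractionRing.injective B L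
  have hsp : (f.map (algebraMap B L)).Splits := IsAlgClosed.splits _
  have hmon : (f.map (algebraMap B L)).Monic := hf.map _
  have hprod : f.map (algebraMap B L) =
      ((f.map (algebraMap B L)).roots.map fun a => X - C a).prod := by
    have h := hsp.eq_prod_roots
    rw [hmon.leadingCoeff, C_1, one_mul] at h
    exact h
  have hint : ∀ a ∈ (f.map (algebraMap B L)).roots, ∃ b : B, algebraMap B L b = a := by
    intro a ha
    have h0 : (f.map (algebraMap B L)).IsRoot a := (mem_roots hmon.ne_zero).mp ha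
    have h1 : IsIntegral B a := ⟨f, hf, by rwa [IsRoot, eval_map] at h0⟩
    exact IsIntegrallyClosed.isIntegral_iff.mp h1
  choose! g hg using hint
  refine ⟨(f.map (algebraMap B L)).roots.map g, ?_⟩
  apply Polynomial.map_injective (algebraMap B L) hinj
  refine hprod.trans ?_
  rw [Polynomial.map_multiset_prod, Multiset.map_map, Multiset.map_map]
  refine congrArg Multiset.prod (Multiset.map_congr rfl fun a ha => ?_)
  simp only [Function.comp_apply, Polynomial.map_sub, map_X, map_C]
  rw [hg a ha]

/-- A valuation subring in which the prime `p` is not a unit. -/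
theorem exists_valSub (L : Type) [Field L] [CharZero L] (p : ℕ) (hp : p.Prime) :
    ∃ B : ValuationSubring L, (p : B) ∈ IsLocalRing.maximalIdeal B := by
  have hI : (Ideal.span {((p : ℕ) : (⊥ : Subring L))}) ≠ ⊤ := by
    rw [Ne, Ideal.span_singleton_eq_top, isUnit_iff_exists_inv]
    rintro ⟨⟨x, hx⟩, h⟩
    obtain ⟨n, rfl⟩ := Subring.mem_bot.mp hx
    have h1 : (p : L) * (n : L) = 1 := by
      have := congrArg Subtype.val h
      simpa using this
    have h2 : (p : ℤ) * n = 1 := by exact_mod_cast h1
    have h3 : (p : ℤ) ∣ 1 := ⟨n, h2.symm⟩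
    exact hp.one_lt.ne' (by exact_mod_cast Int.eq_one_of_dvd_one (by positivity) h3)
  obtain ⟨B, -, hB⟩ := Ideal.image_subset_nonunits_valuationSubring _ hI
  have hpn : (p : L) ∈ B.nonunits :=
    hB ⟨((p : ℕ) : (⊥ : Subring L)), Ideal.subset_span rfl, by simp⟩
  refine ⟨B, ?_⟩
  rw [← ValuationSubring.coe_mem_nonunits_iff]
  simpa using hpn

/-- In a local domain of characteristic zero in which `p` is not a unit, the powers of `p` which
divide an integer divide it in `ℤ`. -/
theorem dvd_int {B : Type} [CommRing B] [IsDomain B] [IsLocalRing B] [CharZero B] (p : ℕ)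
    (hp : p.Prime) (hpm : (p : B) ∈ IsLocalRing.maximalIdeal B) (n : ℤ) (m : ℕ) :
    (p : B) ^ m ∣ (n : B) → (p : ℤ) ^ m ∣ n := by
  have hp0 : (p : B) ≠ 0 := Nat.cast_ne_zero.mpr hp.ne_zero
  induction m generalizing n with
  | zero => intro _; simp
  | succ m ih =>
    intro h
    have h1 : (n : B) ∈ IsLocalRing.maximalIdeal B := by
      obtain ⟨x, hx⟩ := h
      rw [hx, pow_succ]
      exact Ideal.mul_mem_right _ _ (Ideal.mul_mem_left _ _ hpm)
    have h2 : (p : ℤ) ∣ n := by
      by_contra hnd
      have hcop : IsCoprime (p : ℤ) n :=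
        (Nat.prime_iff_prime_int.mp hp).coprime_iff_not_dvd.mpr hnd
      obtain ⟨u, v, huv⟩ := hcop
      have h3 : (u : B) * (p : B) + (v : B) * (n : B) = 1 := by
        exact_mod_cast congrArg (Int.cast : ℤ → B) huv
      have h4 : (1 : B) ∈ IsLocalRing.maximalIdeal B := by
        rw [← h3]
        exact Ideal.add_mem _ (Ideal.mul_mem_left _ _ hpm) (Ideal.mul_mem_left _ _ h1)
      exact (IsLocalRing.maximalIdeal.isMaximal B).ne_top ((Ideal.eq_top_iff_one _).mpr h4)
    obtain ⟨n', rfl⟩ := h2
    have h3 : (p : B) ^ m ∣ (n' : B) := by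
      obtain ⟨x, hx⟩ := h
      refine ⟨x, mul_left_cancel₀ hp0 ?_⟩
      rw [← mul_assoc, ← pow_succ', ← hx]
      push_cast
      rfl
    rw [pow_succ']
    exact mul_dvd_mul_left _ (ih n' h3)

/-- In such a ring an integer prime to `p`, and every divisor of it, is a unit. -/
theorem isUnit_of_dvd_int {B : Type} [CommRing B] [IsLocalRing B] (p : ℕ)
    (hp : p.Prime) (hpm : (p : B) ∈ IsLocalRing.maximalIdeal B) (n : ℤ) (hn : ¬ (p : ℤ) ∣ n)
    (x : B) (hx : x ∣ (n : B)) : IsUnit x := by
  refine isUnit_of_dvd_unit hx ?_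
  by_contra hnu
  have h1 : (n : B) ∈ IsLocalRing.maximalIdeal B := hnu
  have hcop : IsCoprime (p : ℤ) n :=
    (Nat.prime_iff_prime_int.mp hp).coprime_iff_not_dvd.mpr hn
  obtain ⟨u, v, huv⟩ := hcop
  have h3 : (u : B) * (p : B) + (v : B) * (n : B) = 1 := by
    exact_mod_cast congrArg (Int.cast : ℤ → B) huv
  have h4 : (1 : B) ∈ IsLocalRing.maximalIdeal B := by
    rw [← h3]
    exact Ideal.add_mem _ (Ideal.mul_mem_left _ _ hpm) (Ideal.mul_mem_left _ _ h1)
  exact (IsLocalRing.maximalIdeal.isMaximal B).ne_top ((Ideal.eq_top_iff_one _).mpr h4)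

theorem exists_ring (K : Type) [Field K] [NumberField K] (p : ℕ) (hp : p.Prime) :
    ∃ (O : Type) (_ : CommRing O) (_ : IsDomain O) (_ : IsLocalRing O) (_ : 𝓞 K →+* O),
      (∀ f : O[X], f.Monic → ∃ m : Multiset O, f = (m.map fun a => X - C a).prod) ∧
      ∀ (n : ℤ) (m : ℕ), (p : O) ^ m ∣ (n : O) → (p : ℤ) ^ m ∣ n := by
  have hc : CharZero (AlgebraicClosure K) :=
    charZero_of_injective_algebraMap (algebraMap K (AlgebraicClosure K)).injective
  obtain ⟨B, hpm⟩ := exists_valSub (AlgebraicClosure K) p hp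
  have hOK : ∀ x : 𝓞 K, algebraMap K (AlgebraicClosure K) (x : K) ∈ B := by
    intro x
    obtain ⟨P, hP, hP0⟩ := x.2
    have h2 : IsIntegral B (algebraMap K (AlgebraicClosure K) (x : K)) := by
      refine ⟨P.map (Int.castRingHom B), hP.map _, ?_⟩
      rw [eval₂_map]
      have h3 : (algebraMap B (AlgebraicClosure K)).comp (Int.castRingHom B) =
          (algebraMap K (AlgebraicClosure K)).comp (algebraMap ℤ K) := RingHom.ext_int _ _
      rw [h3, ← hom_eval₂]
      exact (congrArg _ hP0).trans (map_zero _)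
    obtain ⟨b, hb⟩ := IsIntegrallyClosed.isIntegral_iff.mp h2
    rw [← hb]
    exact b.2
  have hcB : CharZero B := by
    refine ⟨fun a b hab => ?_⟩
    have h1 := congrArg (algebraMap B (AlgebraicClosure K)) hab
    simpa using h1
  exact ⟨B, inferInstance, inferInstance, inferInstance,
    ((algebraMap K (AlgebraicClosure K)).comp (algebraMap (𝓞 K) K)).codRestrict B.toSubring hOK,
    valSub_splits B, fun n m => dvd_int p hp hpm n m⟩

end Pool.Agent.LIM
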