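import Mathlib

set_option autoImplicit false

/-!
# Algebraic integers which are small at all complex places and divisible by a high power
-/

namespace Pool.Agent.LIM

open NumberField

/-- An algebraic integer with small conjugates which is divisible by `q ^ k` locally is zero. -/
theorem small_zero {K : Type} [Field K] [NumberField K] {O : Type} [CommRing O]
    (φ : 𝓞 K →+* O) (q k : ℕ) (hq : ∀ n : ℤ, (q : O) ^ k ∣ (n : O) → (q : ℤ) ^ k ∣ n)
    (x : 𝓞 K) (T : ℝ) (hT : ∀ σ : K →+* ℂ, ‖σ (x : K)‖ ≤ T)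
    (hk : T ^ (Module.finrank ℚ K) < (q : ℝ) ^ k) (hx : (q : O) ^ k ∣ φ x) : x = 0 := by
  classical
  by_contra hx0
  have hN0 : Algebra.norm ℤ x ≠ 0 := fun h => hx0 (Algebra.norm_eq_zero_iff.1 h)
  have h1 : x ∣ ((Algebra.norm ℤ x : ℤ) : 𝓞 K) := by
    have h2 := Ideal.absNorm_mem (Ideal.span {x})
    rw [Ideal.absNorm_span_singleton, Ideal.mem_span_singleton] at h2
    rcases Int.natAbs_eq (Algebra.norm ℤ x) with h3 | h3
    · rw [h3, Int.cast_natCast]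
      exact h2
    · rw [h3, Int.cast_neg, Int.cast_natCast]
      exact (dvd_neg).2 h2
  have h2 : (q : O) ^ k ∣ ((Algebra.norm ℤ x : ℤ) : O) := by
    have h3 := map_dvd φ h1
    rw [map_intCast] at h3
    exact hx.trans h3
  have h3 := Int.le_of_dvd (abs_pos.2 hN0) ((dvd_abs _ _).2 (hq _ h2))
  have h4 : (q : ℝ) ^ k ≤ |((Algebra.norm ℤ x : ℤ) : ℝ)| := by exact_mod_cast h3
  have h5 : |((Algebra.norm ℤ x : ℤ) : ℝ)| ≤ T ^ (Module.finrank ℚ K) := by
    have h6 : ((Algebra.norm ℤ x : ℤ) : ℂ) = ∏ σ : K →ₐ[ℚ] ℂ, σ (x : K) := by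
      rw [← Algebra.norm_eq_prod_embeddings ℚ ℂ (x : K), ← Algebra.coe_norm_int]
      simp
    have h7 : |((Algebra.norm ℤ x : ℤ) : ℝ)| = ∏ σ : K →ₐ[ℚ] ℂ, ‖σ (x : K)‖ := by
      rw [← norm_prod, ← h6]
      simp
    rw [h7, ← AlgHom.card ℚ K ℂ]
    have h8 : ∏ σ : K →ₐ[ℚ] ℂ, ‖σ (x : K)‖ ≤ ∏ _σ : K →ₐ[ℚ] ℂ, T :=
      Finset.prod_le_prod (fun _ _ => norm_nonneg _) fun σ _ => hT σ.toRingHom
    rw [Finset.prod_const, Finset.card_univ] at h8
    exact h8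
  linarith

end Pool.Agent.LIM
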