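import Pool.Agent.LIM.Defs

set_option autoImplicit false

/-!
# Interpolation by polynomials of small degree

A function on a set `W` of integral points which satisfies all integral linear relations with small
coefficients of the monomials of degree less than `k` is a polynomial of degree at most `k` on `W`.
-/

namespace Pool.Agent.LIM

open Pool.Agent.FamK (ev)

namespace Span

variable {r : ℕ}

/-- The rational relations between the monomials of degree less than `k` on `W`. -/
def rels (k : ℕ) (W : Finset (Fin r → ℤ)) : Submodule ℚ (W → ℚ) where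
  carrier := {μ | ∀ α : Fin r →₀ ℕ, α.degree < k → ∑ w : W, μ w * ∏ i, ((w.1 i : ℤ) : ℚ) ^ α i = 0}
  zero_mem' := fun α _ => by simp
  add_mem' := by
    intro μ ν hμ hν α hα
    simp only [Pi.add_apply, add_mul, Finset.sum_add_distrib]
    rw [hμ α hα, hν α hα, add_zero]
  smul_mem' := by
    intro c μ hμ α hα
    simp only [Pi.smul_apply, smul_eq_mul, mul_assoc]
    rw [← Finset.mul_sum, hμ α hα, mul_zero]

theorem mem_rels {k : ℕ} {W : Finset (Fin r → ℤ)} {μ : W → ℚ} : μ ∈ rels k W ↔
    ∀ α : Fin r →₀ ℕ, α.degree < k → ∑ w : W, μ w * ∏ i, ((w.1 i : ℤ) : ℚ) ^ α i = 0 := Iff.rfl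

/-- integral multiples -/
theorem exists_int {ι : Type} [Finite ι] (μ : ι → ℚ) : ∃ (n : ℤ) (v : ι → ℤ), n ≠ 0 ∧
    ∀ i, ((v i : ℤ) : ℚ) = n * μ i := by
  obtain ⟨b, hb⟩ := IsLocalization.exist_integer_multiples_of_finite (nonZeroDivisors ℤ) μ
  choose v hv using hb
  refine ⟨b, v, nonZeroDivisors.ne_zero b.2, fun i => ?_⟩
  have h := hv i
  rw [zsmul_eq_mul] at h
  exact h

/-- the relations follow from integral ones with bounded coefficients -/
theorem exists_bound (K : Type) [Field K] [CharZero K] (k : ℕ) (W : Finset (Fin r → ℤ)) :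
    ∃ C : ℕ, ∀ u : (Fin r → ℤ) → K,
    (∀ lam : (Fin r → ℤ) → ℤ, (∀ w, |lam w| ≤ C) →
      (∀ α : Fin r →₀ ℕ, α.degree < k → ∑ w ∈ W, lam w * ∏ i, w i ^ α i = 0) →
      ∑ w ∈ W, (lam w : K) * u w = 0) →
    ∀ μ ∈ rels k W, ∑ w : W, ((μ w : ℚ) : K) * u w = 0 := by
  classical
  let b := Module.finBasis ℚ (rels k W)
  have h1 := fun j => exists_int fun w : W => (b j : W → ℚ) w
  choose n v hn hv using h1
  refine ⟨∑ j, ∑ w : W, (v j w).natAbs, fun u hu => ?_⟩
  -- the basis vectors
  have hb : ∀ j, ∑ w : W, (((b j : W → ℚ) w : ℚ) : K) * u w = 0 := by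
    intro j
    have h2 := hu (fun w => if h : w ∈ W then v j ⟨w, h⟩ else 0) (fun w => ?_) (fun α hα => ?_)
    · rw [← Finset.sum_coe_sort W] at h2
      have h3 : (n j : K) * ∑ w : W, (((b j : W → ℚ) w : ℚ) : K) * u w = 0 := by
        rw [Finset.mul_sum, ← h2]
        refine Finset.sum_congr rfl fun w _ => ?_
        rw [dif_pos w.2]
        have h4 := congrArg (fun x : ℚ => (x : K)) (hv j w)
        simp only [Rat.cast_intCast, Rat.cast_mul] at h4
        rw [h4]
        ring
      exact (mul_eq_zero.1 h3).resolve_left (Int.cast_ne_zero.2 (hn j))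
    · by_cases h : w ∈ W
      · rw [dif_pos h, Int.abs_eq_natAbs]
        have h3 : (v j ⟨w, h⟩).natAbs ≤ ∑ w : W, (v j w).natAbs :=
          Finset.single_le_sum (f := fun w : W => (v j w).natAbs) (fun _ _ => Nat.zero_le _)
            (Finset.mem_univ _)
        have h4 : ∑ w : W, (v j w).natAbs ≤ ∑ j, ∑ w : W, (v j w).natAbs :=
          Finset.single_le_sum (f := fun j => ∑ w : W, (v j w).natAbs)
            (fun _ _ => Nat.zero_le _) (Finset.mem_univ _)
        exact_mod_cast h3.trans h4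
      · rw [dif_neg h, abs_zero]
        exact Int.natCast_nonneg _
    · rw [← Finset.sum_coe_sort W]
      have h3 : ((∑ w : W, (if h : w.1 ∈ W then v j ⟨w.1, h⟩ else 0) * ∏ i, w.1 i ^ α i : ℤ) : ℚ)
          = 0 := by
        push_cast
        have h4 := mem_rels.1 (b j).2 α hα
        rw [← mul_zero ((n j : ℤ) : ℚ), ← h4, Finset.mul_sum]
        refine Finset.sum_congr rfl fun w _ => ?_
        rw [dif_pos w.2]
        have h5 : (((v j ⟨w.1, w.2⟩ : ℤ)) : ℚ) = n j * (b j : W → ℚ) w := hv j w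
        rw [h5]
        ring
      exact_mod_cast h3
  intro μ hμ
  have h5 : μ = ∑ j, b.repr ⟨μ, hμ⟩ j • (b j : W → ℚ) := by
    have h6 := congrArg (fun x : rels k W => (x : W → ℚ)) (b.sum_repr ⟨μ, hμ⟩)
    simp only [AddSubmonoidClass.coe_finsetSum, SetLike.val_smul] at h6
    exact h6.symm
  rw [h5]
  have h7 : ∀ w : W, (((∑ j, b.repr ⟨μ, hμ⟩ j • (b j : W → ℚ)) w : ℚ) : K) * u w =
      ∑ j, ((b.repr ⟨μ, hμ⟩ j : ℚ) : K) * ((((b j : W → ℚ) w : ℚ) : K) * u w) := by
    intro w
    rw [Finset.sum_apply, Rat.cast_sum, Finset.sum_mul]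
    refine Finset.sum_congr rfl fun j _ => ?_
    rw [Pi.smul_apply, smul_eq_mul, Rat.cast_mul]
    ring
  rw [Finset.sum_congr rfl fun w _ => h7 w, Finset.sum_comm]
  refine Finset.sum_eq_zero fun j _ => ?_
  rw [← Finset.mul_sum, hb j, mul_zero]

/-- the evaluations -/
noncomputable def evL (K : Type) [Field K] (W : Finset (Fin r → ℤ)) :
    MvPolynomial (Fin r) K →ₗ[K] (W → K) where
  toFun A := fun w => ev w.1 A
  map_add' A B := by
    funext w
    exact map_add (ev w.1) A B
  map_smul' c A := by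
    funext w
    simp [ev, MvPolynomial.smul_eval]

/-- a function which satisfies the rational relations is a polynomial -/
theorem exists_poly (K : Type) [Field K] [CharZero K] (k : ℕ) (W : Finset (Fin r → ℤ))
    (u : (Fin r → ℤ) → K) (hu : ∀ μ ∈ rels k W, ∑ w : W, ((μ w : ℚ) : K) * u w = 0) :
    ∃ A : MvPolynomial (Fin r) K, A.totalDegree ≤ k ∧ ∀ w ∈ W, ev w A = u w := by
  classical
  let p : Submodule K (W → K) := (MvPolynomial.restrictTotalDegree (Fin r) K k).map (evL K W)
  by_cases hmem : (fun w : W => u w) ∈ p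
  · obtain ⟨A, hA, h1⟩ := Submodule.mem_map.1 hmem
    exact ⟨A, (MvPolynomial.mem_restrictTotalDegree _ _ _).1 hA, fun w hw =>
      congrFun h1 ⟨w, hw⟩⟩
  exfalso
  obtain ⟨f, hf, hp⟩ := Submodule.exists_dual_map_eq_bot_of_notMem hmem inferInstance
  apply hf
  have hf0 : ∀ x ∈ p, f x = 0 := by
    intro x hx
    have h1 : f x ∈ p.map f := Submodule.mem_map_of_mem hx
    rw [hp] at h1
    exact (Submodule.mem_bot K).1 h1
  have hsum : ∀ x : W → K, f x = ∑ w : W, f (Pi.single w 1) * x w := by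
    intro x
    conv_lhs => rw [← Finset.univ_sum_single x]
    rw [map_sum]
    refine Finset.sum_congr rfl fun w _ => ?_
    have h1 : (Pi.single w (x w) : W → K) = x w • Pi.single w 1 := by
      rw [← Pi.single_smul, smul_eq_mul, mul_one]
    rw [h1, map_smul, smul_eq_mul, mul_comm]
  -- the coordinates over `ℚ`
  let β := Module.Basis.ofVectorSpace ℚ K
  have hrel : ∀ t, (fun w : W => β.repr (f (Pi.single w 1)) t) ∈ rels k W := by
    intro t α hα
    have h1 : f (evL K W (MvPolynomial.monomial α 1)) = 0 := by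
      refine hf0 _ (Submodule.mem_map_of_mem ?_)
      rw [MvPolynomial.mem_restrictTotalDegree]
      refine (MvPolynomial.totalDegree_monomial_le α 1).trans ?_
      exact hα.le
    rw [hsum] at h1
    have h2 : ∀ w : W, (evL K W (MvPolynomial.monomial α 1)) w =
        ((∏ i, ((w.1 i : ℤ) : ℚ) ^ α i : ℚ) : K) := by
      intro w
      show ev w.1 (MvPolynomial.monomial α 1) = _
      rw [ev, MvPolynomial.eval_monomial, one_mul, Finsupp.prod_fintype _ _ (fun i => pow_zero _)]
      push_cast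
      rfl
    have h3 : β.repr (∑ w : W, f (Pi.single w 1) *
        (evL K W (MvPolynomial.monomial α 1)) w) t = 0 := by
      rw [h1, map_zero]
      rfl
    rw [map_sum, Finsupp.finsetSum_apply] at h3
    rw [← h3]
    refine Finset.sum_congr rfl fun w _ => ?_
    rw [h2 w, mul_comm (f (Pi.single w 1)), ← Rat.smul_def, map_smul, Finsupp.smul_apply,
      smul_eq_mul, mul_comm]
  rw [hsum]
  have h4 : ∀ w : W, f (Pi.single w 1) =
      ∑ t ∈ Finset.univ.biUnion fun w : W => (β.repr (f (Pi.single w 1))).support,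
        ((β.repr (f (Pi.single w 1)) t : ℚ) : K) * β t := by
    intro w
    conv_lhs => rw [← β.linearCombination_repr (f (Pi.single w 1))]
    rw [Finsupp.linearCombination_apply]
    rw [Finsupp.sum_of_support_subset (β.repr (f (Pi.single w 1))) (Finset.subset_biUnion_of_mem
        (fun w : W => (β.repr (f (Pi.single w 1))).support) (Finset.mem_univ w))
        (fun (t : Module.Basis.ofVectorSpaceIndex ℚ K) (a : ℚ) => a • β t)
        (fun _ _ => zero_smul _ _)]
    exact Finset.sum_congr rfl fun t _ => Rat.smul_def _ _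
  have h5 : ∀ w : W, f (Pi.single w 1) * u w =
      ∑ t ∈ Finset.univ.biUnion fun w : W => (β.repr (f (Pi.single w 1))).support,
        β t * (((β.repr (f (Pi.single w 1)) t : ℚ) : K) * u w) := by
    intro w
    conv_lhs => rw [h4 w]
    rw [Finset.sum_mul]
    exact Finset.sum_congr rfl fun t _ => by ring
  rw [Finset.sum_congr rfl fun w _ => h5 w, Finset.sum_comm]
  refine Finset.sum_eq_zero fun t _ => ?_
  rw [← Finset.mul_sum, hu _ (hrel t), mul_zero]

end Span

theorem span (K : Type) [Field K] [CharZero K] (r L k : ℕ) : ∃ C : ℕ,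
    ∀ W : Finset (Fin r → ℤ), W ⊆ Box r L → ∀ u : (Fin r → ℤ) → K,
    (∀ lam : (Fin r → ℤ) → ℤ, (∀ w, |lam w| ≤ C) →
      (∀ α : Fin r →₀ ℕ, α.degree < k → ∑ w ∈ W, lam w * ∏ i, w i ^ α i = 0) →
      ∑ w ∈ W, (lam w : K) * u w = 0) →
    ∃ A : MvPolynomial (Fin r) K, A.totalDegree ≤ k ∧ ∀ w ∈ W, ev w A = u w := by
  classical
  choose C hC using fun W : Finset (Fin r → ℤ) => Span.exists_bound K k W
  refine ⟨∑ W ∈ (Box r L).powerset, C W, fun W hW u hu => ?_⟩
  refine Span.exists_poly K k W u (hC W u fun lam h1 h2 => hu lam (fun w => (h1 w).trans ?_) h2)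
  exact_mod_cast Finset.single_le_sum (f := C) (fun _ _ => Nat.zero_le _)
    (Finset.mem_powerset.2 hW)

end Pool.Agent.LIM
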