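import Mathlib
import Pool.Agent.LIM.Defs
import Pool.Agent.LIM.Ring
import Pool.Agent.LIM.Bra
import Pool.Agent.LIM.Orth
import Pool.Agent.LIM.Small
import Pool.Agent.LIM.Bnd
import Pool.Agent.LIM.Span
import Pool.Agent.LIM.Div

set_option autoImplicit false

/-!
# Specialisations with a factor of given degree: few in a cluster
-/

namespace Pool.Agent.LIM

open Polynomial NumberField Filter
open Pool.Agent.FAM (Cube)
open Pool.Agent.FamK (ev spec)

namespace Clu

/-- A rational integer prime to `p` is a unit. -/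
theorem isUnit_int {O : Type} [CommRing O] [IsLocalRing O] (p : ℕ) (hp : p.Prime)
    (hpm : (p : O) ∈ IsLocalRing.maximalIdeal O) (n : ℤ) (hn : ¬ (p : ℤ) ∣ n) :
    IsUnit (n : O) := by
  by_contra h
  have h1 : (n : O) ∈ IsLocalRing.maximalIdeal O := h
  have h2 : IsCoprime n (p : ℤ) := by
    rw [isCoprime_comm]
    exact (Nat.prime_iff_prime_int.mp hp).coprime_iff_not_dvd.mpr hn
  obtain ⟨a, b, hab⟩ := h2
  have h3 : ((a * n + b * (p : ℤ) : ℤ) : O) ∈ IsLocalRing.maximalIdeal O := by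
    push_cast
    exact Ideal.add_mem _ (Ideal.mul_mem_left _ _ h1) (Ideal.mul_mem_left _ _ hpm)
  rw [hab, Int.cast_one] at h3
  exact (IsLocalRing.maximalIdeal.isMaximal O).ne_top ((Ideal.eq_top_iff_one _).mpr h3)

/-- An integer of `K` with norm prime to `p` is a unit in the local ring. -/
theorem isUnit_of_norm {K : Type} [Field K] [NumberField K] {O : Type} [CommRing O]
    [IsLocalRing O] (φ : 𝓞 K →+* O) (p : ℕ) (hp : p.Prime)
    (hpm : (p : O) ∈ IsLocalRing.maximalIdeal O) (x : 𝓞 K)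
    (hx : ¬ (p : ℤ) ∣ Algebra.norm ℤ x) : IsUnit (φ x) := by
  have h1 : x ∣ (((Algebra.norm ℤ x).natAbs : ℕ) : 𝓞 K) := by
    rw [← Ideal.absNorm_span_singleton]
    exact Ideal.mem_span_singleton.mp (Ideal.absNorm_mem _)
  have h2 : φ x ∣ ((((Algebra.norm ℤ x).natAbs : ℕ) : ℤ) : O) := by
    have h3 := map_dvd φ h1
    simpa using h3
  refine isUnit_of_dvd_unit h2 (isUnit_int p hp hpm _ fun h => hx ?_)
  exact Int.natCast_dvd.mpr (Int.natCast_dvd_natCast.mp h)

/-- The specialisation commutes with a change of the coefficient ring. -/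
theorem spec_map {r : ℕ} {A B : Type} [CommRing A] [CommRing B] (f : A →+* B) (s : Fin r → ℤ)
    (P : (MvPolynomial (Fin r) A)[X]) :
    spec s (P.map (MvPolynomial.map f)) = (spec s P).map f := by
  unfold FamK.spec
  rw [Polynomial.map_map, Polynomial.map_map]
  congr 1
  ext x
  · simp [FamK.ev]
  · simp [FamK.ev]

/-- The bound for the integer relations. -/
theorem relation_zero {K : Type} [Field K] [NumberField K] {r : ℕ} {O : Type} [CommRing O]
    (φ : 𝓞 K →+* O) (q k : ℕ) (hq : ∀ n : ℤ, (q : O) ^ k ∣ (n : O) → (q : ℤ) ^ k ∣ n)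
    (W : Finset (Fin r → ℤ)) (U : MvPolynomial (Fin r) O) (u : (Fin r → ℤ) → 𝓞 K)
    (lam : (Fin r → ℤ) → ℤ) (B N : ℕ) (T : ℝ) (hN : W.card ≤ N) (hT0 : 0 ≤ T)
    (hlam : ∀ w, |lam w| ≤ B)
    (hu : ∀ w ∈ W, (q : O) ^ k ∣ φ (u w) - ev ((q : ℤ) • w) U)
    (hT : ∀ w ∈ W, ∀ σ : K →+* ℂ, ‖σ (u w : K)‖ ≤ T)
    (hk : ((B * N : ℕ) * T) ^ (Module.finrank ℚ K) < (q : ℝ) ^ k)
    (h : ∀ α : Fin r →₀ ℕ, α.degree < k → ∑ w ∈ W, lam w * ∏ i, w i ^ α i = 0) :
    ∑ w ∈ W, (lam w : K) * (u w : K) = 0 := by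
  have h1 : (∑ w ∈ W, (lam w : 𝓞 K) * u w) = 0 := by
    refine small_zero φ q k hq _ ((B * N : ℕ) * T) (fun σ => ?_) hk ?_
    · have h2 : σ (((∑ w ∈ W, (lam w : 𝓞 K) * u w : 𝓞 K)) : K) =
          ∑ w ∈ W, (lam w : ℂ) * σ (u w : K) := by
        simp [map_sum, map_mul]
      rw [h2]
      refine (norm_sum_le _ _).trans ?_
      have h3 : ∀ w ∈ W, ‖(lam w : ℂ) * σ (u w : K)‖ ≤ B * T := by
        intro w hw
        rw [norm_mul]
        refine mul_le_mul ?_ (hT w hw σ) (norm_nonneg _) (Nat.cast_nonneg _)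
        rw [Complex.norm_intCast]
        exact_mod_cast hlam w
      refine (Finset.sum_le_card_nsmul _ _ _ h3).trans ?_
      rw [nsmul_eq_mul]
      push_cast
      have h4 : (W.card : ℝ) ≤ N := by exact_mod_cast hN
      have h5 : (0 : ℝ) ≤ B * T := mul_nonneg (Nat.cast_nonneg _) hT0
      nlinarith [mul_le_mul_of_nonneg_right h4 h5]
    · have h2 := orth U q k W lam h
      have h3 : (q : O) ^ k ∣ ∑ w ∈ W, (lam w : O) * (φ (u w) - ev ((q : ℤ) • w) U) :=
        Finset.dvd_sum fun w hw => Dvd.dvd.mul_left (hu w hw) _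
      have h4 := dvd_add h3 h2
      rw [← Finset.sum_add_distrib] at h4
      have h5 : φ (∑ w ∈ W, (lam w : 𝓞 K) * u w) =
          ∑ w ∈ W, ((lam w : O) * (φ (u w) - ev ((q : ℤ) • w) U) +
            (lam w : O) * ev ((q : ℤ) • w) U) := by
        rw [map_sum]
        refine Finset.sum_congr rfl fun w _ => ?_
        rw [map_mul, map_intCast]
        ring
      rw [h5]
      exact h4
  have h2 := congrArg (fun x : 𝓞 K => (x : K)) h1
  simpa [map_sum, map_mul] using h2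

/-- The derivative at a root modulo the maximal ideal is a unit. -/
theorem deriv_unit {r : ℕ} {K : Type} [Field K] [NumberField K] {O : Type} [CommRing O]
    [IsLocalRing O] (φ : 𝓞 K →+* O) (P U V : (MvPolynomial (Fin r) (𝓞 K))[X])
    (D : MvPolynomial (Fin r) (𝓞 K)) (h : U * P + V * derivative P = C D) (s : Fin r → ℤ)
    (hD : IsUnit (φ (ev s D))) (x : O)
    (hx : (spec s (P.map (MvPolynomial.map φ))).eval x ∈ IsLocalRing.maximalIdeal O) :
    IsUnit ((derivative (spec s (P.map (MvPolynomial.map φ)))).eval x) := by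
  rw [spec_map] at hx ⊢
  have h1 : (spec s U).map φ * (spec s P).map φ +
      (spec s V).map φ * derivative ((spec s P).map φ) = C (φ (ev s D)) := by
    have h2 := congrArg (fun f : (MvPolynomial (Fin r) (𝓞 K))[X] => (f.map (ev s)).map φ) h
    unfold FamK.spec
    simp only [Polynomial.map_add, Polynomial.map_mul, map_C, derivative_map] at h2 ⊢
    exact h2
  have h3 := congrArg (fun f => f.eval x) h1
  simp only [eval_add, eval_mul, eval_C] at h3
  by_contra hc
  have h4 : (derivative ((spec s P).map φ)).eval x ∈ IsLocalRing.maximalIdeal O := hc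
  have h5 : φ (ev s D) ∈ IsLocalRing.maximalIdeal O := by
    rw [← h3]
    exact Ideal.add_mem _ (Ideal.mul_mem_left _ _ hx) (Ideal.mul_mem_left _ _ h4)
  exact h5 hD

end Clu

theorem cluster {K : Type} [Field K] [NumberField K] {r : ℕ}
    (P : (MvPolynomial (Fin r) (𝓞 K))[X]) (hP : P.Monic) (hirr : Irreducible (toG P))
    (j : ℕ) (hj : 1 ≤ j) (hjM : j < P.natDegree) :
    ∃ e : ℕ, ∀ k : ℕ, ∃ E : ℕ, ∀ L : ℕ, ∃ C : ℕ,
    ∀ (D : MvPolynomial (Fin r) (𝓞 K)) (U V : (MvPolynomial (Fin r) (𝓞 K))[X]),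
      U * P + V * derivative P = Polynomial.C D →
    ∀ (p a H : ℕ) (s₀ : Fin r → ℤ), p.Prime → 1 ≤ a → 1 ≤ H →
      ¬ (p : ℤ) ∣ Algebra.norm ℤ (ev s₀ D) →
      ((C : ℝ) * (H : ℝ) ^ e) ^ (Module.finrank ℚ K) < ((p : ℝ) ^ a) ^ k →
    ∀ W : Finset (Fin r → ℤ), W ⊆ Box r L →
      (∀ w ∈ W, s₀ + ((p ^ a : ℕ) : ℤ) • w ∈ Cube r H ∧
        ∃ Q : (𝓞 K)[X], Q.Monic ∧ Q.natDegree = j ∧ Q ∣ spec (s₀ + ((p ^ a : ℕ) : ℤ) • w) P) →
      W.card * L ≤ E * L ^ r := by
  classical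
  obtain ⟨Cb, e, hb⟩ := coeff_bound P hP
  refine ⟨e, fun k => ?_⟩
  obtain ⟨E, hE⟩ := divide P hP hirr j k hj hjM
  refine ⟨Fintype.card (Fin j → Fin P.natDegree) * E, fun L => ?_⟩
  obtain ⟨Cs, hs⟩ := span K r L k
  refine ⟨Cs * L ^ r * Cb, ?_⟩
  intro D U V hUV p a H s₀ hp ha hH hnd hk W hW hWQ
  obtain ⟨O, _, _, _, φ, hsplit, hdiv⟩ := exists_ring K p hp
  have hpm : (p : O) ∈ IsLocalRing.maximalIdeal O := by
    intro hu
    have h1 : (p : O) ^ 1 ∣ ((1 : ℤ) : O) := by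
      rw [pow_one]
      exact hu.dvd
    have h2 := hdiv 1 1 h1
    rw [pow_one] at h2
    exact (Nat.prime_iff_prime_int.mp hp).not_isUnit (isUnit_of_dvd_one h2)
  obtain ⟨q, hq⟩ : ∃ q, p ^ a = q := ⟨_, rfl⟩
  rw [hq] at hWQ
  have hqm : (q : O) ∈ IsLocalRing.maximalIdeal O := by
    rw [← hq, Nat.cast_pow]
    exact Ideal.pow_mem_of_mem _ hpm _ ha
  have hq1 : 1 ≤ q := by
    rw [← hq]
    exact Nat.one_le_pow _ _ hp.pos
  have hqd : ∀ n : ℤ, (q : O) ^ k ∣ (n : O) → (q : ℤ) ^ k ∣ n := by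
    intro n hn
    rw [← hq, Nat.cast_pow, ← pow_mul] at hn ⊢
    exact hdiv n _ hn
  have hDu : IsUnit (φ (ev s₀ D)) := Clu.isUnit_of_norm φ p hp hpm _ hnd
  have hPO : (P.map (MvPolynomial.map φ)).Monic := hP.map _
  have hdeg : (P.map (MvPolynomial.map φ)).natDegree = P.natDegree := hP.natDegree_map _
  obtain ⟨A, hA⟩ := branch hsplit (P.map (MvPolynomial.map φ)) hPO s₀
    (fun x hx => Clu.deriv_unit φ P U V D hUV s₀ hDu x hx) k
  have hcardM : Fintype.card (Fin j → Fin (P.map (MvPolynomial.map φ)).natDegree) =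
      Fintype.card (Fin j → Fin P.natDegree) := by
    rw [hdeg]
  rw [← hcardM]
  have hM0 : 0 < (P.map (MvPolynomial.map φ)).natDegree := by
    rw [hdeg]
    omega
  generalize (P.map (MvPolynomial.map φ)).natDegree = M' at A hA hM0
  have hch : ∀ w : Fin r → ℤ, ∃ (Q : (𝓞 K)[X]) (l : Fin j → Fin M'), w ∈ W →
      Q.Monic ∧ Q.natDegree = j ∧ Q ∣ spec (s₀ + (q : ℤ) • w) P ∧
      ∀ i : ℕ, (q : O) ^ k ∣ φ (Q.coeff i) -
        ev ((q : ℤ) • w) ((∏ t : Fin j, (X - C (A (l t)))).coeff i) := by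
    intro w
    by_cases hw : w ∈ W
    · obtain ⟨_, Q, hQ1, hQ2, hQ3⟩ := hWQ w hw
      have h1 : Q.map φ ∣ spec (s₀ + (q : ℤ) • w) (P.map (MvPolynomial.map φ)) := by
        rw [Clu.spec_map]
        exact Polynomial.map_dvd φ hQ3
      obtain ⟨l, hl⟩ := hA q w hqm j (Q.map φ) (hQ1.map φ)
        ((hQ1.natDegree_map φ).trans hQ2) h1
      refine ⟨Q, l, fun _ => ⟨hQ1, hQ2, hQ3, fun i => ?_⟩⟩
      have h2 := hl i
      rw [coeff_map] at h2
      exact h2
    · exact ⟨0, fun _ => ⟨0, hM0⟩, fun h => absurd h hw⟩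
  choose Q l hQl using hch
  have key : ∀ c : Fin j → Fin M', (W.filter fun w => l w = c).card * L ≤ E * L ^ r := by
    intro c
    have hsub : (W.filter fun w => l w = c) ⊆ Box r L := (Finset.filter_subset _ _).trans hW
    have hcard : (W.filter fun w => l w = c).card ≤ L ^ r := by
      rw [← card_Box r L]
      exact Finset.card_le_card hsub
    have hu : ∀ i : Fin j, ∃ Ai : MvPolynomial (Fin r) K, Ai.totalDegree ≤ k ∧
        ∀ w ∈ W.filter (fun w => l w = c), ev w Ai = ((Q w).coeff i : K) := by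
      intro i
      refine hs (W.filter fun w => l w = c) hsub (fun w => ((Q w).coeff i : K)) ?_
      intro lam hlam horth
      refine Clu.relation_zero φ q k hqd (W.filter fun w => l w = c)
        ((∏ t : Fin j, (X - C (A (c t)))).coeff i) (fun w => (Q w).coeff i) lam Cs (L ^ r)
        (Cb * (H : ℝ) ^ e) hcard (by positivity) hlam ?_ ?_ ?_ horth
      · intro w hw
        obtain ⟨hw1, hw2⟩ := Finset.mem_filter.mp hw
        have h1 := (hQl w hw1).2.2.2 i
        rw [hw2] at h1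
        exact h1
      · intro w hw σ
        obtain ⟨hw1, _⟩ := Finset.mem_filter.mp hw
        exact hb H hH _ (hWQ w hw1).1 (Q w) (hQl w hw1).1 (hQl w hw1).2.2.1 i σ
      · refine lt_of_eq_of_lt ?_ (hk.trans_eq ?_)
        · push_cast
          ring
        · rw [← hq]
          push_cast
          rfl
    choose Ai hdegA hevA using hu
    exact hE L q s₀ Ai hq1 hdegA _ hsub fun w hw =>
      ⟨Q w, (hQl w (Finset.mem_filter.mp hw).1).1, (hQl w (Finset.mem_filter.mp hw).1).2.1,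
        (hQl w (Finset.mem_filter.mp hw).1).2.2.1, fun i => (hevA i w hw).symm⟩
  have hsum : W.card = ∑ c : Fin j → Fin M', (W.filter fun w => l w = c).card :=
    Finset.card_eq_sum_card_fiberwise fun w _ => Finset.mem_coe.mpr (Finset.mem_univ _)
  rw [hsum, Finset.sum_mul]
  refine (Finset.sum_le_sum fun c _ => key c).trans ?_
  rw [Finset.sum_const, Finset.card_univ, smul_eq_mul, mul_assoc]

end Pool.Agent.LIM
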