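import Mathlib
import Pool.Agent.LIM.Defs

set_option autoImplicit false

/-!
# The zeros of a polynomial modulo a large prime
-/

namespace Pool.Agent.LIM

open Pool.Agent.FAM (Cube mem_Cube)

/-- the number of integers of a residue class in an interval -/
theorem card_class (p H : ℕ) (hp : 0 < p) (hpH : p ≤ H) (a : ZMod p) :
    (((Finset.Icc (-(H : ℤ)) H).filter (fun x : ℤ => (x : ZMod p) = a)).card : ℝ) ≤
      2 * (2 * (H : ℝ) + 1) / p := by
  have : NeZero p := ⟨hp.ne'⟩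
  obtain ⟨v, rfl⟩ : ∃ v : ℤ, (v : ZMod p) = a := ZMod.intCast_surjective a
  have h1 : ((Finset.Icc (-(H : ℤ)) H).filter (fun x : ℤ => (x : ZMod p) = (v : ZMod p))) =
      ((Finset.Ico (-(H : ℤ)) (H + 1)).filter (fun x : ℤ => x ≡ v [ZMOD p])) := by
    ext x
    rw [Finset.mem_filter, Finset.mem_filter, Finset.mem_Icc, Finset.mem_Ico,
      ZMod.intCast_eq_intCast_iff, Int.lt_add_one_iff]
  rw [h1]
  have hp0 : (0 : ℝ) < p := by exact_mod_cast hp
  have hpH' : (p : ℝ) ≤ H := by exact_mod_cast hpH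
  have h2 := Int.Ico_filter_modEq_card (-(H : ℤ)) (H + 1) (r := (p : ℤ)) (by exact_mod_cast hp) v
  set N := (((Finset.Ico (-(H : ℤ)) (H + 1)).filter (fun x : ℤ => x ≡ v [ZMOD p])).card : ℤ) with hN
  have h3 : ((N : ℤ) : ℝ) ≤ 2 * (2 * (H : ℝ) + 1) / p := by
    rw [h2, Int.cast_max]
    apply max_le
    · have h4 := Int.ceil_lt_add_one ((((H + 1 : ℤ) : ℚ) - v) / ((p : ℤ) : ℚ))
      have h5 := Int.le_ceil ((((-(H : ℤ) : ℤ) : ℚ) - v) / ((p : ℤ) : ℚ))
      have h6 : ((⌈(((H + 1 : ℤ) : ℚ) - v) / ((p : ℤ) : ℚ)⌉ -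
          ⌈(((-(H : ℤ) : ℤ) : ℚ) - v) / ((p : ℤ) : ℚ)⌉ : ℤ) : ℚ) ≤
          2 * (2 * (H : ℚ) + 1) / p := by
        have hpq : (0 : ℚ) < p := by exact_mod_cast hp
        have hpHq : (p : ℚ) ≤ H := by exact_mod_cast hpH
        have h7 : 2 * (2 * (H : ℚ) + 1) / p = (((H + 1 : ℤ) : ℚ) - v) / ((p : ℤ) : ℚ) -
            (((-(H : ℤ) : ℤ) : ℚ) - v) / ((p : ℤ) : ℚ) + (2 * (H : ℚ) + 1) / p := by
          push_cast
          field_simp
          ring
        have h8 : 1 ≤ (2 * (H : ℚ) + 1) / p := by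
          rw [le_div_iff₀ hpq]
          linarith
        push_cast at h4 h5 h7 ⊢
        linarith
      generalize (⌈(((H + 1 : ℤ) : ℚ) - v) / ((p : ℤ) : ℚ)⌉ -
          ⌈(((-(H : ℤ) : ℤ) : ℚ) - v) / ((p : ℤ) : ℚ)⌉ : ℤ) = A at h6 ⊢
      have h8 := (Rat.cast_le (K := ℝ)).mpr h6
      push_cast at h8
      exact h8
    · rw [Int.cast_zero]
      positivity
  exact_mod_cast h3

theorem modp {r : ℕ} (W : MvPolynomial (Fin r) ℤ) (hW : W ≠ 0) (ε : ℝ) (hε : 0 < ε) :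
    ∃ p : ℕ, p.Prime ∧ ∃ H₀ : ℕ, ∀ H : ℕ, H₀ ≤ H →
      (((Cube r H : Set (Fin r → ℤ)) ∩ {s | (p : ℤ) ∣ MvPolynomial.eval s W}).ncard : ℝ) ≤
        ε * (2 * (H : ℝ) + 1) ^ r := by
  classical
  obtain ⟨m, hm⟩ := MvPolynomial.ne_zero_iff.mp hW
  obtain ⟨p, hpge, hp⟩ := Nat.exists_infinite_primes
    ((W.coeff m).natAbs + 1 + ⌈(W.totalDegree : ℝ) * 2 ^ r / ε⌉₊)
  have : Fact p.Prime := ⟨hp⟩
  refine ⟨p, hp, p, fun H hH => ?_⟩
  set W' : MvPolynomial (Fin r) (ZMod p) := MvPolynomial.map (Int.castRingHom (ZMod p)) W with hW'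
  have hW0 : W' ≠ 0 := by
    intro h0
    have h1 : W'.coeff m = 0 := by rw [h0, MvPolynomial.coeff_zero]
    rw [hW', MvPolynomial.coeff_map, eq_intCast, ZMod.intCast_zmod_eq_zero_iff_dvd] at h1
    have h2 := Int.natAbs_dvd_natAbs.mpr h1
    rw [Int.natAbs_natCast] at h2
    have h3 := Nat.le_of_dvd (Int.natAbs_pos.mpr hm) h2
    omega
  have hdeg : W'.totalDegree ≤ W.totalDegree := 
    Finset.sup_mono (MvPolynomial.support_map_subset _ _)
  set Z : Finset (Fin r → ZMod p) :=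
    (Fintype.piFinset fun _ => (Finset.univ : Finset (ZMod p))).filter
      (fun x => MvPolynomial.eval x W' = 0) with hZ
  have hp0 : (0 : ℝ) < p := by exact_mod_cast hp.pos
  have hZc : (Z.card : ℝ) * p ≤ W.totalDegree * (p : ℝ) ^ r := by
    have h := MvPolynomial.schwartz_zippel_totalDegree hW0 (Finset.univ : Finset (ZMod p))
    rw [Finset.card_univ, ZMod.card] at h
    have h' : ((Z.card : ℚ≥0) : ℝ) / ((p : ℚ≥0) : ℝ) ^ r ≤ ((W'.totalDegree : ℚ≥0) : ℝ) / ((p : ℚ≥0) : ℝ) := by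
      have h1 : ((Z.card / (p : ℚ≥0) ^ r : ℚ≥0) : ℝ) ≤ ((W'.totalDegree / (p : ℚ≥0) : ℚ≥0) : ℝ) := by
        exact_mod_cast h
      push_cast at h1 ⊢
      exact h1
    push_cast at h'
    rw [div_le_div_iff₀ (by positivity) hp0] at h'
    refine h'.trans ?_
    gcongr
  set T : Finset (Fin r → ℤ) := (Cube r H).filter (fun s => (p : ℤ) ∣ MvPolynomial.eval s W)
    with hT
  have hTc : ((Cube r H : Set (Fin r → ℤ)) ∩ {s | (p : ℤ) ∣ MvPolynomial.eval s W}).ncard =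
      T.card := by
    rw [← Set.ncard_coe_finset]
    congr 1
    ext s
    simp [hT]
  rw [hTc]
  have hmaps : ∀ s ∈ T, (fun i => ((s i : ℤ) : ZMod p)) ∈ Z := by
    intro s hs
    rw [hT, Finset.mem_filter] at hs
    rw [hZ, Finset.mem_filter]
    refine ⟨by simp, ?_⟩
    rw [hW', MvPolynomial.eval_map, ← MvPolynomial.coe_eval₂Hom]
    have h1 : (MvPolynomial.eval₂Hom (Int.castRingHom (ZMod p)) fun i => ((s i : ℤ) : ZMod p)) =
        (Int.castRingHom (ZMod p)).comp (MvPolynomial.eval s) := by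
      refine MvPolynomial.ringHom_ext (fun a => by simp) (fun i => by simp)
    rw [h1, RingHom.comp_apply, eq_intCast, ZMod.intCast_zmod_eq_zero_iff_dvd]
    exact hs.2
  rw [Finset.card_eq_sum_card_fiberwise hmaps]
  push_cast
  have hfib : ∀ z ∈ Z, ((T.filter (fun s => (fun i => ((s i : ℤ) : ZMod p)) = z)).card : ℝ) ≤
      (2 * (2 * (H : ℝ) + 1) / p) ^ r := by
    intro z _
    have h1 : (T.filter (fun s => (fun i => ((s i : ℤ) : ZMod p)) = z)) ⊆
        Fintype.piFinset (fun i => (Finset.Icc (-(H : ℤ)) H).filter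
          (fun x : ℤ => (x : ZMod p) = z i)) := by
      intro s hs
      rw [Finset.mem_filter, hT, Finset.mem_filter] at hs
      rw [Fintype.mem_piFinset]
      intro i
      rw [Finset.mem_filter, Finset.mem_Icc, ← abs_le]
      exact ⟨mem_Cube.mp hs.1.1 i, congrFun hs.2 i⟩
    have h2 := Finset.card_le_card h1
    rw [Fintype.card_piFinset] at h2
    have h3 : ((∏ i, ((Finset.Icc (-(H : ℤ)) H).filter
        (fun x : ℤ => (x : ZMod p) = z i)).card : ℕ) : ℝ) ≤ (2 * (2 * (H : ℝ) + 1) / p) ^ r := by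
      push_cast
      calc _ ≤ ∏ i : Fin r, (2 * (2 * (H : ℝ) + 1) / p) :=
            Finset.prod_le_prod (fun i _ => by positivity)
              (fun i _ => card_class p H hp.pos hH (z i))
        _ = _ := by rw [Finset.prod_const, Finset.card_univ, Fintype.card_fin]
    exact le_trans (by exact_mod_cast h2) h3
  refine (Finset.sum_le_sum hfib).trans ?_
  rw [Finset.sum_const, nsmul_eq_mul, div_pow, mul_pow]
  have h9 : (W.totalDegree : ℝ) * 2 ^ r ≤ ε * p := by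
    have h10 : (W.totalDegree : ℝ) * 2 ^ r / ε ≤ p := by
      refine (Nat.le_ceil _).trans ?_
      exact Nat.cast_le.mpr (by omega)
    rw [div_le_iff₀ hε] at h10
    linarith
  have hH1 : (0 : ℝ) < (2 * (H : ℝ) + 1) ^ r := by positivity
  have hpr : (0 : ℝ) < (p : ℝ) ^ r := by positivity
  rw [← mul_div_assoc, div_le_iff₀ hpr]
  have h11 : (Z.card : ℝ) * p * (2 ^ r * (2 * (H : ℝ) + 1) ^ r) ≤
      (W.totalDegree * (p : ℝ) ^ r) * (2 ^ r * (2 * (H : ℝ) + 1) ^ r) := by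
    gcongr
  have h12 : (W.totalDegree * (p : ℝ) ^ r) * (2 ^ r * (2 * (H : ℝ) + 1) ^ r) ≤
      (ε * p) * ((p : ℝ) ^ r * (2 * (H : ℝ) + 1) ^ r) := by
    calc _ = ((W.totalDegree : ℝ) * 2 ^ r) * ((p : ℝ) ^ r * (2 * (H : ℝ) + 1) ^ r) := by ring
      _ ≤ _ := by gcongr
  have h13 : ((Z.card : ℝ) * (2 ^ r * (2 * (H : ℝ) + 1) ^ r)) * p ≤
      (ε * (2 * (H : ℝ) + 1) ^ r * (p : ℝ) ^ r) * p := by
    linarith [h11, h12]
  exact le_of_mul_le_mul_right h13 hp0

end Pool.Agent.LIM
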