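import Mathlib
import Pool.Agent.LIM.Defs
import Pool.Agent.LIM.Bez
import Pool.Agent.LIM.Avg
import Pool.Agent.LIM.Mod
import Pool.Agent.LIM.Clu
import Pool.Agent.FAM.KNorm

set_option autoImplicit false

/-!
# Hilbert irreducibility in density form: monic factors of degree `j`
-/

namespace Pool.Agent.LIM

open Polynomial NumberField Filter
open Pool.Agent.FAM (Cube itP)
open Pool.Agent.FamK (ev spec Varies norm_poly)

namespace HitM

theorem eval_congr {r : ℕ} (m : ℤ) (x y : Fin r → ℤ) (h : ∀ i, m ∣ x i - y i)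
    (W : MvPolynomial (Fin r) ℤ) : m ∣ MvPolynomial.eval x W - MvPolynomial.eval y W := by
  induction W using MvPolynomial.induction_on with
  | C a => simp
  | add f g hf hg =>
    rw [map_add, map_add, add_sub_add_comm]
    exact dvd_add hf hg
  | mul_X f i hf =>
    rw [map_mul, map_mul, MvPolynomial.eval_X, MvPolynomial.eval_X]
    have h1 : MvPolynomial.eval x f * x i - MvPolynomial.eval y f * y i =
        (MvPolynomial.eval x f - MvPolynomial.eval y f) * x i +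
          MvPolynomial.eval y f * (x i - y i) := by ring
    rw [h1]
    exact dvd_add (Dvd.dvd.mul_right hf _) (Dvd.dvd.mul_left (h i) _)

/-- The choice of the power of `p`. -/
theorem exists_pow (p : ℕ) (hp : 2 ≤ p) (L C e n : ℕ) : ∃ H₀ : ℕ, ∀ H : ℕ, H₀ ≤ H →
    ∃ a : ℕ, 1 ≤ a ∧ p ^ a * L ≤ H ∧
      ((C : ℝ) * (H : ℝ) ^ e) ^ n < ((p : ℝ) ^ a) ^ (2 * (e * n) + 2) := by
  refine ⟨p ^ 2 + L ^ 2 + C ^ n * p ^ (2 * (e * n) + 2) + 1, fun H hH => ?_⟩
  have hp2 : p ^ 2 ≤ H := by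
    have : 0 ≤ L ^ 2 := Nat.zero_le _
    have : 0 ≤ C ^ n * p ^ (2 * (e * n) + 2) := Nat.zero_le _
    omega
  have hL2 : L ^ 2 ≤ H := by
    have : 0 ≤ p ^ 2 := Nat.zero_le _
    have : 0 ≤ C ^ n * p ^ (2 * (e * n) + 2) := Nat.zero_le _
    omega
  have hC2 : C ^ n * p ^ (2 * (e * n) + 2) < H := by
    have : 0 ≤ p ^ 2 := Nat.zero_le _
    have : 0 ≤ L ^ 2 := Nat.zero_le _
    omega
  have hsp : p ≤ Nat.sqrt H := Nat.le_sqrt'.2 hp2
  have hsL : L ≤ Nat.sqrt H := Nat.le_sqrt'.2 hL2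
  have hs0 : Nat.sqrt H ≠ 0 := by omega
  set a := Nat.log p (Nat.sqrt H) with ha
  have h1 : p ^ a ≤ Nat.sqrt H := Nat.pow_log_le_self p hs0
  have h2 : Nat.sqrt H < p ^ (a + 1) := Nat.lt_pow_succ_log_self (by omega) _
  have h3 : H < (p ^ (a + 1)) ^ 2 := Nat.sqrt_lt'.1 h2
  refine ⟨a, ?_, ?_, ?_⟩
  · exact Nat.log_pos (by omega) hsp
  · calc p ^ a * L ≤ Nat.sqrt H * Nat.sqrt H := Nat.mul_le_mul h1 hsL
      _ ≤ H := Nat.sqrt_le H
  · have h4 : H ^ (e * n + 1) < (p ^ a) ^ (2 * (e * n) + 2) * p ^ (2 * (e * n) + 2) := by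
      calc H ^ (e * n + 1) < ((p ^ (a + 1)) ^ 2) ^ (e * n + 1) :=
            Nat.pow_lt_pow_left h3 (by omega)
        _ = (p ^ a) ^ (2 * (e * n) + 2) * p ^ (2 * (e * n) + 2) := by
            rw [pow_succ p a]
            ring
    have hH0 : 0 < H := by omega
    have hpp : 0 < p ^ (2 * (e * n) + 2) := by positivity
    have h5 : (C * H ^ e) ^ n < (p ^ a) ^ (2 * (e * n) + 2) := by
      refine lt_of_mul_lt_mul_right ?_ (Nat.zero_le (p ^ (2 * (e * n) + 2)))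
      refine lt_of_le_of_lt ?_ h4
      calc (C * H ^ e) ^ n * p ^ (2 * (e * n) + 2)
          = C ^ n * p ^ (2 * (e * n) + 2) * H ^ (e * n) := by
            rw [mul_pow, ← pow_mul]
            ring
        _ ≤ H * H ^ (e * n) := Nat.mul_le_mul_right _ hC2.le
        _ = H ^ (e * n + 1) := by ring
    exact_mod_cast h5

end HitM

open HitM

/-- Hilbert irreducibility in density form: monic factors of degree `j`. -/
theorem hit_monic {K : Type} [Field K] [NumberField K] {r : ℕ}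
    (P : (MvPolynomial (Fin r) (𝓞 K))[X]) (hP : P.Monic) (hirr : Irreducible (toG P))
    (j : ℕ) (hj : 1 ≤ j) (hjM : j < P.natDegree) :
    Null {s : Fin r → ℤ | ∃ Q : (𝓞 K)[X], Q.Monic ∧ Q.natDegree = j ∧ Q ∣ spec s P} := by
  classical
  set S : Set (Fin r → ℤ) := {s : Fin r → ℤ | ∃ Q : (𝓞 K)[X], Q.Monic ∧ Q.natDegree = j ∧
    Q ∣ spec s P} with hS
  intro ε hε
  by_contra hcon
  -- the discriminant
  have hcop : IsCoprime (P.map (algebraMap (MvPolynomial (Fin r) (𝓞 K))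
      (FractionRing (MvPolynomial (Fin r) (𝓞 K))))) ((derivative P).map
      (algebraMap (MvPolynomial (Fin r) (𝓞 K)) (FractionRing (MvPolynomial (Fin r) (𝓞 K))))) := by
    rw [← derivative_map]
    exact hirr.separable
  obtain ⟨D, U, V, hD, hUV⟩ := bezout P (derivative P) hcop
  obtain ⟨WD, hWD, hWD0, -⟩ := norm_poly D
  obtain ⟨e, hclu⟩ := cluster P hP hirr j hj hjM
  obtain ⟨E, hclu⟩ := hclu (2 * (e * Module.finrank ℚ K) + 2)
  obtain ⟨L, hL⟩ := exists_nat_gt (E / (ε / 2 / 2 ^ r))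
  obtain ⟨C, hclu⟩ := hclu L
  obtain ⟨p, hp, H₁, hmod⟩ := modp WD (hWD0 hD) (ε / 2) (by positivity)
  obtain ⟨H₂, hH₂⟩ := exists_pow p hp.two_le L C e (Module.finrank ℚ K)
  have hL0 : (0 : ℝ) < L := lt_of_le_of_lt (by positivity) hL
  have hnot : ∃ H : ℕ, H₁ + H₂ + 1 ≤ H ∧ ε * (2 * (H : ℝ) + 1) ^ r <
      (((Cube r H : Set (Fin r → ℤ)) ∩ S).ncard : ℝ) := by
    by_contra h0
    refine hcon ⟨H₁ + H₂ + 1, fun H hH => ?_⟩
    by_contra h1
    exact h0 ⟨H, hH, not_le.1 h1⟩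
  obtain ⟨H, hH, hbig⟩ := hnot
  obtain ⟨a, ha, hpaL, hsize⟩ := hH₂ H (by omega)
  set S' : Set (Fin r → ℤ) := S ∩ {s | ¬ (p : ℤ) ∣ MvPolynomial.eval s WD} with hS'
  have hS'card : ε / 2 * (2 * (H : ℝ) + 1) ^ r ≤
      (((Cube r H : Set (Fin r → ℤ)) ∩ S').ncard : ℝ) := by
    have h1 := hmod H (by omega)
    have h2 : (Cube r H : Set (Fin r → ℤ)) ∩ S ⊆ ((Cube r H : Set (Fin r → ℤ)) ∩ S') ∪
        ((Cube r H : Set (Fin r → ℤ)) ∩ {s | (p : ℤ) ∣ MvPolynomial.eval s WD}) := by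
      rintro s ⟨hs1, hs2⟩
      by_cases h3 : (p : ℤ) ∣ MvPolynomial.eval s WD
      · exact Or.inr ⟨hs1, h3⟩
      · exact Or.inl ⟨hs1, hs2, h3⟩
    have hfin : ∀ T : Set (Fin r → ℤ), ((Cube r H : Set (Fin r → ℤ)) ∩ T).Finite := fun T =>
      (Finset.finite_toSet _).inter_of_left T
    have h3 := (Set.ncard_le_ncard h2 ((hfin _).union (hfin _))).trans (Set.ncard_union_le _ _)
    have h4 : (((Cube r H : Set (Fin r → ℤ)) ∩ S).ncard : ℝ) ≤
        (((Cube r H : Set (Fin r → ℤ)) ∩ S').ncard : ℝ) +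
        (((Cube r H : Set (Fin r → ℤ)) ∩ {s | (p : ℤ) ∣ MvPolynomial.eval s WD}).ncard : ℝ) := by
      exact_mod_cast h3
    linarith
  obtain ⟨s₀, W, hWL, hW, hWcard⟩ := avg S' H (p ^ a) L hpaL (ε / 2) hS'card
  have hδ : 0 < ε / 2 / 2 ^ r := by positivity
  have hWpos : (0 : ℝ) < W.card := lt_of_lt_of_le (by positivity) hWcard
  have hWne : W.Nonempty := Finset.card_pos.1 (by exact_mod_cast hWpos)
  obtain ⟨w₀, hw₀⟩ := hWne
  have hnorm : ¬ (p : ℤ) ∣ Algebra.norm ℤ (ev s₀ D) := by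
    rw [← hWD]
    intro h1
    have h2 := (hW w₀ hw₀).1.2
    refine h2 ?_
    have h3 := eval_congr (p : ℤ) (s₀ + ((p ^ a : ℕ) : ℤ) • w₀) s₀ (fun i => by
      simp only [Pi.add_apply, Pi.smul_apply, smul_eq_mul, add_sub_cancel_left]
      refine Dvd.dvd.mul_right ?_ _
      push_cast
      exact dvd_pow_self _ (by omega)) WD
    have h4 := dvd_add h3 h1
    rwa [sub_add_cancel] at h4
  have hfinal := hclu D U V hUV p a H s₀ hp ha (by omega) hnorm hsize W hWL fun w hw =>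
    ⟨(hW w hw).2, (hW w hw).1.1⟩
  have h1 : (W.card : ℝ) * L ≤ E * (L : ℝ) ^ r := by exact_mod_cast hfinal
  have h2 : ε / 2 / 2 ^ r * (L : ℝ) ^ r * L ≤ E * (L : ℝ) ^ r :=
    (mul_le_mul_of_nonneg_right hWcard hL0.le).trans h1
  have h3 : (E : ℝ) < ε / 2 / 2 ^ r * L := by
    rw [div_lt_iff₀ hδ] at hL
    linarith
  have h4 : (E : ℝ) * (L : ℝ) ^ r < ε / 2 / 2 ^ r * L * (L : ℝ) ^ r :=
    mul_lt_mul_of_pos_right h3 (by positivity)
  have h5 : ε / 2 / 2 ^ r * (L : ℝ) ^ r * L = ε / 2 / 2 ^ r * L * (L : ℝ) ^ r := by ring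
  linarith

end Pool.Agent.LIM
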