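import Mathlib
import Pool.Agent.LIM.Defs
import Pool.Agent.LIM.NullS
import Pool.Agent.LIM.HitM

set_option autoImplicit false

/-!
# Hilbert's irreducibility theorem in density form
-/

namespace Pool.Agent.LIM

open Polynomial NumberField
open Pool.Agent.FAM (Cube itP)
open Pool.Agent.FamK (ev spec)

namespace Hit

/-- Scaling the roots keeps irreducibility. -/
theorem irr_of_scale {F : Type} [Field F] (p : F[X]) (u : F)
    (h : Irreducible (p.scaleRoots u)) : Irreducible p := by
  constructor
  · intro hu
    refine h.not_isUnit ?_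
    obtain ⟨c, hc, rfl⟩ := Polynomial.isUnit_iff.1 hu
    rw [scaleRoots_C]
    exact Polynomial.isUnit_C.2 hc
  · intro a b hab
    rw [hab, mul_scaleRoots_of_noZeroDivisors] at h
    have hab0 : a ≠ 0 ∧ b ≠ 0 := by
      constructor
      · rintro rfl
        rw [zero_scaleRoots, zero_mul] at h
        exact h.ne_zero rfl
      · rintro rfl
        rw [zero_scaleRoots, mul_zero] at h
        exact h.ne_zero rfl
    rcases h.isUnit_or_isUnit rfl with h1 | h1
    · left
      have h2 := natDegree_eq_zero_of_isUnit h1
      rw [natDegree_scaleRoots] at h2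
      obtain ⟨c, hc⟩ := natDegree_eq_zero.1 h2
      rw [← hc]
      refine Polynomial.isUnit_C.2 (IsUnit.mk0 c fun h0 => hab0.1 ?_)
      rw [← hc, h0, C_0]
    · right
      have h2 := natDegree_eq_zero_of_isUnit h1
      rw [natDegree_scaleRoots] at h2
      obtain ⟨c, hc⟩ := natDegree_eq_zero.1 h2
      rw [← hc]
      refine Polynomial.isUnit_C.2 (IsUnit.mk0 c fun h0 => hab0.2 ?_)
      rw [← hc, h0, C_0]

theorem irr_scale {F : Type} [Field F] (p : F[X]) (u : F) (hu : u ≠ 0) :
    Irreducible (p.scaleRoots u) ↔ Irreducible p := by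
  refine ⟨irr_of_scale p u, fun h => irr_of_scale (p.scaleRoots u) u⁻¹ ?_⟩
  rw [← scaleRoots_mul, mul_inv_cancel₀ hu, scaleRoots_one]
  exact h

/-- The integral normalisation over a field is irreducible with the polynomial. -/
theorem irr_norm {F : Type} [Field F] (p : F[X]) (hp : p ≠ 0) :
    Irreducible (integralNormalization p) ↔ Irreducible p := by
  have hc : p.leadingCoeff ≠ 0 := leadingCoeff_ne_zero.2 hp
  rw [← irr_scale p p.leadingCoeff hc, ← integralNormalization_mul_C_leadingCoeff]
  have hu : IsUnit (Polynomial.C p.leadingCoeff) := Polynomial.isUnit_C.2 (IsUnit.mk0 _ hc)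
  exact (irreducible_mul_isUnit hu).symm

end Hit

theorem hit {K : Type} [Field K] [NumberField K] {r : ℕ}
    (P : (MvPolynomial (Fin r) (𝓞 K))[X]) (hP : 1 ≤ P.natDegree) (hirr : Irreducible (toG P)) :
    Null {s : Fin r → ℤ | ¬ ((spec s P).natDegree = P.natDegree ∧
      Irreducible (toK (spec s P)))} := by
  have hP0 : P ≠ 0 := by
    rintro rfl
    rw [natDegree_zero] at hP
    omega
  have hc : P.leadingCoeff ≠ 0 := leadingCoeff_ne_zero.2 hP0
  set N := integralNormalization P with hN
  have hNm : N.Monic := monic_integralNormalization hP0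
  have hNd : N.natDegree = P.natDegree := natDegree_integralNormalization
  have hinj : Function.Injective (algebraMap (MvPolynomial (Fin r) (𝓞 K)) (GF r K)) :=
    IsFractionRing.injective _ _
  have hNirr : Irreducible (toG N) := by
    have h1 : toG N = integralNormalization (toG P) := by
      unfold toG
      rw [integralNormalization_map _ _ fun h => hc ((injective_iff_map_eq_zero _).1 hinj _ h)]
    rw [h1, Hit.irr_norm _ hirr.ne_zero]
    exact hirr
  refine Null.mono (T := {s : Fin r → ℤ | ev s P.leadingCoeff = 0} ∪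
    ⋃ j : Fin P.natDegree, {s : Fin r → ℤ | 1 ≤ (j : ℕ) ∧ ∃ Q : (𝓞 K)[X], Q.Monic ∧
      Q.natDegree = (j : ℕ) ∧ Q ∣ spec s N}) ?_ ?_
  · intro s hs
    by_cases hcs : ev s P.leadingCoeff = 0
    · exact Or.inl hcs
    · refine Or.inr ?_
      have hdeg : (spec s P).natDegree = P.natDegree := by
        unfold spec
        exact natDegree_map_of_leadingCoeff_ne_zero _ hcs
      have hnirr : ¬ Irreducible (toK (spec s P)) := fun h => hs ⟨hdeg, h⟩
      have hsP0 : spec s P ≠ 0 := by
        intro h
        rw [h, natDegree_zero] at hdeg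
        omega
      have hKinj : Function.Injective (algebraMap (𝓞 K) K) := IsFractionRing.injective _ _
      have hNs : spec s N = integralNormalization (spec s P) := by
        unfold spec
        rw [hN, integralNormalization_map _ _ hcs]
      have hNsm : (spec s N).Monic := by
        rw [hNs]
        exact monic_integralNormalization hsP0
      have hNsd : (spec s N).natDegree = P.natDegree := by
        rw [hNs, natDegree_integralNormalization, hdeg]
      have hNsK : ¬ Irreducible (spec s N) := by
        rw [hNsm.irreducible_iff_irreducible_map_fraction_map (K := K)]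
        intro h
        refine hnirr ?_
        have h1 : (spec s N).map (algebraMap (𝓞 K) K) = integralNormalization (toK (spec s P)) := by
          unfold toK
          rw [hNs, integralNormalization_map]
          exact fun h => leadingCoeff_ne_zero.2 hsP0
            ((injective_iff_map_eq_zero _).1 hKinj _ h)
        have h2 : toK (spec s P) ≠ 0 := (Polynomial.map_ne_zero_iff hKinj).2 hsP0
        rw [h1, Hit.irr_norm _ h2] at h
        exact h
      have hN1 : spec s N ≠ 1 := by
        intro h
        rw [h, natDegree_one] at hNsd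
        omega
      rw [hNsm.irreducible_iff_lt_natDegree_lt hN1] at hNsK
      obtain ⟨Q, hQ⟩ := not_forall.1 hNsK
      obtain ⟨hQm, hQ⟩ := Classical.not_imp.1 hQ
      obtain ⟨hQd, hQ⟩ := Classical.not_imp.1 hQ
      rw [Finset.mem_Ioc, hNsd] at hQd
      have hlt : Q.natDegree < P.natDegree := by
        have := hQd.2
        omega
      exact Set.mem_iUnion.2 ⟨⟨Q.natDegree, hlt⟩, hQd.1, Q, hQm, rfl, not_not.1 hQ⟩
  · refine Null.union (null_zeros _ hc) (Null.iUnion fun j => ?_)
    by_cases hj : 1 ≤ (j : ℕ)
    · refine Null.mono (T := {s : Fin r → ℤ | ∃ Q : (𝓞 K)[X], Q.Monic ∧ Q.natDegree = (j : ℕ) ∧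
        Q ∣ spec s N}) (fun s hs => hs.2) ?_
      exact hit_monic N hNm hNirr j hj (by rw [hNd]; exact j.2)
    · have h1 : {s : Fin r → ℤ | 1 ≤ (j : ℕ) ∧ ∃ Q : (𝓞 K)[X], Q.Monic ∧
          Q.natDegree = (j : ℕ) ∧ Q ∣ spec s N} = ∅ := by
        refine Set.eq_empty_iff_forall_notMem.2 fun s hs => hj hs.1
      rw [h1]
      intro ε hε
      refine ⟨0, fun H _ => ?_⟩
      rw [Set.inter_empty, Set.ncard_empty, Nat.cast_zero]
      positivity

end Pool.Agent.LIM
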