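import Mathlib
import Pool.Agent.LIM.Defs

set_option autoImplicit false

/-!
# Few preperiodic points have small periods
-/

namespace Pool.Agent.LIM

open Polynomial NumberField
open Pool.Agent.RDF (lift wedge form)
open Pool.Agent.FAM (Cube itP)
open Pool.Agent.FamK (ev spec)

namespace Pig

section field

variable {E : Type} [Field E]

open Classical in
/-- The normal form of a vector. -/
noncomputable def nm (u : E × E) : E × E := if u.2 = 0 then (1, 0) else (u.1 / u.2, 1)

theorem nm_form (u : E × E) : (nm u).2 = 1 ∨ nm u = (1, 0) := by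
  unfold nm
  split_ifs with h
  · exact Or.inr rfl
  · exact Or.inl rfl

theorem exists_nm {u : E × E} (hu : u ≠ 0) : ∃ c : E, c ≠ 0 ∧ u = c • nm u := by
  unfold nm
  split_ifs with h
  · refine ⟨u.1, fun h1 => hu (Prod.ext h1 h), Prod.ext ?_ ?_⟩
    · simp
    · simp [h]
  · refine ⟨u.2, h, Prod.ext ?_ ?_⟩
    · simp [mul_div_cancel₀ _ h]
    · simp

theorem wedge_self (u : E × E) : wedge u u = 0 := by
  unfold wedge
  ring

theorem wedge_of_nm {u v : E × E} (hu : u ≠ 0) (hv : v ≠ 0) (h : nm u = nm v) :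
    wedge u v = 0 := by
  obtain ⟨c, _, hc⟩ := exists_nm hu
  obtain ⟨c', _, hc'⟩ := exists_nm hv
  rw [hc, hc', h, RDF.wedge_smul_left, RDF.wedge_smul_right, wedge_self, mul_zero, mul_zero]

theorem wedge_nm_iter (d : ℕ) (F G : E[X]) (a b : ℕ) {u : E × E} (hu : u ≠ 0)
    (h : wedge ((lift d F G)^[a] u) ((lift d F G)^[b] u) = 0) :
    wedge ((lift d F G)^[a] (nm u)) ((lift d F G)^[b] (nm u)) = 0 := by
  obtain ⟨c, hc0, hc⟩ := exists_nm hu
  rw [hc, RDF.iter_smul, RDF.iter_smul, RDF.wedge_smul_left, RDF.wedge_smul_right] at h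
  exact ((mul_eq_zero.1 h).resolve_left (pow_ne_zero _ hc0) |> mul_eq_zero.1).resolve_left
    (pow_ne_zero _ hc0)

/-- The images of a preperiodic point are preperiodic. -/
theorem wedge_iter (d : ℕ) (F G : E[X]) (a b i : ℕ) {p : E × E}
    (ha : (lift d F G)^[a] p ≠ 0)
    (h : wedge ((lift d F G)^[a] p) ((lift d F G)^[b] p) = 0) :
    wedge ((lift d F G)^[a] ((lift d F G)^[i] p)) ((lift d F G)^[b] ((lift d F G)^[i] p)) = 0 := by
  obtain ⟨c, hc⟩ := FAM.IterAux.exists_smul ha h
  have e1 : ∀ n : ℕ, (lift d F G)^[n] ((lift d F G)^[i] p) =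
      (lift d F G)^[i] ((lift d F G)^[n] p) := fun n => by
    rw [← Function.iterate_add_apply, ← Function.iterate_add_apply, add_comm]
  rw [e1, e1, hc, RDF.iter_smul, RDF.wedge_smul_right, wedge_self, mul_zero]

end field

section degree

variable (k : Type) [Field k]

/-- The iterates of a point are defined over the field generated by the point. -/
theorem iter_mem (d : ℕ) (F G : k[X]) (S : IntermediateField k (AlgebraicClosure k)) (n : ℕ)
    {p : AlgebraicClosure k × AlgebraicClosure k} (h1 : p.1 ∈ S) (h2 : p.2 ∈ S) :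
    ((lift d (F.map (algebraMap k _)) (G.map (algebraMap k _)))^[n] p).1 ∈ S ∧
      ((lift d (F.map (algebraMap k _)) (G.map (algebraMap k _)))^[n] p).2 ∈ S := by
  induction n generalizing p with
  | zero => exact ⟨h1, h2⟩
  | succ n ih =>
    rw [Function.iterate_succ_apply]
    have hf : ∀ A : k[X], form d (A.map (algebraMap k (AlgebraicClosure k))) p ∈ S := by
      intro A
      unfold form
      refine S.sum_mem fun i _ => ?_
      rw [coeff_map]
      exact S.mul_mem (S.mul_mem (S.algebraMap_mem _) (pow_mem h1 _)) (pow_mem h2 _)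
    exact ih (hf F) (hf G)

theorem nm_mem {S : IntermediateField k (AlgebraicClosure k)}
    {u : AlgebraicClosure k × AlgebraicClosure k} (h1 : u.1 ∈ S) (h2 : u.2 ∈ S) :
    (nm u).1 ∈ S := by
  unfold nm
  split_ifs with h
  · exact S.one_mem
  · exact S.div_mem h1 h2

/-- The degree of an element of `k(x)`. -/
theorem degree_le {x y : AlgebraicClosure k} (h : y ∈ IntermediateField.adjoin k {x}) :
    (minpoly k y).natDegree ≤ (minpoly k x).natDegree := by
  have hx : IsIntegral k x := (Algebra.IsAlgebraic.isAlgebraic x).isIntegral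
  have hfd : FiniteDimensional k (IntermediateField.adjoin k {x}) :=
    IntermediateField.adjoin.finiteDimensional hx
  rw [← IntermediateField.adjoin.finrank hx]
  have h1 : minpoly k y = minpoly k (⟨y, h⟩ : IntermediateField.adjoin k {x}) :=
    (minpoly.algebraMap_eq (algebraMap (IntermediateField.adjoin k {x})
      (AlgebraicClosure k)).injective (⟨y, h⟩ : IntermediateField.adjoin k {x}))
  rw [h1]
  exact minpoly.natDegree_le _

end degree

end Pig

theorem Pts_eq_PtsB (k : Type) [Field k] (N d B : ℕ) (hd : 1 ≤ d) (F G : k[X])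
    (hF : F.natDegree ≤ d) (hG : G.natDegree ≤ d) (hR : resultant F G d d ≠ 0)
    (hfin : (Pts k N d F G).Finite) (hB : (Pts k N d F G).ncard ≤ B) :
    Pts k N d F G = PtsB k N d B F G := by
  classical
  obtain ⟨F', hF'⟩ : ∃ F' : (AlgebraicClosure k)[X], F' = F.map (algebraMap k _) := ⟨_, rfl⟩
  obtain ⟨G', hG'⟩ : ∃ G' : (AlgebraicClosure k)[X], G' = G.map (algebraMap k _) := ⟨_, rfl⟩
  have hF'd : F'.natDegree ≤ d := by rw [hF']; exact natDegree_map_le.trans hF
  have hG'd : G'.natDegree ≤ d := by rw [hG']; exact natDegree_map_le.trans hG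
  have hR' : resultant F' G' d d ≠ 0 := by
    rw [hF', hG', resultant_map_map]
    exact (map_ne_zero_iff _ (algebraMap k (AlgebraicClosure k)).injective).2 hR
  have hPts : ∀ p, p ∈ Pts k N d F G ↔ (p.2 = 1 ∨ p = (1, 0)) ∧ (minpoly k p.1).natDegree ≤ N ∧
      ∃ a b : ℕ, a < b ∧ wedge ((lift d F' G')^[a] p) ((lift d F' G')^[b] p) = 0 := by
    intro p
    rw [hF', hG']
    rfl
  have hne : ∀ {p : AlgebraicClosure k × AlgebraicClosure k}, (p.2 = 1 ∨ p = (1, 0)) → p ≠ 0 := by
    intro p hp h0
    rcases hp with hp | hp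
    · rw [h0] at hp
      exact zero_ne_one hp
    · rw [hp] at h0
      exact one_ne_zero (congrArg Prod.fst h0)
  refine Set.Subset.antisymm (fun p hp => ?_) (fun p hp => ?_)
  · obtain ⟨h1, h2, a, b, hab, hw⟩ := (hPts p).1 hp
    have hp0 := hne h1
    have hit : ∀ n, (lift d F' G')^[n] p ≠ 0 := fun n =>
      RDF.iter_ne_zero d hd F' G' hF'd hG'd hR' n hp0
    have hx : p.1 ∈ IntermediateField.adjoin k {p.1} :=
      IntermediateField.subset_adjoin k _ (Set.mem_singleton _)
    have hy : p.2 ∈ IntermediateField.adjoin k {p.1} := by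
      rcases h1 with h1 | h1
      · rw [h1]
        exact (IntermediateField.adjoin k {p.1}).one_mem
      · have : p.2 = 0 := congrArg Prod.snd h1
        rw [this]
        exact (IntermediateField.adjoin k {p.1}).zero_mem
    have hmem : ∀ i, Pig.nm ((lift d F' G')^[i] p) ∈ Pts k N d F G := by
      intro i
      rw [hPts]
      refine ⟨Pig.nm_form _, ?_, a, b, hab, ?_⟩
      · have h3 := Pig.iter_mem k d F G (IntermediateField.adjoin k {p.1}) i hx hy
        rw [← hF', ← hG'] at h3
        exact (Pig.degree_le k (Pig.nm_mem k h3.1 h3.2)).trans h2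
      · exact Pig.wedge_nm_iter d F' G' a b (hit i) (Pig.wedge_iter d F' G' a b i (hit a) hw)
    have hcard : hfin.toFinset.card < (Finset.range (B + 1)).card := by
      rw [Finset.card_range, ← Set.ncard_eq_toFinset_card _ hfin]
      omega
    obtain ⟨i, hi, j, hj, hij, he⟩ := Finset.exists_ne_map_eq_of_card_lt_of_maps_to hcard
      (f := fun i => Pig.nm ((lift d F' G')^[i] p)) (fun i _ => by
        rw [Finset.mem_coe, Set.Finite.mem_toFinset]
        exact hmem i)
    rw [Finset.mem_range] at hi hj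
    have hfinal : ∃ a b : ℕ, a < b ∧ b ≤ B ∧
        wedge ((lift d F' G')^[a] p) ((lift d F' G')^[b] p) = 0 := by
      rcases lt_or_gt_of_ne hij with h | h
      · exact ⟨i, j, h, by omega, Pig.wedge_of_nm (hit i) (hit j) he⟩
      · exact ⟨j, i, h, by omega, Pig.wedge_of_nm (hit j) (hit i) he.symm⟩
    rw [hF', hG'] at hfinal
    exact ⟨h1, h2, hfinal⟩
  · obtain ⟨h1, h2, a, b, hab, _, hw⟩ := hp
    exact ⟨h1, h2, a, b, hab, hw⟩

end Pool.Agent.LIM
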