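import Mathlib
import Pool.Agent.LIM.Defs
import Pool.Agent.LIM.Bez

set_option autoImplicit false

/-!
# The irreducible factors over `K(s)` of a polynomial over `𝓞 K[s]`
-/

namespace Pool.Agent.LIM

open Polynomial NumberField nonZeroDivisors
open Pool.Agent.FamK (ev spec)

namespace Spr

/-- A common denominator. -/
theorem clear {A : Type} [CommRing A] [IsDomain A] (p : (FractionRing A)[X]) :
    ∃ (c : A) (q : A[X]), c ≠ 0 ∧
      q.map (algebraMap A (FractionRing A)) = C (algebraMap A (FractionRing A) c) * p := by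
  obtain ⟨c, hc, h⟩ := IsLocalization.integerNormalization_spec A⁰ p
  refine ⟨c, IsLocalization.integerNormalization A⁰ p, nonZeroDivisors.ne_zero hc, ?_⟩
  rw [h, Algebra.smul_def]
  rfl

/-- The factorisation over a domain, up to constants. -/
theorem factor {A : Type} [CommRing A] [IsDomain A] (w : A[X]) (hw : w ≠ 0) :
    ∃ (T : Finset (FractionRing A)[X]) (P : (FractionRing A)[X] → A[X])
      (c : (FractionRing A)[X] → A) (m : (FractionRing A)[X] → ℕ) (a b : A),
      (∀ g ∈ T, Irreducible g ∧ g.Monic ∧ m g ≠ 0) ∧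
      (∀ g, c g ≠ 0 ∧ (P g).map (algebraMap A (FractionRing A)) =
        C (algebraMap A (FractionRing A) (c g)) * g) ∧ a ≠ 0 ∧ b ≠ 0 ∧
      C b * w = C a * ∏ g ∈ T, P g ^ m g := by
  classical
  have hinj : Function.Injective (algebraMap A (FractionRing A)) := IsFractionRing.injective _ _
  set φ := algebraMap A (FractionRing A) with hφ
  have hw' : w.map φ ≠ 0 := (Polynomial.map_ne_zero_iff hinj).2 hw
  set ms := UniqueFactorizationMonoid.normalizedFactors (w.map φ) with hms
  have hprod : Associated ms.prod (w.map φ) := UniqueFactorizationMonoid.prod_normalizedFactors hw'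
  have hmem : ∀ g ∈ ms, Irreducible g ∧ g.Monic := by
    intro g hg
    have h1 := UniqueFactorizationMonoid.irreducible_of_normalized_factor g hg
    refine ⟨h1, ?_⟩
    have h2 := UniqueFactorizationMonoid.normalize_normalized_factor g hg
    rw [← h2]
    exact Polynomial.monic_normalize h1.ne_zero
  choose c P hc hP using fun g : (FractionRing A)[X] => clear (A := A) g
  obtain ⟨u, hu⟩ := hprod
  obtain ⟨v, hv, huv⟩ : ∃ v : FractionRing A, v ≠ 0 ∧ (u : (FractionRing A)[X]) = C v := by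
    obtain ⟨v, hv, h⟩ := Polynomial.isUnit_iff.1 u.isUnit
    exact ⟨v, hv.ne_zero, h.symm⟩
  set γ : A := ∏ g ∈ ms.toFinset, c g ^ ms.count g with hγ
  have hγ0 : γ ≠ 0 := Finset.prod_ne_zero_iff.2 fun g _ => pow_ne_zero _ (hc g)
  have h1 : (∏ g ∈ ms.toFinset, P g ^ ms.count g).map φ = C (φ γ) * ms.prod := by
    rw [Polynomial.map_prod, Finset.prod_multiset_count, hγ, map_prod, map_prod,
      ← Finset.prod_mul_distrib]
    refine Finset.prod_congr rfl fun g _ => ?_
    rw [Polynomial.map_pow, hP, mul_pow, map_pow, map_pow]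
  obtain ⟨a, b, hb, hab⟩ := IsFractionRing.div_surjective (A := A) v
  have hb0 : b ≠ 0 := nonZeroDivisors.ne_zero hb
  have hφb : φ b ≠ 0 := fun h => hb0 (hinj (h.trans (map_zero _).symm))
  have ha0 : a ≠ 0 := by
    rintro rfl
    rw [map_zero, zero_div] at hab
    exact hv hab.symm
  refine ⟨ms.toFinset, P, c, fun g => ms.count g, a, b * γ, ?_, fun g => ⟨hc g, hP g⟩, ha0,
    mul_ne_zero hb0 hγ0, ?_⟩
  · intro g hg
    rw [Multiset.mem_toFinset] at hg
    exact ⟨(hmem g hg).1, (hmem g hg).2, (Multiset.count_pos.2 hg).ne'⟩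
  · refine map_injective φ hinj ?_
    rw [Polynomial.map_mul, Polynomial.map_mul, h1, map_C, map_C, ← hu, huv, ← hab, map_mul]
    have h2 : C (φ b) * C (φ a / φ b) = C (φ a) := by
      rw [← C_mul, mul_div_cancel₀ _ hφb]
    rw [C_mul]
    linear_combination (C (φ γ) * ms.prod) * h2

/-- The roots of a product with multiplicities. -/
theorem roots_iff {L Ω ι : Type} [Field L] [Field Ω] [Algebra L Ω] (T : Finset ι) (Q : ι → L[X])
    (m : ι → ℕ) (a b : L) (ha : a ≠ 0) (hb : b ≠ 0) (W : L[X])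
    (h : C b * W = C a * ∏ g ∈ T, Q g ^ m g) (hm : ∀ g ∈ T, m g ≠ 0) (x : Ω) :
    aeval x W = 0 ↔ ∃ g ∈ T, aeval x (Q g) = 0 := by
  have h1 := congrArg (aeval x) h
  have hinj : Function.Injective (algebraMap L Ω) := (algebraMap L Ω).injective
  have ha' : algebraMap L Ω a ≠ 0 := fun h2 => ha (hinj (h2.trans (map_zero _).symm))
  have hb' : algebraMap L Ω b ≠ 0 := fun h2 => hb (hinj (h2.trans (map_zero _).symm))
  rw [map_mul, map_mul, aeval_C, aeval_C, map_prod] at h1
  constructor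
  · intro h2
    rw [h2, mul_zero] at h1
    have h3 := (mul_eq_zero.1 h1.symm).resolve_left ha'
    obtain ⟨g, hg, h4⟩ := Finset.prod_eq_zero_iff.1 h3
    rw [map_pow] at h4
    exact ⟨g, hg, pow_eq_zero_iff (hm g hg) |>.1 h4⟩
  · rintro ⟨g, hg, h2⟩
    rw [Finset.prod_eq_zero hg (by rw [map_pow, h2, zero_pow (hm g hg)]), mul_zero] at h1
    exact (mul_eq_zero.1 h1).resolve_left hb'

end Spr

open Spr in
theorem spread {K : Type} [Field K] [NumberField K] {r : ℕ}
    (w : (MvPolynomial (Fin r) (𝓞 K))[X]) (hw : w ≠ 0) :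
    ∃ (n : ℕ) (P : Fin n → (MvPolynomial (Fin r) (𝓞 K))[X]) (D : MvPolynomial (Fin r) (𝓞 K)),
      D ≠ 0 ∧ (∀ i, 1 ≤ (P i).natDegree ∧ Irreducible (toG (P i))) ∧
      (∀ i j, i ≠ j → IsCoprime (toG (P i)) (toG (P j))) ∧
      (∀ x : AlgebraicClosure (GF r K), aeval x (toG w) = 0 ↔ ∃ i, aeval x (toG (P i)) = 0) ∧
      ∀ s : Fin r → ℤ, ev s D ≠ 0 →
        (∀ i j, i ≠ j → IsCoprime (toK (spec s (P i))) (toK (spec s (P j)))) ∧
        ∀ x : AlgebraicClosure K,
          aeval x (toK (spec s w)) = 0 ↔ ∃ i, aeval x (toK (spec s (P i))) = 0 := by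
  classical
  obtain ⟨T, P, c, m, a, b, hT, hP, ha, hb, hfac⟩ := factor w hw
  have hinj : Function.Injective (algebraMap (MvPolynomial (Fin r) (𝓞 K)) (GF r K)) :=
    IsFractionRing.injective _ _
  have hc0 : ∀ g, algebraMap (MvPolynomial (Fin r) (𝓞 K)) (GF r K) (c g) ≠ 0 := fun g h =>
    (hP g).1 (hinj (h.trans (map_zero _).symm))
  have htoG : ∀ g, toG (P g) =
      C (algebraMap (MvPolynomial (Fin r) (𝓞 K)) (GF r K) (c g)) * g := fun g => (hP g).2
  have hunit : ∀ g, IsUnit (C (algebraMap (MvPolynomial (Fin r) (𝓞 K)) (GF r K) (c g))) :=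
    fun g => isUnit_C.2 (isUnit_iff_ne_zero.2 (hc0 g))
  have hirr : ∀ g ∈ T, Irreducible (toG (P g)) := by
    intro g hg
    rw [htoG, irreducible_isUnit_mul (hunit g)]
    exact (hT g hg).1
  have hcop : ∀ g ∈ T, ∀ g' ∈ T, g ≠ g' → IsCoprime (toG (P g)) (toG (P g')) := by
    intro g hg g' hg' hne
    rw [htoG, htoG, isCoprime_mul_unit_left_left (hunit g),
      isCoprime_mul_unit_left_right (hunit g')]
    refine ((hT g hg).1.coprime_iff_not_dvd).2 fun hdvd => hne ?_
    exact eq_of_monic_of_associated (hT g hg).2.1 (hT g' hg').2.1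
      (((hT g hg).1.dvd_irreducible_iff_associated (hT g' hg').1).1 hdvd)
  have hbez : ∀ g g' : T, ∃ D : MvPolynomial (Fin r) (𝓞 K), D ≠ 0 ∧
      (g ≠ g' → ∃ U V, U * P g + V * P g' = Polynomial.C D) := by
    intro g g'
    by_cases h : g = g'
    · exact ⟨1, one_ne_zero, fun h1 => absurd h h1⟩
    · obtain ⟨D, U, V, hD, hUV⟩ := bezout (P g) (P g')
        (hcop g g.2 g' g'.2 fun h1 => h (Subtype.ext h1))
      exact ⟨D, hD, fun _ => ⟨U, V, hUV⟩⟩
  choose D₀ hD₀ hUV using hbez
  set e := T.equivFin.symm with he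
  have hex : ∀ q : (FractionRing (MvPolynomial (Fin r) (𝓞 K)))[X] → Prop,
      (∃ g ∈ T, q g) ↔ ∃ i, q (e i).1 := by
    intro q
    constructor
    · rintro ⟨g, hg, h⟩
      refine ⟨e.symm ⟨g, hg⟩, ?_⟩
      rw [Equiv.apply_symm_apply]
      exact h
    · rintro ⟨i, h⟩
      exact ⟨(e i).1, (e i).2, h⟩
  refine ⟨T.card, fun i => P (e i).1, a * b * ∏ g : T, ∏ g' : T, D₀ g g', ?_, ?_, ?_, ?_, ?_⟩
  · refine mul_ne_zero (mul_ne_zero ha hb) ?_
    exact Finset.prod_ne_zero_iff.2 fun g _ => Finset.prod_ne_zero_iff.2 fun g' _ => hD₀ g g'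
  · intro i
    refine ⟨?_, hirr _ (e i).2⟩
    have h1 := (hirr _ (e i).2).natDegree_pos
    exact Nat.lt_of_lt_of_le h1 natDegree_map_le
  · intro i j hij
    refine hcop _ (e i).2 _ (e j).2 fun h => hij (e.injective (Subtype.ext h))
  · intro x
    rw [← hex fun g => aeval x (toG (P g)) = 0]
    refine roots_iff T (fun g => toG (P g)) m
      (algebraMap (MvPolynomial (Fin r) (𝓞 K)) (GF r K) a)
      (algebraMap (MvPolynomial (Fin r) (𝓞 K)) (GF r K) b)
      (fun h => ha (hinj (h.trans (map_zero _).symm)))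
      (fun h => hb (hinj (h.trans (map_zero _).symm))) (toG w) ?_ (fun g hg => (hT g hg).2.2) x
    have h1 := congrArg toG hfac
    unfold toG at h1 ⊢
    rw [Polynomial.map_mul, Polynomial.map_mul, map_C, map_C, Polynomial.map_prod] at h1
    simp only [Polynomial.map_pow] at h1
    exact h1
  · intro s hs
    rw [map_mul, map_mul, map_prod] at hs
    have hsa : ev s a ≠ 0 := left_ne_zero_of_mul (left_ne_zero_of_mul hs)
    have hsb : ev s b ≠ 0 := right_ne_zero_of_mul (left_ne_zero_of_mul hs)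
    have hsD : ∀ g g' : T, ev s (D₀ g g') ≠ 0 := by
      intro g g'
      have h1 := Finset.prod_ne_zero_iff.1 (right_ne_zero_of_mul hs) g (Finset.mem_univ _)
      rw [map_prod] at h1
      exact Finset.prod_ne_zero_iff.1 h1 g' (Finset.mem_univ _)
    have hK : ∀ y : 𝓞 K, y ≠ 0 → algebraMap (𝓞 K) K y ≠ 0 := fun y hy h =>
      hy (RingOfIntegers.coe_injective (h.trans (map_zero _).symm))
    refine ⟨?_, ?_⟩
    · intro i j hij
      obtain ⟨U, V, h1⟩ := hUV (e i) (e j) fun h => hij (e.injective h)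
      have h2 := congrArg (fun f => toK (spec s f)) h1
      simp only [toK, spec, Polynomial.map_add, Polynomial.map_mul, map_C] at h2
      refine ⟨C (algebraMap (𝓞 K) K (ev s (D₀ (e i) (e j))))⁻¹ * toK (spec s U),
        C (algebraMap (𝓞 K) K (ev s (D₀ (e i) (e j))))⁻¹ * toK (spec s V), ?_⟩
      have h3 : C (algebraMap (𝓞 K) K (ev s (D₀ (e i) (e j))))⁻¹ *
          C (algebraMap (𝓞 K) K (ev s (D₀ (e i) (e j)))) = 1 := by
        rw [← C_mul, inv_mul_cancel₀ (hK _ (hsD _ _)), C_1]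
      unfold toK spec
      linear_combination (C (algebraMap (𝓞 K) K (ev s (D₀ (e i) (e j))))⁻¹) * h2 + h3
    · intro x
      rw [← hex fun g => aeval x (toK (spec s (P g))) = 0]
      refine roots_iff T (fun g => toK (spec s (P g))) m (algebraMap (𝓞 K) K (ev s a))
        (algebraMap (𝓞 K) K (ev s b)) (hK _ hsa) (hK _ hsb) (toK (spec s w)) ?_
        (fun g hg => (hT g hg).2.2) x
      have h1 := congrArg (fun f => toK (spec s f)) hfac
      unfold toK spec at h1 ⊢
      simp only [Polynomial.map_mul, map_C, Polynomial.map_prod, Polynomial.map_pow] at h1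
      exact h1

end Pool.Agent.LIM
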