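import Mathlib
import Pool.Agent.LIM.Defs

set_option autoImplicit false

/-!
# Monomial valuations on the algebraic closure of `K(s_1, …, s_r)`
-/

namespace Pool.Agent.LIM.Ex

open Polynomial NumberField

namespace Val

theorem lift_hom {k L M : Type} [Field k] [Field L] [Algebra k L] [Algebra.IsAlgebraic k L]
    [Field M] [IsAlgClosed M] (f : k →+* M) : ∃ ψ : L →+* M, ∀ c, ψ (algebraMap k L c) = f c := by
  let := f.toAlgebra
  exact ⟨(IsAlgClosed.lift (M := M) (R := k) (S := L)).toRingHom,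
    fun c => (IsAlgClosed.lift (M := M) (R := k) (S := L)).commutes c⟩

/-- An extension of the valuation at infinity of `k(T)`. -/
theorem exists_infty (k M : Type) [Field k] [Field M] [Algebra (RatFunc k) M] :
    ∃ (Γ : Type) (_ : LinearOrderedCommGroupWithZero Γ) (w : Valuation M Γ),
      1 < w (algebraMap (RatFunc k) M RatFunc.X) ∧
      (∀ e : RatFunc k, e ≠ 0 →
        w (algebraMap (RatFunc k) M e) = w (algebraMap (RatFunc k) M RatFunc.X) ^ e.intDegree) := by
  classical
  set A : ValuationSubring (RatFunc k) := (RatFunc.inftyValuation k).valuationSubring with hA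
  have hmem : ∀ e : RatFunc k, e ∈ A ↔ RatFunc.inftyValuation k e ≤ 1 := fun e => by
    rw [hA, Valuation.mem_valuationSubring_iff]
  have hX0 : (RatFunc.X : RatFunc k) ≠ 0 := RatFunc.X_ne_zero
  set S : Subring M := A.toSubring.map (algebraMap (RatFunc k) M) with hS
  have hXi : (RatFunc.X : RatFunc k)⁻¹ ∈ A := by
    rw [hmem, map_inv₀, RatFunc.inftyValuation.X]
    rw [← WithZero.exp_neg, ← WithZero.exp_zero, WithZero.exp_le_exp]
    norm_num
  have hXiS : algebraMap (RatFunc k) M (RatFunc.X)⁻¹ ∈ S := ⟨_, hXi, rfl⟩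
  have hI : Ideal.span {(⟨_, hXiS⟩ : S)} ≠ ⊤ := by
    intro h
    rw [Ideal.eq_top_iff_one, Ideal.mem_span_singleton'] at h
    obtain ⟨⟨c, c', hc', hc⟩, h⟩ := h
    have h1 : c * algebraMap (RatFunc k) M (RatFunc.X)⁻¹ = 1 := congrArg Subtype.val h
    rw [← hc, ← map_mul, ← map_one (algebraMap (RatFunc k) M)] at h1
    have h2 : c' * (RatFunc.X)⁻¹ = 1 := (algebraMap (RatFunc k) M).injective h1
    have h3 : c' = RatFunc.X := by
      field_simp at h2
      exact h2
    have h4 : RatFunc.inftyValuation k c' ≤ 1 := (hmem c').1 hc'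
    rw [h3, RatFunc.inftyValuation.X, ← WithZero.exp_zero, WithZero.exp_le_exp] at h4
    norm_num at h4
  obtain ⟨B, hB1, hB2⟩ := Ideal.image_subset_nonunits_valuationSubring _ hI
  have hle : ∀ e : RatFunc k, RatFunc.inftyValuation k e ≤ 1 →
      B.valuation (algebraMap (RatFunc k) M e) ≤ 1 := fun e he =>
    (B.valuation_le_one_iff _).2 (hB1 ⟨e, (hmem e).2 he, rfl⟩)
  have hX : B.valuation (algebraMap (RatFunc k) M (RatFunc.X)⁻¹) < 1 :=
    (ValuationSubring.mem_nonunits_iff B).1 (hB2 ⟨_, Ideal.subset_span rfl, rfl⟩)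
  refine ⟨B.ValueGroup, inferInstance, B.valuation, ?_, fun e he => ?_⟩
  · rw [map_inv₀, map_inv₀] at hX
    exact (inv_lt_one₀ (by
      rw [zero_lt_iff, ne_eq, map_eq_zero, map_eq_zero]
      exact hX0)).1 hX
  · have h1 : RatFunc.inftyValuation k (e * RatFunc.X ^ (-e.intDegree)) = 1 := by
      rw [map_mul, RatFunc.inftyValuation.X_zpow, RatFunc.inftyValuation_apply,
        RatFunc.inftyValuation_of_nonzero k he, ← WithZero.exp_add, add_neg_cancel,
        WithZero.exp_zero]
    have h2 : B.valuation (algebraMap (RatFunc k) M (e * RatFunc.X ^ (-e.intDegree))) = 1 := by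
      refine le_antisymm (hle _ h1.le) ?_
      have h3 := hle (e * RatFunc.X ^ (-e.intDegree))⁻¹ (by rw [map_inv₀, h1, inv_one])
      rw [map_inv₀, map_inv₀] at h3
      exact (inv_le_one₀ (by
        rw [zero_lt_iff, ne_eq, map_eq_zero, map_eq_zero]
        exact mul_ne_zero he (zpow_ne_zero _ hX0))).1 h3
    rw [map_mul, map_mul, map_zpow₀, map_zpow₀, zpow_neg] at h2
    exact eq_of_div_eq_one (by rw [div_eq_mul_inv]; exact h2)

/-- The substitution `s_i ↦ s_i T ^ e_i`. -/
noncomputable def subst (K : Type) [Field K] [NumberField K] (r : ℕ) (e : Fin r → ℕ) :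
    MvPolynomial (Fin r) (𝓞 K) →+* (GF r K)[X] :=
  MvPolynomial.eval₂Hom (C.comp ((algebraMap (MvPolynomial (Fin r) (𝓞 K)) (GF r K)).comp
    MvPolynomial.C)) fun i =>
      C (algebraMap (MvPolynomial (Fin r) (𝓞 K)) (GF r K) (MvPolynomial.X i)) * X ^ e i

theorem eval_subst (K : Type) [Field K] [NumberField K] (r : ℕ) (e : Fin r → ℕ) :
    (evalRingHom 1).comp (subst K r e) =
      algebraMap (MvPolynomial (Fin r) (𝓞 K)) (GF r K) := by
  refine MvPolynomial.ringHom_ext (fun a => ?_) (fun i => ?_)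
  · simp [subst]
  · simp [subst]

theorem subst_injective (K : Type) [Field K] [NumberField K] (r : ℕ) (e : Fin r → ℕ) :
    Function.Injective (subst K r e) := by
  have h : Function.Injective ((evalRingHom 1).comp (subst K r e)) := by
    rw [eval_subst]
    exact IsFractionRing.injective _ _
  rw [RingHom.coe_comp] at h
  exact h.of_comp

theorem subst_eq_C (K : Type) [Field K] [NumberField K] (r : ℕ) (e : Fin r → ℕ)
    (c : MvPolynomial (Fin r) (𝓞 K)) (hc : ∀ i ∈ c.vars, e i = 0) :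
    subst K r e c = C (algebraMap (MvPolynomial (Fin r) (𝓞 K)) (GF r K) c) := by
  have h : (subst K r e) c = (C.comp (algebraMap (MvPolynomial (Fin r) (𝓞 K)) (GF r K))) c := by
    refine MvPolynomial.hom_congr_vars ?_ (fun i hi _ => ?_) rfl
    · ext a
      simp [subst]
    · simp [subst, hc i hi]
  exact h

theorem algebraic_int {Ω : Type} [Field Ω] (i : Algebra ℤ Ω) {m : Ω}
    (h : @IsAlgebraic ℤ Ω _ _ i m) : @IsAlgebraic ℤ Ω _ _ (Ring.toIntAlgebra Ω) m := by
  have hi : i = Ring.toIntAlgebra Ω := Subsingleton.elim _ _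
  subst hi
  exact h

/-- A valuation that is at most one on the rational numbers is at most one on the algebraic
numbers. -/
theorem le_one_of_algebraic {L Γ : Type} [Field L] [CharZero L] [LinearOrderedCommGroupWithZero Γ]
    (v : Valuation L Γ) (hv : ∀ c : ℚ, v (algebraMap ℚ L c) ≤ 1) (x : L)
    (hx : IsAlgebraic ℤ x) : v x ≤ 1 := by
  have h1 : IsAlgebraic ℚ x := (IsFractionRing.isAlgebraic_iff ℤ ℚ L).1 hx
  obtain ⟨p, hp, hpx⟩ := h1.isIntegral
  let f : ℚ →+* v.integer := (algebraMap ℚ L).codRestrict v.integer hv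
  have h2 : IsIntegral v.integer x := by
    refine ⟨p.map f, hp.map f, ?_⟩
    rw [eval₂_map]
    exact hpx
  exact (Valuation.integer.integers v).mem_of_integral h2

end Val

theorem exists_val (K : Type) [Field K] [NumberField K] (r : ℕ) (e : Fin r → ℕ) :
    ∃ (Γ : Type) (_ : LinearOrderedCommGroupWithZero Γ)
      (v : Valuation (AlgebraicClosure (GF r K)) Γ) (g : Γ), 1 < g ∧
      (∀ i, v (algebraMap (MvPolynomial (Fin r) (𝓞 K)) _ (MvPolynomial.X i)) = g ^ e i) ∧
      (∀ c : GF r K, c ≠ 0 → ∃ m : ℤ, v (algebraMap (GF r K) _ c) = g ^ m) ∧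
      (∀ c : MvPolynomial (Fin r) (𝓞 K), c ≠ 0 → (∀ i ∈ c.vars, e i = 0) →
        v (algebraMap (MvPolynomial (Fin r) (𝓞 K)) _ c) = 1) ∧
      ∀ x : AlgebraicClosure (GF r K), IsAlgebraic ℤ x → x ≠ 0 → v x = 1 := by
  obtain ⟨Γ, hΓ, w, hg, hw⟩ := Val.exists_infty (GF r K) (AlgebraicClosure (RatFunc (GF r K)))
  have hinj : Function.Injective
      ((algebraMap (GF r K)[X] (RatFunc (GF r K))).comp (Val.subst K r e)) := by
    rw [RingHom.coe_comp]
    exact (IsFractionRing.injective _ _).comp (Val.subst_injective K r e)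
  set ψ₁ : GF r K →+* RatFunc (GF r K) := IsFractionRing.lift hinj with hψ₁
  have e1 : ∀ c : MvPolynomial (Fin r) (𝓞 K),
      ψ₁ (algebraMap _ _ c) = algebraMap (GF r K)[X] (RatFunc (GF r K)) (Val.subst K r e c) :=
    fun c => IsFractionRing.lift_algebraMap hinj c
  obtain ⟨ψ, hψ⟩ := Val.lift_hom (L := AlgebraicClosure (GF r K))
    ((algebraMap (RatFunc (GF r K)) (AlgebraicClosure (RatFunc (GF r K)))).comp ψ₁)
  set g := w (algebraMap (RatFunc (GF r K)) _ RatFunc.X) with hgdef
  have hC : ∀ c : GF r K, c ≠ 0 → w (algebraMap (RatFunc (GF r K)) _ (RatFunc.C c)) = 1 := by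
    intro c hc
    rw [hw _ (by simpa using hc), RatFunc.intDegree_C, zpow_zero]
  have e2 : ∀ c : MvPolynomial (Fin r) (𝓞 K),
      algebraMap (MvPolynomial (Fin r) (𝓞 K)) (AlgebraicClosure (GF r K)) c =
      algebraMap (GF r K) _ (algebraMap _ (GF r K) c) := fun c => rfl
  have hchar : CharZero (AlgebraicClosure (GF r K)) :=
    charZero_of_injective_algebraMap (algebraMap (GF r K) (AlgebraicClosure (GF r K))).injective
  have hQ : ∀ c : ℚ, c ≠ 0 → (w.comap ψ) (algebraMap ℚ _ c) = 1 := by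
    intro c hc
    have h : algebraMap ℚ (AlgebraicClosure (GF r K)) c =
        algebraMap (GF r K) _ (algebraMap ℚ (GF r K) c) := by simp
    rw [Valuation.comap_apply, h, hψ, RingHom.comp_apply]
    have h' : ψ₁ (algebraMap ℚ (GF r K) c) = RatFunc.C (algebraMap ℚ (GF r K) c) := by simp
    rw [h']
    exact hC _ (by simpa using hc)
  refine ⟨Γ, hΓ, w.comap ψ, g, hg, fun i => ?_, fun c hc => ?_, fun c hc hc' => ?_,
    fun x hx hx0 => ?_⟩
  · rw [Valuation.comap_apply, e2, hψ, RingHom.comp_apply, e1]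
    have h : Val.subst K r e (MvPolynomial.X i) =
        C (algebraMap (MvPolynomial (Fin r) (𝓞 K)) (GF r K) (MvPolynomial.X i)) * X ^ e i := by
      simp [Val.subst]
    rw [h, map_mul, map_pow, RatFunc.algebraMap_C, RatFunc.algebraMap_X, map_mul, map_pow, map_mul,
      map_pow, hC, one_mul]
    rw [ne_eq, IsFractionRing.to_map_eq_zero_iff]
    exact MvPolynomial.X_ne_zero i
  · refine ⟨(ψ₁ c).intDegree, ?_⟩
    rw [Valuation.comap_apply, hψ, RingHom.comp_apply]
    exact hw _ (by rwa [ne_eq, map_eq_zero])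
  · rw [Valuation.comap_apply, e2, hψ, RingHom.comp_apply, e1, Val.subst_eq_C K r e c hc',
      RatFunc.algebraMap_C]
    exact hC _ (by rwa [ne_eq, IsFractionRing.to_map_eq_zero_iff])
  · have hle : ∀ y : AlgebraicClosure (GF r K), IsAlgebraic ℤ y → (w.comap ψ) y ≤ 1 := by
      refine fun y hy => Val.le_one_of_algebraic (w.comap ψ) (fun c => ?_) y
        (Val.algebraic_int _ hy)
      by_cases hc : c = 0
      · rw [hc, map_zero, map_zero]
        exact zero_le_one
      · exact (hQ c hc).le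
    refine le_antisymm (hle x hx) ?_
    have h := hle x⁻¹ hx.inv
    rw [map_inv₀] at h
    exact (inv_le_one₀ (zero_lt_iff.2 ((Valuation.ne_zero_iff _).2 hx0))).1 h

end Pool.Agent.LIM.Ex
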