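import Mathlib

set_option autoImplicit false

/-!
# The degree of an element with a ramified value
-/

namespace Pool.Agent.LIM.Ex

open Polynomial

theorem deg_le {k L Γ : Type} [Field k] [Field L] [Algebra k L] [Algebra.IsAlgebraic k L]
    [LinearOrderedCommGroupWithZero Γ] (v : Valuation L Γ) (g : Γ) (hg : 1 < g)
    (hk : ∀ c : k, c ≠ 0 → ∃ m : ℤ, v (algebraMap k L c) = g ^ m) (x : L) (D : ℕ) (hD : 1 ≤ D)
    (h : v x ^ D = g) : D ≤ (minpoly k x).natDegree := by
  by_contra hlt
  push Not at hlt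
  set p := minpoly k x with hp
  have hx : IsIntegral k x := (Algebra.IsAlgebraic.isAlgebraic x).isIntegral
  have hp0 : p ≠ 0 := minpoly.ne_zero hx
  have hg0 : g ≠ 0 := (zero_lt_one.trans hg).ne'
  have hx0 : v x ≠ 0 := by
    intro h0
    rw [h0, zero_pow (by omega)] at h
    exact hg0 h.symm
  have hne : ∀ i ∈ p.support, v (algebraMap k L (p.coeff i) * x ^ i) ≠ 0 := by
    intro i hi
    obtain ⟨m, hm⟩ := hk _ (mem_support_iff.1 hi)
    rw [map_mul, map_pow, hm]
    exact mul_ne_zero (zpow_ne_zero _ hg0) (pow_ne_zero _ hx0)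
  have hinj : ∀ i ∈ p.support, ∀ j ∈ p.support,
      v (algebraMap k L (p.coeff i) * x ^ i) = v (algebraMap k L (p.coeff j) * x ^ j) → i = j := by
    intro i hi j hj hij
    obtain ⟨m, hm⟩ := hk _ (mem_support_iff.1 hi)
    obtain ⟨m', hm'⟩ := hk _ (mem_support_iff.1 hj)
    rw [map_mul, map_pow, hm, map_mul, map_pow, hm'] at hij
    have h1 := congrArg (fun t => t ^ D) hij
    simp only [mul_pow, ← pow_mul, mul_comm i D, mul_comm j D] at h1
    rw [pow_mul (v x), pow_mul (v x), h, ← zpow_natCast (g ^ m), ← zpow_natCast (g ^ m'),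
      ← zpow_natCast g i, ← zpow_natCast g j, ← zpow_mul, ← zpow_mul, ← zpow_add₀ hg0,
      ← zpow_add₀ hg0] at h1
    have h2 : m * D + i = m' * D + j := zpow_right_injective₀ (zero_lt_one.trans hg) hg.ne' h1
    have hi' : i < D := (le_natDegree_of_mem_supp i hi).trans_lt hlt
    have hj' : j < D := (le_natDegree_of_mem_supp j hj).trans_lt hlt
    have h3 : ((i : ℤ)) % D = (j : ℤ) % D := by
      have h4 : (m * D + i : ℤ) % D = (m' * D + j : ℤ) % D := by rw [h2]
      rwa [add_comm, Int.add_mul_emod_self_right, add_comm (m' * (D : ℤ)),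
        Int.add_mul_emod_self_right] at h4
    rw [Int.emod_eq_of_lt (by omega) (by omega), Int.emod_eq_of_lt (by omega) (by omega)] at h3
    exact_mod_cast h3
  obtain ⟨j, hj, hmax⟩ := Finset.exists_max_image p.support
    (fun i => v (algebraMap k L (p.coeff i) * x ^ i)) (nonempty_support_iff.2 hp0)
  have h1 : v (∑ i ∈ p.support, algebraMap k L (p.coeff i) * x ^ i) =
      v (algebraMap k L (p.coeff j) * x ^ j) := by
    refine v.map_sum_eq_of_lt hj fun i hi => ?_
    rw [Finset.mem_sdiff, Finset.mem_singleton] at hi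
    exact lt_of_le_of_ne (hmax i hi.1) fun e => hi.2 (hinj i hi.1 j hj e)
  have h2 : ∑ i ∈ p.support, algebraMap k L (p.coeff i) * x ^ i = 0 := by
    have h3 := minpoly.aeval k x
    rw [← hp, aeval_eq_sum_range] at h3
    rw [← h3]
    refine Finset.sum_subset_zero_on_sdiff (fun i hi => ?_) (fun i hi => ?_) (fun i _ => ?_)
    · rw [Finset.mem_range]
      exact Nat.lt_succ_of_le (le_natDegree_of_mem_supp i hi)
    · rw [Finset.mem_sdiff, notMem_support_iff] at hi
      rw [hi.2, zero_smul]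
    · rw [Algebra.smul_def]
  rw [h2, map_zero] at h1
  exact hne j hj h1.symm

end Pool.Agent.LIM.Ex
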