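import Mathlib
import Pool.Agent.LIM.Defs

set_option autoImplicit false

/-!
# From the moment bound and the types to the limit
-/

namespace Pool.Agent.LIM

open Filter
open Pool.Agent.FAM (Cube)

namespace LimAux

theorem null_card {r : ℕ} {S : Set (Fin r → ℤ)} (h : Null S) (p : (Fin r → ℤ) → Prop)
    [DecidablePred p] (hp : ∀ s, p s → s ∈ S) (ε : ℝ) (hε : 0 < ε) :
    ∃ H₀ : ℕ, ∀ H : ℕ, H₀ ≤ H →
      (((Cube r H).filter p).card : ℝ) ≤ ε * (2 * (H : ℝ) + 1) ^ r := by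
  obtain ⟨H₀, hH⟩ := h ε hε
  refine ⟨H₀, fun H h1 => le_trans ?_ (hH H h1)⟩
  rw [← Set.ncard_coe_finset]
  refine Nat.cast_le.2 (Set.ncard_le_ncard ?_ ((Finset.finite_toSet _).inter_of_left _))
  intro s hs
  rw [Finset.mem_coe, Finset.mem_filter] at hs
  exact ⟨Finset.mem_coe.2 hs.1, hp s hs.2⟩

/-- Large `m`. -/
theorem tail_small (φ : ℕ → ℝ) (hφ : ∀ m : ℕ, |φ m| ≤ Real.exp ((m : ℝ) ^ ((1 : ℝ) / 4))) (a η : ℝ)
    (ha : 0 ≤ a) (hη : 0 < η) : ∃ B : ℕ, ∀ m : ℕ, B < m →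
      |φ m| + a ≤ η * Real.exp ((m : ℝ) ^ ((1 : ℝ) / 3)) := by
  have h1 : Tendsto (fun m : ℕ => Real.exp ((m : ℝ) ^ ((1 : ℝ) / 3) / 2)) atTop atTop := by
    refine Real.tendsto_exp_atTop.comp ?_
    refine Tendsto.atTop_div_const (by norm_num) ?_
    exact (tendsto_rpow_atTop (by norm_num : (0 : ℝ) < 1 / 3)).comp tendsto_natCast_atTop_atTop
  obtain ⟨B, hB⟩ := eventually_atTop.1 (h1.eventually_ge_atTop ((1 + a) / η))
  refine ⟨max B (2 ^ 12), fun m hm => ?_⟩
  have hmB : B ≤ m := (le_max_left _ _).trans hm.le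
  have hm12 : 2 ^ 12 ≤ m := (le_max_right _ _).trans hm.le
  have hm0 : (0 : ℝ) < m := by
    have : 0 < m := by omega
    exact_mod_cast this
  set x : ℝ := (m : ℝ) ^ ((1 : ℝ) / 3) with hx
  have hx0 : 0 < x := Real.rpow_pos_of_pos hm0 _
  have h2 : (m : ℝ) ^ ((1 : ℝ) / 4) ≤ x / 2 := by
    have h3 : (2 : ℝ) ≤ (m : ℝ) ^ ((1 : ℝ) / 12) := by
      have h4 : ((2 : ℝ) ^ 12) ^ ((1 : ℝ) / 12) ≤ (m : ℝ) ^ ((1 : ℝ) / 12) :=
        Real.rpow_le_rpow (by positivity) (by exact_mod_cast hm12) (by norm_num)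
      have h5 : ((2 : ℝ) ^ 12) ^ ((1 : ℝ) / 12) = 2 := by
        rw [← Real.rpow_natCast (2 : ℝ) 12, ← Real.rpow_mul (by norm_num)]
        norm_num
      rwa [h5] at h4
    have h6 : x = (m : ℝ) ^ ((1 : ℝ) / 4) * (m : ℝ) ^ ((1 : ℝ) / 12) := by
      rw [hx, ← Real.rpow_add hm0]
      norm_num
    have h7 : 0 ≤ (m : ℝ) ^ ((1 : ℝ) / 4) := Real.rpow_nonneg hm0.le _
    rw [h6]
    nlinarith
  have h3 : |φ m| ≤ Real.exp (x / 2) := (hφ m).trans (Real.exp_le_exp.2 h2)
  have h4 : (1 : ℝ) ≤ Real.exp (x / 2) := Real.one_le_exp (by positivity)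
  have h5 : |φ m| + a ≤ (1 + a) * Real.exp (x / 2) := by nlinarith
  have h6 : (1 + a) / η ≤ Real.exp (x / 2) := hB m hmB
  rw [div_le_iff₀ hη] at h6
  have h7 : Real.exp x = Real.exp (x / 2) * Real.exp (x / 2) := by
    rw [← Real.exp_add]
    congr 1
    ring
  rw [h7]
  nlinarith

end LimAux

open LimAux

open Classical in
theorem limA {r : ℕ} (good : Set (Fin r → ℤ)) (n : (Fin r → ℤ) → ℕ)
    (nB : ℕ → (Fin r → ℤ) → ℕ) (g : ℕ → ℕ) (hgood : Null goodᶜ) (C : ℝ)
    (hC : ∀ H : ℕ, 1 ≤ H → ∑ s ∈ (Cube r H).filter (fun s => s ∈ good),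
      Real.exp ((n s : ℝ) ^ ((1 : ℝ) / 3)) ≤ C * (2 * H + 1) ^ r)
    (h2 : ∀ B, ∀ s ∈ good, n s ≤ B → nB B s = n s)
    (h3 : ∀ B, Null {s | s ∈ good ∧ nB B s ≠ g B}) :
    ∃ G B₀ : ℕ, (∀ B, B₀ ≤ B → g B = G) ∧ ∀ φ : ℕ → ℝ,
      (∀ m : ℕ, |φ m| ≤ Real.exp ((m : ℝ) ^ ((1 : ℝ) / 4))) →
      Tendsto (fun H : ℕ => (∑ s ∈ (Cube r H).filter (fun s => s ∈ good), φ (n s)) /
        (2 * (H : ℝ) + 1) ^ r) atTop (nhds (φ G)) := by
  have hT : ∀ H : ℕ, (0 : ℝ) < (2 * (H : ℝ) + 1) ^ r := fun H => by positivity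
  have hcube : ∀ H : ℕ, ((Cube r H).card : ℝ) = (2 * (H : ℝ) + 1) ^ r := fun H => by
    rw [Pool.Agent.FAM.card_Cube]
    push_cast
    ring
  have hC0 : 0 ≤ C := by
    have h := hC 1 le_rfl
    have h4 : (0 : ℝ) ≤ ∑ s ∈ (Cube r 1).filter (fun s => s ∈ good),
      Real.exp ((n s : ℝ) ^ ((1 : ℝ) / 3)) := Finset.sum_nonneg fun s _ => (Real.exp_pos _).le
    have h5 := hT 1
    by_contra hcon
    push Not at hcon
    have h6 := mul_neg_of_neg_of_pos hcon h5
    have h7 := h4.trans h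
    push_cast at h6 h7
    linarith
  -- many points with few preperiodic points
  obtain ⟨B₁, hB₁⟩ := tail_small (fun _ => 0) (fun m => by
    rw [abs_zero]; exact (Real.exp_pos _).le) 1 (1 / (8 * (C + 1))) zero_le_one (by positivity)
  have hmarkov : ∀ H : ℕ, 1 ≤ H →
      (((Cube r H).filter (fun s => s ∈ good ∧ B₁ < n s)).card : ℝ) ≤
        1 / 8 * (2 * (H : ℝ) + 1) ^ r := by
    intro H hH
    have h4 : (8 * (C + 1)) * (((Cube r H).filter (fun s => s ∈ good ∧ B₁ < n s)).card : ℝ) ≤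
        ∑ s ∈ (Cube r H).filter (fun s => s ∈ good), Real.exp ((n s : ℝ) ^ ((1 : ℝ) / 3)) := by
      calc (8 * (C + 1)) * (((Cube r H).filter (fun s => s ∈ good ∧ B₁ < n s)).card : ℝ)
          = ∑ _s ∈ (Cube r H).filter (fun s => s ∈ good ∧ B₁ < n s), 8 * (C + 1) := by
            rw [Finset.sum_const, nsmul_eq_mul, mul_comm]
        _ ≤ ∑ s ∈ (Cube r H).filter (fun s => s ∈ good ∧ B₁ < n s),
              Real.exp ((n s : ℝ) ^ ((1 : ℝ) / 3)) := by
            refine Finset.sum_le_sum fun s hs => ?_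
            have h5 := hB₁ (n s) (Finset.mem_filter.1 hs).2.2
            simp only [abs_zero, zero_add] at h5
            rw [div_mul_eq_mul_div, one_mul, le_div_iff₀ (by positivity), one_mul] at h5
            exact h5
        _ ≤ _ := by
            refine Finset.sum_le_sum_of_subset_of_nonneg ?_ fun s _ _ => (Real.exp_pos _).le
            exact Finset.monotone_filter_right _ fun s _ h => h.1
    have h5 := h4.trans (hC H hH)
    have h6 := hT H
    have h7 : C * (2 * (H : ℝ) + 1) ^ r ≤ (C + 1) * (2 * (H : ℝ) + 1) ^ r := by nlinarith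
    have h8 := h5.trans h7
    have h9 : 8 * (((Cube r H).filter (fun s => s ∈ good ∧ B₁ < n s)).card : ℝ) ≤
        (2 * (H : ℝ) + 1) ^ r := by
      have h10 : 0 < C + 1 := by linarith
      by_contra hcon
      push Not at hcon
      nlinarith
    linarith
  have hconst : ∀ B, B₁ ≤ B → g B = g B₁ := by
    intro B hB
    obtain ⟨H1, hH1⟩ := null_card hgood (fun s => s ∈ goodᶜ) (fun _ h => h) (1 / 8) (by norm_num)
    obtain ⟨H2, hH2⟩ := null_card (h3 B) (fun s => s ∈ {s | s ∈ good ∧ nB B s ≠ g B})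
      (fun _ h => h) (1 / 8) (by norm_num)
    obtain ⟨H3, hH3⟩ := null_card (h3 B₁) (fun s => s ∈ {s | s ∈ good ∧ nB B₁ s ≠ g B₁})
      (fun _ h => h) (1 / 8) (by norm_num)
    set H := max 1 (max H1 (max H2 H3)) with hHdef
    have e1 := hH1 H (by rw [hHdef]; simp)
    have e2 := hH2 H (by rw [hHdef]; simp)
    have e3 := hH3 H (by rw [hHdef]; simp)
    have e4 := hmarkov H (by rw [hHdef]; simp)
    have hex : ∃ s ∈ Cube r H, s ∉ goodᶜ ∧ s ∉ {s | s ∈ good ∧ nB B s ≠ g B} ∧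
        s ∉ {s | s ∈ good ∧ nB B₁ s ≠ g B₁} ∧ ¬ (s ∈ good ∧ B₁ < n s) := by
      by_contra hcon
      push Not at hcon
      have h4 : Cube r H ⊆ ((Cube r H).filter (fun s => s ∈ goodᶜ)) ∪
          (((Cube r H).filter (fun s => s ∈ {s | s ∈ good ∧ nB B s ≠ g B})) ∪
          (((Cube r H).filter (fun s => s ∈ {s | s ∈ good ∧ nB B₁ s ≠ g B₁})) ∪
          ((Cube r H).filter (fun s => s ∈ good ∧ B₁ < n s)))) := by
        intro s hs
        rw [Finset.mem_union, Finset.mem_union, Finset.mem_union, Finset.mem_filter,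
          Finset.mem_filter, Finset.mem_filter, Finset.mem_filter]
        by_cases a1 : s ∈ goodᶜ
        · exact Or.inl ⟨hs, a1⟩
        by_cases a2 : s ∈ {s | s ∈ good ∧ nB B s ≠ g B}
        · exact Or.inr (Or.inl ⟨hs, a2⟩)
        by_cases a3 : s ∈ {s | s ∈ good ∧ nB B₁ s ≠ g B₁}
        · exact Or.inr (Or.inr (Or.inl ⟨hs, a3⟩))
        exact Or.inr (Or.inr (Or.inr ⟨hs, hcon s hs a1 a2 a3⟩))
      have h5 := Finset.card_le_card h4
      have h6 := h5.trans ((Finset.card_union_le _ _).trans (Nat.add_le_add_left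
        ((Finset.card_union_le _ _).trans (Nat.add_le_add_left (Finset.card_union_le _ _) _)) _))
      have h7 : ((Cube r H).card : ℝ) ≤ (((Cube r H).filter (fun s => s ∈ goodᶜ)).card : ℝ) +
          ((((Cube r H).filter (fun s => s ∈ {s | s ∈ good ∧ nB B s ≠ g B})).card : ℝ) +
          ((((Cube r H).filter (fun s => s ∈ {s | s ∈ good ∧ nB B₁ s ≠ g B₁})).card : ℝ) +
          (((Cube r H).filter (fun s => s ∈ good ∧ B₁ < n s)).card : ℝ))) := by
        exact_mod_cast h6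
      rw [hcube] at h7
      have h8 := hT H
      linarith
    obtain ⟨s, -, a1, a2, a3, a4⟩ := hex
    have hs : s ∈ good := by
      by_contra hcon
      exact a1 hcon
    have hn : n s ≤ B₁ := by
      by_contra hcon
      exact a4 ⟨hs, not_le.1 hcon⟩
    have b1 : nB B s = g B := by
      by_contra hcon
      exact a2 ⟨hs, hcon⟩
    have b2 : nB B₁ s = g B₁ := by
      by_contra hcon
      exact a3 ⟨hs, hcon⟩
    rw [← b1, ← b2, h2 B s hs (hn.trans hB), h2 B₁ s hs hn]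
  refine ⟨g B₁, B₁, hconst, fun φ hφ => ?_⟩
  set G := g B₁ with hG
  rw [Metric.tendsto_atTop]
  intro ε hε
  obtain ⟨B₂, hB₂⟩ := tail_small φ hφ |φ G| (ε / (4 * (C + 1))) (abs_nonneg _) (by positivity)
  set B := max B₁ B₂ with hBdef
  have hgB : g B = G := hconst B (le_max_left _ _)
  set M : ℝ := Real.exp ((B : ℝ) ^ ((1 : ℝ) / 4)) + |φ G| with hM
  have hM0 : 0 < M := by
    have := Real.exp_pos ((B : ℝ) ^ ((1 : ℝ) / 4))
    have := abs_nonneg (φ G)
    linarith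
  set δ : ℝ := ε / (8 * M) with hδ
  have hδ0 : 0 < δ := by positivity
  obtain ⟨H1, hH1⟩ := null_card hgood (fun s => s ∈ goodᶜ) (fun _ h => h) δ hδ0
  obtain ⟨H2, hH2⟩ := null_card (h3 B) (fun s => s ∈ {s | s ∈ good ∧ nB B s ≠ g B})
    (fun _ h => h) δ hδ0
  refine ⟨max 1 (max H1 H2), fun H hH => ?_⟩
  have e1 := hH1 H ((le_max_left _ _).trans ((le_max_right _ _).trans hH))
  have e2 := hH2 H ((le_max_right _ _).trans ((le_max_right _ _).trans hH))
  have e3 := hC H ((le_max_left _ _).trans hH)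
  have hTH := hT H
  set T : ℝ := (2 * (H : ℝ) + 1) ^ r with hTdef
  have hφG : |φ G| ≤ M := by
    rw [hM]
    have := Real.exp_pos ((B : ℝ) ^ ((1 : ℝ) / 4))
    linarith
  -- the difference
  have hsplit : ((Cube r H).filter (fun s => s ∈ good)).card +
      ((Cube r H).filter (fun s => s ∈ goodᶜ)).card = (Cube r H).card := by
    have h := Finset.card_filter_add_card_filter_not (s := Cube r H) (fun s => s ∈ good)
    simpa only [Set.mem_compl_iff] using h
  have hdiff : (∑ s ∈ (Cube r H).filter (fun s => s ∈ good), φ (n s)) - φ G * T =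
      (∑ s ∈ (Cube r H).filter (fun s => s ∈ good), (φ (n s) - φ G)) -
        φ G * (((Cube r H).filter (fun s => s ∈ goodᶜ)).card : ℝ) := by
    have h4 : T = (((Cube r H).filter (fun s => s ∈ good)).card : ℝ) +
        (((Cube r H).filter (fun s => s ∈ goodᶜ)).card : ℝ) := by
      rw [hTdef, ← hcube H, ← hsplit]
      push_cast
      ring
    rw [h4, Finset.sum_sub_distrib, Finset.sum_const, nsmul_eq_mul]
    ring
  have hterm : ∀ s ∈ (Cube r H).filter (fun s => s ∈ good), |φ (n s) - φ G| ≤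
      (if s ∈ {s | s ∈ good ∧ nB B s ≠ g B} then M else 0) +
        ε / (4 * (C + 1)) * Real.exp ((n s : ℝ) ^ ((1 : ℝ) / 3)) := by
    intro s hs
    have hsg : s ∈ good := (Finset.mem_filter.1 hs).2
    have hpos : 0 ≤ ε / (4 * (C + 1)) * Real.exp ((n s : ℝ) ^ ((1 : ℝ) / 3)) := by
      have := Real.exp_pos ((n s : ℝ) ^ ((1 : ℝ) / 3))
      positivity
    rcases le_or_gt (n s) B with h4 | h4
    · by_cases h5 : s ∈ {s | s ∈ good ∧ nB B s ≠ g B}
      · rw [if_pos h5]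
        have h6 : |φ (n s) - φ G| ≤ |φ (n s)| + |φ G| := abs_sub _ _
        have h7 : |φ (n s)| ≤ Real.exp ((B : ℝ) ^ ((1 : ℝ) / 4)) := by
          refine (hφ (n s)).trans (Real.exp_le_exp.2 ?_)
          exact Real.rpow_le_rpow (Nat.cast_nonneg _) (by exact_mod_cast h4) (by norm_num)
        linarith
      · rw [if_neg h5, zero_add]
        have h6 : nB B s = g B := by
          by_contra hcon
          exact h5 ⟨hsg, hcon⟩
        have h7 : n s = G := by rw [← h2 B s hsg h4, h6, hgB]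
        rw [h7, sub_self, abs_zero]
        rw [h7] at hpos
        exact hpos
    · have h5 : |φ (n s)| + |φ G| ≤ ε / (4 * (C + 1)) * Real.exp ((n s : ℝ) ^ ((1 : ℝ) / 3)) :=
        hB₂ (n s) ((le_max_right _ _).trans_lt h4)
      have h6 : |φ (n s) - φ G| ≤ |φ (n s)| + |φ G| := abs_sub _ _
      have h7 : (0 : ℝ) ≤ if s ∈ {s | s ∈ good ∧ nB B s ≠ g B} then M else 0 := by
        split_ifs
        · exact hM0.le
        · exact le_rfl
      linarith
  have hsum : |∑ s ∈ (Cube r H).filter (fun s => s ∈ good), (φ (n s) - φ G)| ≤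
      M * (δ * T) + ε / (4 * (C + 1)) * (C * T) := by
    refine (Finset.abs_sum_le_sum_abs _ _).trans ((Finset.sum_le_sum hterm).trans ?_)
    rw [Finset.sum_add_distrib, ← Finset.mul_sum]
    refine add_le_add ?_ (mul_le_mul_of_nonneg_left e3 (by positivity))
    have h4 : ∑ s ∈ (Cube r H).filter (fun s => s ∈ good),
        (if s ∈ {s | s ∈ good ∧ nB B s ≠ g B} then M else 0) ≤
        ∑ s ∈ Cube r H, (if s ∈ {s | s ∈ good ∧ nB B s ≠ g B} then M else 0) := by
      refine Finset.sum_le_sum_of_subset_of_nonneg (Finset.filter_subset _ _) fun s _ _ => ?_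
      split_ifs
      · exact hM0.le
      · exact le_rfl
    refine h4.trans ?_
    rw [← Finset.sum_filter, Finset.sum_const, nsmul_eq_mul, mul_comm]
    exact mul_le_mul_of_nonneg_left e2 hM0.le
  rw [Real.dist_eq]
  have h4 : (∑ s ∈ (Cube r H).filter (fun s => s ∈ good), φ (n s)) / T - φ G =
      ((∑ s ∈ (Cube r H).filter (fun s => s ∈ good), φ (n s)) - φ G * T) / T := by
    rw [sub_div, mul_div_assoc, div_self hTH.ne', mul_one]
  rw [h4, abs_div, abs_of_pos hTH, div_lt_iff₀ hTH, hdiff]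
  have h5 : |φ G * (((Cube r H).filter (fun s => s ∈ goodᶜ)).card : ℝ)| ≤ M * (δ * T) := by
    rw [abs_mul, abs_of_nonneg (Nat.cast_nonneg _ : (0 : ℝ) ≤
      (((Cube r H).filter (fun s => s ∈ goodᶜ)).card : ℝ))]
    exact mul_le_mul hφG e1 (Nat.cast_nonneg _) hM0.le
  have h6 : M * (δ * T) = ε / 8 * T := by
    rw [hδ]
    field_simp
  have h7 : ε / (4 * (C + 1)) * (C * T) ≤ ε / 4 * T := by
    have h8 : ε / (4 * (C + 1)) * (C * T) = ε / 4 * T * (C / (C + 1)) := by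
      field_simp
    rw [h8]
    refine mul_le_of_le_one_right (by positivity) ?_
    rw [div_le_one (by linarith)]
    linarith
  calc |(∑ s ∈ (Cube r H).filter (fun s => s ∈ good), (φ (n s) - φ G)) -
        φ G * (((Cube r H).filter (fun s => s ∈ goodᶜ)).card : ℝ)|
      ≤ |∑ s ∈ (Cube r H).filter (fun s => s ∈ good), (φ (n s) - φ G)| +
        |φ G * (((Cube r H).filter (fun s => s ∈ goodᶜ)).card : ℝ)| := abs_sub _ _
    _ ≤ (M * (δ * T) + ε / (4 * (C + 1)) * (C * T)) + M * (δ * T) := add_le_add hsum h5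
    _ < ε * T := by
      rw [h6]
      have h9 : 0 < ε * T := mul_pos hε hTH
      linarith

end Pool.Agent.LIM
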