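import Mathlib
import Pool.Agent.LIM.Defs

set_option autoImplicit false

/-!
# The roots of bounded degree of a polynomial in terms of its irreducible factors
-/

namespace Pool.Agent.LIM

open Polynomial

namespace Cnt

variable {k L : Type} [Field k] [Field L] [Algebra k L]

/-- The roots in `L`. -/
noncomputable def rts (L : Type) [Field L] [Algebra k L] (p : k[X]) : Finset L :=
  letI := Classical.decEq L
  (p.map (algebraMap k L)).roots.toFinset

theorem mem_rts {p : k[X]} (hp : p ≠ 0) {x : L} : x ∈ rts L p ↔ aeval x p = 0 := by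
  classical
  unfold rts
  rw [Multiset.mem_toFinset, mem_roots', IsRoot.def, eval_map_algebraMap]
  refine ⟨fun h => h.2, fun h => ⟨?_, h⟩⟩
  exact (Polynomial.map_ne_zero_iff (algebraMap k L).injective).2 hp

theorem card_rts [IsAlgClosed L] {p : k[X]} (hp : p.Separable) :
    (rts L p).card = p.natDegree := by
  classical
  have h1 : (p.map (algebraMap k L)).roots.Nodup := nodup_roots hp.map
  have h2 : Multiset.card (p.map (algebraMap k L)).roots = (p.map (algebraMap k L)).natDegree :=
    splits_iff_card_roots.1 (IsAlgClosed.splits _)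
  unfold rts
  rw [Multiset.toFinset_card_of_nodup h1, h2, natDegree_map]

theorem minpoly_deg {p : k[X]} (hp : Irreducible p) {x : L} (hx : aeval x p = 0) :
    (minpoly k x).natDegree = p.natDegree := by
  rw [← minpoly.eq_of_irreducible hp hx, natDegree_mul_C]
  exact inv_ne_zero (leadingCoeff_ne_zero.2 hp.ne_zero)

theorem disj {p q : k[X]} (hp : p ≠ 0) (hq : q ≠ 0) (h : IsCoprime p q) :
    Disjoint (rts L p) (rts L q) := by
  rw [Finset.disjoint_left]
  intro x hx hy
  rw [mem_rts hp] at hx
  rw [mem_rts hq] at hy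
  obtain ⟨a, b, hab⟩ := h
  have h1 := congrArg (aeval x) hab
  rw [map_add, map_mul, map_mul, hx, hy, mul_zero, mul_zero, add_zero, map_one] at h1
  exact zero_ne_one h1

end Cnt

open Cnt in
theorem cnt_prod (k : Type) [Field k] [CharZero k] (N : ℕ) {ι : Type} (T : Finset ι)
    (P : ι → k[X]) (hirr : ∀ i ∈ T, Irreducible (P i))
    (hcop : ∀ i ∈ T, ∀ j ∈ T, i ≠ j → IsCoprime (P i) (P j)) (g : k[X])
    (hg : ∀ x : AlgebraicClosure k, aeval x g = 0 ↔ ∃ i ∈ T, aeval x (P i) = 0) :
    {x : AlgebraicClosure k | aeval x g = 0 ∧ (minpoly k x).natDegree ≤ N}.Finite ∧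
    cnt k N g = ∑ i ∈ T, if (P i).natDegree ≤ N then (P i).natDegree else 0 := by
  classical
  have hset : {x : AlgebraicClosure k | aeval x g = 0 ∧ (minpoly k x).natDegree ≤ N} =
      ↑(T.biUnion (fun i => if (P i).natDegree ≤ N then rts (AlgebraicClosure k) (P i)
        else ∅)) := by
    ext x
    rw [Finset.mem_coe, Finset.mem_biUnion]
    constructor
    · rintro ⟨h1, h2⟩
      obtain ⟨i, hi, hx⟩ := (hg x).1 h1
      rw [minpoly_deg (hirr i hi) hx] at h2
      refine ⟨i, hi, ?_⟩
      rw [if_pos h2, mem_rts (hirr i hi).ne_zero]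
      exact hx
    · rintro ⟨i, hi, hx⟩
      by_cases h2 : (P i).natDegree ≤ N
      · rw [if_pos h2, mem_rts (hirr i hi).ne_zero] at hx
        refine ⟨(hg x).2 ⟨i, hi, hx⟩, ?_⟩
        rw [minpoly_deg (hirr i hi) hx]
        exact h2
      · rw [if_neg h2] at hx
        exact absurd hx (Finset.notMem_empty x)
  refine ⟨?_, ?_⟩
  · rw [hset]
    exact Finset.finite_toSet _
  · unfold cnt
    rw [hset, Set.ncard_coe_finset, Finset.card_biUnion]
    · refine Finset.sum_congr rfl fun i hi => ?_
      by_cases h2 : (P i).natDegree ≤ N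
      · rw [if_pos h2, if_pos h2, card_rts (hirr i hi).separable]
      · rw [if_neg h2, if_neg h2, Finset.card_empty]
    · intro i hi j hj hij
      change Disjoint (if (P i).natDegree ≤ N then rts (AlgebraicClosure k) (P i) else ∅)
        (if (P j).natDegree ≤ N then rts (AlgebraicClosure k) (P j) else ∅)
      by_cases h2 : (P i).natDegree ≤ N
      · by_cases h3 : (P j).natDegree ≤ N
        · rw [if_pos h2, if_pos h3]
          exact disj (hirr i hi).ne_zero (hirr j hj).ne_zero (hcop i hi j hj hij)
        · rw [if_neg h3]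
          exact Finset.disjoint_empty_right _
      · rw [if_neg h2]
        exact Finset.disjoint_empty_left _

end Pool.Agent.LIM
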