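import Mathlib
import Pool.Agent.LIM.Defs
import Pool.Agent.LIM.NullS
import Pool.Agent.LIM.Hit
import Pool.Agent.LIM.Cnt
import Pool.Agent.LIM.Spr

set_option autoImplicit false

/-!
# The number of roots of degree at most `N` of the members of a family
-/

namespace Pool.Agent.LIM

open Polynomial NumberField
open Pool.Agent.FamK (ev spec)

/-- For almost all `s` the number of roots of degree at most `N` is the generic one. -/
theorem cnt_gen {K : Type} [Field K] [NumberField K] {r : ℕ} (N : ℕ)
    (w : (MvPolynomial (Fin r) (𝓞 K))[X]) (hw : w ≠ 0) :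
    Null {s : Fin r → ℤ | cnt K N (toK (spec s w)) ≠ cnt (GF r K) N (toG w)} := by
  obtain ⟨n, P, D, hD, hirr, hcop, hgen, hspec⟩ := spread w hw
  have h1 := null_zeros D hD
  have h2 : Null (⋃ i : Fin n, {s : Fin r → ℤ | ¬ ((spec s (P i)).natDegree = (P i).natDegree ∧
      Irreducible (toK (spec s (P i))))}) := Null.iUnion fun i => hit (P i) (hirr i).1 (hirr i).2
  refine Null.mono ?_ (Null.union h1 h2)
  intro s hs
  by_contra hn
  rw [Set.mem_union, not_or] at hn
  obtain ⟨hn1, hn2⟩ := hn
  have hD' : ev s D ≠ 0 := hn1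
  have hP : ∀ i, (spec s (P i)).natDegree = (P i).natDegree ∧
      Irreducible (toK (spec s (P i))) := by
    intro i
    by_contra h
    exact hn2 (Set.mem_iUnion.2 ⟨i, h⟩)
  obtain ⟨hc, hr⟩ := hspec s hD'
  have : CharZero (GF r K) :=
    charZero_of_injective_algebraMap (IsFractionRing.injective (MvPolynomial (Fin r) (𝓞 K)) _)
  have hG := (cnt_prod (GF r K) N Finset.univ (fun i => toG (P i)) (fun i _ => (hirr i).2)
    (fun i _ j _ hij => hcop i j hij) (toG w) (fun x => by simpa using hgen x)).2
  have hK := (cnt_prod K N Finset.univ (fun i => toK (spec s (P i))) (fun i _ => (hP i).2)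
    (fun i _ j _ hij => hc i j hij) (toK (spec s w)) (fun x => by simpa using hr x)).2
  refine hs ?_
  rw [hK, hG]
  refine Finset.sum_congr rfl fun i _ => ?_
  have e1 : (toG (P i)).natDegree = (P i).natDegree :=
    natDegree_map_eq_of_injective (IsFractionRing.injective (MvPolynomial (Fin r) (𝓞 K)) _) _
  have e2 : (toK (spec s (P i))).natDegree = (P i).natDegree := by
    rw [← (hP i).1]
    exact natDegree_map_eq_of_injective (IsFractionRing.injective (𝓞 K) K) _
  rw [e1, e2]

end Pool.Agent.LIM
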