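import Mathlib
import Pool.Agent.LIM.Defs

set_option autoImplicit false

/-!
# The number of preperiodic points with `b ≤ B`
-/

namespace Pool.Agent.LIM

open Polynomial NumberField
open Pool.Agent.RDF (lift wedge)
open Pool.Agent.FAM (Cube itP)

namespace PtB

theorem wedge_map {R S : Type*} [CommRing R] [CommRing S] (f : R →+* S) (p q : R × R) :
    f (wedge p q) = wedge (f p.1, f p.2) (f q.1, f q.2) := by
  unfold RDF.wedge
  rw [map_sub, map_mul, map_mul]

theorem eval_itP {k L : Type*} [Field k] [Field L] [Algebra k L] (d n : ℕ) (F G : k[X]) (x : L) :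
    (aeval x (itP d n F G).1, aeval x (itP d n F G).2) =
      (lift d (F.map (algebraMap k L)) (G.map (algebraMap k L)))^[n] (x, 1) := by
  have h := RDF.iter_map (aeval x : k[X] →ₐ[k] L).toRingHom d n (F.map C) (G.map C)
    ((X : k[X]), (1 : k[X]))
  have e : ∀ P : k[X], ((P.map (C : k →+* k[X])).map (aeval x : k[X] →ₐ[k] L).toRingHom) =
      P.map (algebraMap k L) := by
    intro P
    rw [Polynomial.map_map]
    congr 1
    ext a
    simp
  rw [e, e] at h
  unfold FAM.itP
  rw [Prod.map_def] at h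
  simpa using h

theorem aeval_WB {k L : Type*} [Field k] [Field L] [Algebra k L] (d B : ℕ) (F G : k[X]) (x : L) :
    aeval x (WB d B F G) = 0 ↔ ∃ a b : ℕ, a < b ∧ b ≤ B ∧
      wedge ((lift d (F.map (algebraMap k L)) (G.map (algebraMap k L)))^[a] (x, 1))
        ((lift d (F.map (algebraMap k L)) (G.map (algebraMap k L)))^[b] (x, 1)) = 0 := by
  have hw : ∀ a b : ℕ, aeval x (wedge (itP d a F G) (itP d b F G)) =
      wedge ((lift d (F.map (algebraMap k L)) (G.map (algebraMap k L)))^[a] (x, 1))
        ((lift d (F.map (algebraMap k L)) (G.map (algebraMap k L)))^[b] (x, 1)) := by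
    intro a b
    rw [← eval_itP, ← eval_itP]
    exact wedge_map (aeval x : k[X] →ₐ[k] L).toRingHom _ _
  unfold WB
  rw [map_prod, Finset.prod_eq_zero_iff]
  constructor
  · rintro ⟨b, hb, h⟩
    rw [map_prod, Finset.prod_eq_zero_iff] at h
    obtain ⟨a, ha, h⟩ := h
    rw [hw] at h
    exact ⟨a, b, Finset.mem_range.1 ha, Nat.lt_succ_iff.1 (Finset.mem_range.1 hb), h⟩
  · rintro ⟨a, b, hab, hb, h⟩
    refine ⟨b, Finset.mem_range.2 (Nat.lt_succ_iff.2 hb), ?_⟩
    rw [map_prod, Finset.prod_eq_zero_iff]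
    exact ⟨a, Finset.mem_range.2 hab, by rw [hw]; exact h⟩

theorem inf_iff {k L : Type*} [Field k] [Field L] [Algebra k L] (d a b : ℕ) (F G : k[X]) :
    wedge ((lift d (F.map (algebraMap k L)) (G.map (algebraMap k L)))^[a] (1, 0))
        ((lift d (F.map (algebraMap k L)) (G.map (algebraMap k L)))^[b] (1, 0)) = 0 ↔
      wedge ((lift d F G)^[a] (1, 0)) ((lift d F G)^[b] (1, 0)) = 0 := by
  have h := fun n => RDF.iter_map (algebraMap k L) d n F G ((1 : k), (0 : k))
  have h' : ∀ n, (lift d (F.map (algebraMap k L)) (G.map (algebraMap k L)))^[n] (1, 0) =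
      (algebraMap k L ((lift d F G)^[n] (1, 0)).1, algebraMap k L ((lift d F G)^[n] (1, 0)).2) := by
    intro n
    have := h n
    rw [Prod.map_def] at this
    simpa using this.symm
  rw [h' a, h' b, ← wedge_map, map_eq_zero]

end PtB

open PtB

open Classical in
theorem ncard_PtsB (k : Type) [Field k] (N d B : ℕ) (F G : k[X]) (h0 : WB d B F G ≠ 0) :
    (PtsB k N d B F G).Finite ∧ (PtsB k N d B F G).ncard = cnt k N (WB d B F G) +
      if 1 ≤ N ∧ ∃ a b : ℕ, a < b ∧ b ≤ B ∧
        wedge ((lift d F G)^[a] (1, 0)) ((lift d F G)^[b] (1, 0)) = 0 then 1 else 0 := by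
  set S : Set (AlgebraicClosure k) :=
    {x | aeval x (WB d B F G) = 0 ∧ (minpoly k x).natDegree ≤ N} with hS
  have hSfin : S.Finite := by
    refine ((WB d B F G).rootSet_finite (AlgebraicClosure k)).subset fun x hx => ?_
    rw [mem_rootSet_of_ne h0]
    exact hx.1
  set T : Set (AlgebraicClosure k × AlgebraicClosure k) :=
    if 1 ≤ N ∧ ∃ a b : ℕ, a < b ∧ b ≤ B ∧
        wedge ((lift d F G)^[a] (1, 0)) ((lift d F G)^[b] (1, 0)) = 0 then {(1, 0)} else ∅ with hT
  have hTfin : T.Finite := by
    rw [hT]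
    split_ifs
    · exact Set.finite_singleton _
    · exact Set.finite_empty
  have hmin : (minpoly k (1 : AlgebraicClosure k)).natDegree = 1 := by
    rw [minpoly.one, ← C_1, natDegree_X_sub_C]
  have hset : PtsB k N d B F G = (fun x => (x, (1 : AlgebraicClosure k))) '' S ∪ T := by
    ext p
    constructor
    · rintro ⟨h1, h2, a, b, hab, hb, h3⟩
      rcases h1 with h1 | h1
      · left
        refine ⟨p.1, ⟨?_, h2⟩, Prod.ext rfl h1.symm⟩
        rw [aeval_WB]
        refine ⟨a, b, hab, hb, ?_⟩
        have h4 : p = (p.1, 1) := Prod.ext rfl h1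
        rw [h4] at h3
        exact h3
      · right
        rw [h1] at h2 h3
        rw [hmin] at h2
        rw [inf_iff] at h3
        rw [hT, if_pos ⟨h2, a, b, hab, hb, h3⟩, h1]
        exact Set.mem_singleton _
    · rintro (⟨x, ⟨hx1, hx2⟩, rfl⟩ | hp)
      · exact ⟨Or.inl rfl, hx2, (aeval_WB d B F G x).1 hx1⟩
      · rw [hT] at hp
        split_ifs at hp with h1
        · rw [Set.mem_singleton_iff] at hp
          obtain ⟨h1, a, b, hab, hb, h3⟩ := h1
          rw [hp]
          refine ⟨Or.inr rfl, ?_, a, b, hab, hb, ?_⟩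
          · rw [hmin]
            exact h1
          · rw [inf_iff]
            exact h3
        · exact absurd hp (Set.notMem_empty _)
  have hinj : Function.Injective
      (fun x : AlgebraicClosure k => (x, (1 : AlgebraicClosure k))) := by
    intro x y hxy
    exact congrArg Prod.fst hxy
  have hdisj : Disjoint
      ((fun x : AlgebraicClosure k => (x, (1 : AlgebraicClosure k))) '' S) T := by
    rw [Set.disjoint_left]
    rintro p ⟨x, -, rfl⟩ hp
    rw [hT] at hp
    split_ifs at hp
    · rw [Set.mem_singleton_iff] at hp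
      exact one_ne_zero (congrArg Prod.snd hp)
    · exact absurd hp (Set.notMem_empty _)
  refine ⟨?_, ?_⟩
  · rw [hset]
    exact (hSfin.image _).union hTfin
  · rw [hset, Set.ncard_union_eq hdisj (hSfin.image _) hTfin, Set.ncard_image_of_injective _ hinj]
    congr 1
    rw [hT]
    split_ifs
    · exact Set.ncard_singleton _
    · exact Set.ncard_empty _

end Pool.Agent.LIM
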