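import Mathlib
import Pool.Agent.LIM.Defs

set_option autoImplicit false

/-!
# Different iterates are different
-/

namespace Pool.Agent.LIM

open Polynomial
open Pool.Agent.RDF (lift wedge form)
open Pool.Agent.FAM (itP)

section alg

theorem lift_itP_ne {L : Type*} [Field L] (d : ℕ) (hd : 1 ≤ d) (F G : L[X]) (hF : F.natDegree ≤ d)
    (hG : G.natDegree ≤ d) (hR : resultant F G d d ≠ 0) (n : ℕ) (z : L × L) (hz : z ≠ 0) :
    lift (d ^ n) (itP d n F G).1 (itP d n F G).2 z ≠ 0 := by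
  rw [FAM.IterAux.lift_itP]
  exact RDF.iter_ne_zero d hd F G hF hG hR n hz

variable {L : Type*} [Field L] [IsAlgClosed L]

theorem coprime_itP (d : ℕ) (hd : 1 ≤ d) (F G : L[X]) (hF : F.natDegree ≤ d)
    (hG : G.natDegree ≤ d) (hR : resultant F G d d ≠ 0) (n : ℕ) :
    IsCoprime (itP d n F G).1 (itP d n F G).2 := by
  rw [Polynomial.isCoprime_iff_aeval_ne_zero_of_isAlgClosed L L]
  intro β
  by_contra hcon
  push Not at hcon
  obtain ⟨h1, h2⟩ := hcon
  rw [Polynomial.coe_aeval_eq_eval] at h1 h2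
  have hdeg := FAM.IterAux.natDegree_itP d n F G
  apply lift_itP_ne d hd F G hF hG hR n (β, 1) (fun h => one_ne_zero (congrArg Prod.snd h))
  change (form (d ^ n) _ (β, 1), form (d ^ n) _ (β, 1)) = 0
  rw [RDF.form_affine _ _ hdeg.1 β 1 one_ne_zero, RDF.form_affine _ _ hdeg.2 β 1 one_ne_zero,
    div_one, h1, h2, mul_zero]
  rfl

theorem wedge_ne_alg (d : ℕ) (hd : 2 ≤ d) (F G : L[X])
    (hF : F.natDegree ≤ d) (hG : G.natDegree ≤ d) (hR : resultant F G d d ≠ 0) (a b : ℕ)
    (hab : a < b) : wedge (itP d a F G) (itP d b F G) ≠ 0 := by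
  intro h
  unfold wedge at h
  have hd1 : 1 ≤ d := by omega
  have ca := coprime_itP d hd1 F G hF hG hR a
  have cb := coprime_itP d hd1 F G hF hG hR b
  have da := FAM.IterAux.natDegree_itP d a F G
  set p := itP d a F G
  set q := itP d b F G with hq
  have h1 : p.1 * q.2 = q.1 * p.2 := sub_eq_zero.mp h
  have e1 : p.1 ∣ q.1 := ca.dvd_of_dvd_mul_right (h1 ▸ Dvd.intro _ rfl)
  have e2 : q.1 ∣ p.1 := cb.dvd_of_dvd_mul_right (h1 ▸ Dvd.intro _ rfl)
  have e3 : p.2 ∣ q.2 := ca.symm.dvd_of_dvd_mul_left (h1 ▸ Dvd.intro_left _ rfl)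
  have e4 : q.2 ∣ p.2 := cb.symm.dvd_of_dvd_mul_left (h1 ▸ Dvd.intro_left _ rfl)
  have hlt : d ^ a < d ^ b := Nat.pow_lt_pow_right (by omega) hab
  have key : ∀ u v : L[X], u ∣ v → v ∣ u → u.natDegree ≤ d ^ a → v.coeff (d ^ b) = 0 := by
    intro u v huv hvu hu
    by_cases h0 : u = 0
    · subst h0
      rw [zero_dvd_iff.mp huv, coeff_zero]
    · exact coeff_eq_zero_of_natDegree_lt (((natDegree_le_of_dvd hvu h0).trans hu).trans_lt hlt)
  apply lift_itP_ne d hd1 F G hF hG hR b (1, 0) (fun h => one_ne_zero (congrArg Prod.fst h))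
  change (form (d ^ b) q.1 (1, 0), form (d ^ b) q.2 (1, 0)) = 0
  rw [RDF.form_infty, RDF.form_infty, key _ _ e1 e2 da.1, key _ _ e3 e4 da.2, zero_mul]
  rfl

end alg

theorem wedge_itP_map {A A' : Type*} [CommRing A] [CommRing A'] (f : A →+* A') (d a b : ℕ)
    (F G : A[X]) : wedge (itP d a (F.map f) (G.map f)) (itP d b (F.map f) (G.map f)) =
      (wedge (itP d a F G) (itP d b F G)).map f := by
  rw [FAM.IterAux.itP_map, FAM.IterAux.itP_map]
  unfold wedge
  rw [Polynomial.map_sub, Polynomial.map_mul, Polynomial.map_mul]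

theorem wedge_ne {A : Type} [CommRing A] [IsDomain A] (d : ℕ) (hd : 2 ≤ d) (F G : A[X])
    (hF : F.natDegree ≤ d) (hG : G.natDegree ≤ d) (hR : resultant F G d d ≠ 0) (a b : ℕ)
    (hab : a < b) : wedge (itP d a F G) (itP d b F G) ≠ 0 := by
  set f : A →+* AlgebraicClosure (FractionRing A) :=
    (algebraMap (FractionRing A) (AlgebraicClosure (FractionRing A))).comp
      (algebraMap A (FractionRing A)) with hf
  have hinj : Function.Injective f :=
    (algebraMap (FractionRing A) (AlgebraicClosure (FractionRing A))).injective.comp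
      (IsFractionRing.injective A (FractionRing A))
  have hR' : resultant (F.map f) (G.map f) d d ≠ 0 := by
    rw [resultant_map_map]
    exact (map_ne_zero_iff f hinj).2 hR
  have h := wedge_ne_alg d hd (F.map f) (G.map f) (natDegree_map_le.trans hF)
    (natDegree_map_le.trans hG) hR' a b hab
  rw [wedge_itP_map] at h
  intro h0
  rw [h0, Polynomial.map_zero] at h
  exact h rfl

theorem WB_ne {A : Type} [CommRing A] [IsDomain A] (d B : ℕ) (hd : 2 ≤ d) (F G : A[X])
    (hF : F.natDegree ≤ d) (hG : G.natDegree ≤ d) (hR : resultant F G d d ≠ 0) :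
    WB d B F G ≠ 0 := by
  unfold WB
  rw [Finset.prod_ne_zero_iff]
  intro b _
  rw [Finset.prod_ne_zero_iff]
  intro a ha
  exact wedge_ne d hd F G hF hG hR a b (Finset.mem_range.mp ha)

theorem WB_map {A A' : Type} [CommRing A] [CommRing A'] (f : A →+* A') (d B : ℕ) (F G : A[X]) :
    WB d B (F.map f) (G.map f) = (WB d B F G).map f := by
  unfold WB
  rw [Polynomial.map_prod]
  refine Finset.prod_congr rfl fun b _ => ?_
  rw [Polynomial.map_prod]
  exact Finset.prod_congr rfl fun a _ => wedge_itP_map f d a b F G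

end Pool.Agent.LIM
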