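import Mathlib
import Pool.Agent.LIM.Defs
import Pool.Agent.LIM.NullS
import Pool.Agent.LIM.CntG
import Pool.Agent.LIM.Wed
import Pool.Agent.LIM.PtB

set_option autoImplicit false

/-!
# The number of preperiodic points with `b ≤ B` in the members of a family
-/

namespace Pool.Agent.LIM

open Polynomial NumberField
open Pool.Agent.RDF (lift wedge)
open Pool.Agent.FAM (Cube itP)
open Pool.Agent.FamK (ev spec)

theorem wedge_map {A A' : Type} [CommRing A] [CommRing A'] (f : A →+* A') (d : ℕ) (F G : A[X])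
    (a b : ℕ) : wedge ((lift d (F.map f) (G.map f))^[a] (1, 0))
      ((lift d (F.map f) (G.map f))^[b] (1, 0)) =
      f (wedge ((lift d F G)^[a] (1, 0)) ((lift d F G)^[b] (1, 0))) := by
  have h := fun n => RDF.iter_map f d n F G ((1 : A), (0 : A))
  have e : Prod.map f f ((1 : A), (0 : A)) = ((1 : A'), (0 : A')) := by simp
  simp only [e] at h
  rw [← h a, ← h b]
  simp [wedge]

open Classical in
theorem PtsB_gen {K : Type} [Field K] [NumberField K] {r : ℕ} (N d B : ℕ) (hd : 2 ≤ d)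
    (F G : (MvPolynomial (Fin r) (𝓞 K))[X]) (hF : F.natDegree ≤ d) (hG : G.natDegree ≤ d)
    (hR : resultant F G d d ≠ 0) :
    (PtsB (GF r K) N d B (toG F) (toG G)).Finite ∧
    Null {s : Fin r → ℤ | ev s (resultant F G d d) ≠ 0 ∧
      (PtsB K N d B (toK (spec s F)) (toK (spec s G))).ncard ≠
        (PtsB (GF r K) N d B (toG F) (toG G)).ncard} := by
  have hW : WB d B F G ≠ 0 := WB_ne d B hd F G hF hG hR
  have hinjG : Function.Injective (algebraMap (MvPolynomial (Fin r) (𝓞 K)) (GF r K)) :=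
    IsFractionRing.injective _ _
  have hinjK : Function.Injective (algebraMap (𝓞 K) K) := IsFractionRing.injective _ _
  have eG : WB d B (toG F) (toG G) = toG (WB d B F G) := WB_map _ d B F G
  have hWG : WB d B (toG F) (toG G) ≠ 0 := by
    rw [eG]
    exact (Polynomial.map_ne_zero_iff hinjG).2 hW
  obtain ⟨hfin, hcard⟩ := ncard_PtsB (GF r K) N d B (toG F) (toG G) hWG
  refine ⟨hfin, ?_⟩
  set c : ℕ → ℕ → MvPolynomial (Fin r) (𝓞 K) := fun a b =>
    wedge ((lift d F G)^[a] (1, 0)) ((lift d F G)^[b] (1, 0)) with hc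
  have h1 := cnt_gen N (WB d B F G) hW
  have h2 : Null (⋃ t : Fin (B + 1) × Fin (B + 1),
      {s : Fin r → ℤ | c t.1 t.2 ≠ 0 ∧ ev s (c t.1 t.2) = 0}) := by
    refine Null.iUnion fun t => ?_
    by_cases h : c t.1 t.2 = 0
    · intro ε hε
      refine ⟨0, fun H _ => ?_⟩
      have : {s : Fin r → ℤ | c t.1 t.2 ≠ 0 ∧ ev s (c t.1 t.2) = 0} = ∅ := by
        ext s
        simp [h]
      rw [this, Set.inter_empty, Set.ncard_empty]
      push_cast
      positivity
    · exact Null.mono (fun s hs => hs.2) (null_zeros (c t.1 t.2) h)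
  refine Null.mono ?_ (Null.union h1 h2)
  rintro s ⟨hs, hne⟩
  by_contra hn
  rw [Set.mem_union, not_or] at hn
  obtain ⟨hn1, hn2⟩ := hn
  have hn1' : cnt K N (toK (spec s (WB d B F G))) = cnt (GF r K) N (toG (WB d B F G)) := by
    by_contra h
    exact hn1 h
  have hn2' : ∀ a b : ℕ, a ≤ B → b ≤ B → (ev s (c a b) = 0 ↔ c a b = 0) := by
    intro a b ha hb
    refine ⟨fun h => ?_, fun h => by rw [h, map_zero]⟩
    by_contra h0
    exact hn2 (Set.mem_iUnion.2 ⟨(⟨a, by omega⟩, ⟨b, by omega⟩), h0, h⟩)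
  have hWs : WB d B (spec s F) (spec s G) ≠ 0 :=
    WB_ne d B hd _ _ (FamK.spec_natDegree_le s F hF) (FamK.spec_natDegree_le s G hG)
      (by rw [FamK.spec_res]; exact hs)
  have eK : WB d B (toK (spec s F)) (toK (spec s G)) = toK (WB d B (spec s F) (spec s G)) :=
    WB_map _ d B _ _
  have eS : WB d B (spec s F) (spec s G) = spec s (WB d B F G) := WB_map (ev s) d B F G
  have hWK : WB d B (toK (spec s F)) (toK (spec s G)) ≠ 0 := by
    rw [eK]
    exact (Polynomial.map_ne_zero_iff hinjK).2 hWs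
  obtain ⟨_, hcardK⟩ := ncard_PtsB K N d B (toK (spec s F)) (toK (spec s G)) hWK
  refine hne ?_
  rw [hcardK, hcard, eK, eS, eG, hn1']
  congr 1
  have hiff : (∃ a b : ℕ, a < b ∧ b ≤ B ∧ wedge ((lift d (toK (spec s F)) (toK (spec s G)))^[a]
      (1, 0)) ((lift d (toK (spec s F)) (toK (spec s G)))^[b] (1, 0)) = 0) ↔
      ∃ a b : ℕ, a < b ∧ b ≤ B ∧ wedge ((lift d (toG F) (toG G))^[a] (1, 0))
        ((lift d (toG F) (toG G))^[b] (1, 0)) = 0 := by
    refine exists_congr fun a => exists_congr fun b => and_congr_right fun hab =>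
      and_congr_right fun hb => ?_
    unfold toK toG spec
    rw [wedge_map, wedge_map, wedge_map, map_eq_zero_iff _ hinjK, map_eq_zero_iff _ hinjG]
    exact hn2' a b (by omega) hb
  simp only [hiff]

end Pool.Agent.LIM
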