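import Mathlib
import Pool.Agent.LIM.Defs
import Pool.Agent.LIM.NullL
import Pool.Agent.LIM.Pig
import Pool.Agent.FAM.KTop
import Pool.Agent.LIM.LimA
import Pool.Agent.LIM.PtG

set_option autoImplicit false

/-!
# The limit of the average over an algebraic family
-/

namespace Pool.Agent.LIM

open Polynomial NumberField Filter
open Pool.Agent.RDF (lift wedge)
open Pool.Agent.FAM (Cube itP)
open Pool.Agent.FamK (ev spec Varies)

theorem PtsB_mono (k : Type) [Field k] (N d : ℕ) (F G : k[X]) {B B' : ℕ} (h : B ≤ B') :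
    PtsB k N d B F G ⊆ PtsB k N d B' F G := by
  rintro p ⟨h1, h2, a, b, hab, hb, h3⟩
  exact ⟨h1, h2, a, b, hab, hb.trans h, h3⟩

theorem Pts_eq_iUnion (k : Type) [Field k] (N d : ℕ) (F G : k[X]) :
    Pts k N d F G = ⋃ B : ℕ, PtsB k N d B F G := by
  ext p
  rw [Set.mem_iUnion]
  constructor
  · rintro ⟨h1, h2, a, b, hab, h3⟩
    exact ⟨b, h1, h2, a, b, hab, le_rfl, h3⟩
  · rintro ⟨B, h1, h2, a, b, hab, hb, h3⟩
    exact ⟨h1, h2, a, b, hab, h3⟩

/-- If the numbers of points with `b ≤ B` are eventually constant, then `Pts` is finite. -/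
theorem Pts_of_const (k : Type) [Field k] (N d : ℕ) (F G : k[X]) {n B₀ : ℕ}
    (hfin : ∀ B, (PtsB k N d B F G).Finite) (h : ∀ B, B₀ ≤ B → (PtsB k N d B F G).ncard = n) :
    (Pts k N d F G).Finite ∧ (Pts k N d F G).ncard = n := by
  have h1 : Pts k N d F G = PtsB k N d B₀ F G := by
    rw [Pts_eq_iUnion]
    refine subset_antisymm (Set.iUnion_subset fun B => ?_)
      (Set.subset_iUnion (fun B => PtsB k N d B F G) B₀)
    have h2 : PtsB k N d B₀ F G = PtsB k N d (max B B₀) F G :=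
      Set.eq_of_subset_of_ncard_le (PtsB_mono k N d F G (le_max_right _ _))
        (by rw [h _ (le_max_right _ _), h _ le_rfl]) (hfin _)
    rw [h2]
    exact PtsB_mono k N d F G (le_max_left _ _)
  rw [h1]
  exact ⟨hfin _, h _ le_rfl⟩

theorem toK_natDegree_le {K : Type} [Field K] [NumberField K] {d : ℕ} {f : (𝓞 K)[X]}
    (h : f.natDegree ≤ d) : (toK f).natDegree ≤ d :=
  natDegree_map_le.trans h

theorem toK_res {K : Type} [Field K] [NumberField K] (F G : (𝓞 K)[X]) (d : ℕ)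
    (h : resultant F G d d ≠ 0) : resultant (toK F) (toK G) d d ≠ 0 := by
  unfold toK
  rw [resultant_map_map]
  exact (map_ne_zero_iff _ (FaithfulSMul.algebraMap_injective (𝓞 K) K)).2 h

theorem sum_set {α : Type*} (S : Finset α) (P : α → Prop) (i1 : DecidablePred P)
    (i2 : DecidablePred fun s => s ∈ {s | P s}) (f : α → ℝ) :
    ∑ s ∈ @Finset.filter α (fun s => s ∈ {s | P s}) i2 S, f s =
      ∑ s ∈ @Finset.filter α P i1 S, f s := by
  refine Finset.sum_congr ?_ fun _ _ => rfl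
  ext s
  rw [Finset.mem_filter, Finset.mem_filter]
  exact Iff.rfl

open Classical in
/-- THEOREM LIM. -/
theorem limit {K : Type} [Field K] [NumberField K] (N : ℕ) {r d : ℕ} (hd : 2 ≤ d)
    (F G : (MvPolynomial (Fin r) (𝓞 K))[X])
    (hF : F.natDegree ≤ d) (hG : G.natDegree ≤ d) (hR : resultant F G d d ≠ 0)
    (hv : Varies d F G) :
    (∀ s : Fin r → ℤ, ev s (resultant F G d d) ≠ 0 →
      (Pts K N d (toK (spec s F)) (toK (spec s G))).Finite) ∧
    (Pts (GF r K) N d (toG F) (toG G)).Finite ∧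
    ∀ φ : ℕ → ℝ, (∀ n : ℕ, |φ n| ≤ Real.exp ((n : ℝ) ^ ((1 : ℝ) / 4))) →
      Tendsto (fun H : ℕ => (∑ s ∈ (Cube r H).filter (fun s => ev s (resultant F G d d) ≠ 0),
        φ (Pts K N d (toK (spec s F)) (toK (spec s G))).ncard) / (2 * (H : ℝ) + 1) ^ r)
        atTop (nhds (φ (Pts (GF r K) N d (toG F) (toG G)).ncard)) := by
  obtain ⟨hfin, C, hC⟩ := FamK.average N hd F G hF hG hR hv
  simp only [pts_famK] at hfin hC
  have hz : Null {s : Fin r → ℤ | ev s (resultant F G d d) ≠ 0}ᶜ := by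
    refine Null.mono (fun s hs => ?_) (null_zeros (resultant F G d d) hR)
    exact not_not.1 hs
  obtain ⟨n, B₀, hg, hlim⟩ := limA {s : Fin r → ℤ | ev s (resultant F G d d) ≠ 0}
    (fun s => (Pts K N d (toK (spec s F)) (toK (spec s G))).ncard)
    (fun B s => (PtsB K N d B (toK (spec s F)) (toK (spec s G))).ncard)
    (fun B => (PtsB (GF r K) N d B (toG F) (toG G)).ncard) hz C
    (fun H hH => (sum_set _ _ _ _ _).le.trans (hC H hH))
    (fun B s hs hB => by
      rw [← Pts_eq_PtsB K N d B (by omega) (toK (spec s F)) (toK (spec s G))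
        (toK_natDegree_le (FamK.spec_natDegree_le s F hF))
        (toK_natDegree_le (FamK.spec_natDegree_le s G hG))
        (toK_res _ _ _ (by rw [FamK.spec_res]; exact hs)) (hfin s hs) hB])
    (fun B => (PtsB_gen N d B hd F G hF hG hR).2)
  obtain ⟨h1, h2⟩ := Pts_of_const (GF r K) N d (toG F) (toG G)
    (fun B => (PtsB_gen N d B hd F G hF hG hR).1) hg
  refine ⟨hfin, h1, fun φ hφ => ?_⟩
  rw [h2]
  exact (tendsto_congr fun H : ℕ => congrArg (· / (2 * (H : ℝ) + 1) ^ r)
    (sum_set _ _ _ _ _)).1 (hlim φ hφ)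

end Pool.Agent.LIM
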