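import Mathlib
import Pool.Agent.LIM.Defs

set_option autoImplicit false

/-!
# The family of all rational functions of degree at most `d`
-/

namespace Pool.Agent.LIM.Ex

open Polynomial NumberField

/-- The numerator of the family of all rational functions of degree at most `d`. -/
noncomputable def allF (K : Type) [Field K] [NumberField K] (d : ℕ) :
    (MvPolynomial (Fin (d + 1 + (d + 1))) (𝓞 K))[X] :=
  ∑ i : Fin (d + 1), C (MvPolynomial.X (Fin.castAdd (d + 1) i)) * X ^ (i : ℕ)

/-- The denominator of the family of all rational functions of degree at most `d`. -/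
noncomputable def allG (K : Type) [Field K] [NumberField K] (d : ℕ) :
    (MvPolynomial (Fin (d + 1 + (d + 1))) (𝓞 K))[X] :=
  ∑ i : Fin (d + 1), C (MvPolynomial.X (Fin.natAdd (d + 1) i)) * X ^ (i : ℕ)

/-- The polynomial with the coefficients `a`. -/
noncomputable def poly (K : Type) [Field K] {d : ℕ} (a : Fin (d + 1) → ℤ) : K[X] :=
  ∑ i : Fin (d + 1), C ((a i : ℤ) : K) * X ^ (i : ℕ)

theorem coeff_sum {R : Type} [CommRing R] {d : ℕ} (c : Fin (d + 1) → R) (j : ℕ) (hj : j ≤ d) :
    (∑ i : Fin (d + 1), C (c i) * X ^ (i : ℕ) : R[X]).coeff j = c ⟨j, by omega⟩ := by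
  rw [finset_sum_coeff, Finset.sum_eq_single (⟨j, by omega⟩ : Fin (d + 1))]
  · simp
  · intro i _ hi
    rw [coeff_C_mul, coeff_X_pow, if_neg, mul_zero]
    intro h
    exact hi (Fin.ext h.symm)
  · intro h
    exact absurd (Finset.mem_univ _) h

theorem natDegree_sum_le {R : Type} [CommRing R] {d : ℕ} (c : Fin (d + 1) → R) :
    (∑ i : Fin (d + 1), C (c i) * X ^ (i : ℕ) : R[X]).natDegree ≤ d :=
  natDegree_sum_le_of_forall_le _ _ fun i _ =>
    (natDegree_C_mul_X_pow_le _ _).trans (by omega)

theorem coeff_allF (K : Type) [Field K] [NumberField K] (d j : ℕ) (hj : j ≤ d) :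
    (allF K d).coeff j = MvPolynomial.X (Fin.castAdd (d + 1) ⟨j, by omega⟩) :=
  coeff_sum _ j hj

theorem coeff_allG (K : Type) [Field K] [NumberField K] (d j : ℕ) (hj : j ≤ d) :
    (allG K d).coeff j = MvPolynomial.X (Fin.natAdd (d + 1) ⟨j, by omega⟩) :=
  coeff_sum _ j hj

theorem natDegree_allF (K : Type) [Field K] [NumberField K] (d : ℕ) :
    (allF K d).natDegree ≤ d :=
  natDegree_sum_le _

theorem natDegree_allG (K : Type) [Field K] [NumberField K] (d : ℕ) :
    (allG K d).natDegree ≤ d :=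
  natDegree_sum_le _

end Pool.Agent.LIM.Ex
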