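import Mathlib
import Pool.Agent.RDF.Defs
import Pool.Agent.RDF.Basic

set_option autoImplicit false

/-!
# A rational function all of whose preperiodic points off one annulus are fixed eventually
-/

namespace Pool.Agent.LIM.Ex

open Polynomial
open Pool.Agent.RDF (lift wedge form)

namespace Dyn

variable {L Γ : Type} [Field L] [LinearOrderedCommGroupWithZero Γ]

/-- One dominating term. -/
theorem form_val (v : Valuation L Γ) (d : ℕ) (F : L[X]) (p : L × L) (j : ℕ) (hj : j ≤ d) (M : Γ)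
    (hM : 0 < M) (hjM : v (F.coeff j) * v p.1 ^ j * v p.2 ^ (d - j) = M)
    (h : ∀ i, i ≤ d → i ≠ j → v (F.coeff i) * v p.1 ^ i * v p.2 ^ (d - i) < M) :
    v (form d F p) = M := by
  classical
  have hj' : j ∈ Finset.range (d + 1) := Finset.mem_range.2 (by omega)
  have hv : ∀ i, v (F.coeff i * p.1 ^ i * p.2 ^ (d - i)) =
      v (F.coeff i) * v p.1 ^ i * v p.2 ^ (d - i) := by
    intro i
    rw [map_mul, map_mul, map_pow, map_pow]
  rw [form, ← Finset.add_sum_erase _ _ hj']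
  have h1 : v (∑ i ∈ (Finset.range (d + 1)).erase j, F.coeff i * p.1 ^ i * p.2 ^ (d - i)) < M := by
    refine v.map_sum_lt hM.ne' fun i hi => ?_
    rw [Finset.mem_erase, Finset.mem_range] at hi
    rw [hv]
    exact h i (by omega) hi.1
  rw [v.map_add_eq_of_lt_left, hv, hjM]
  rw [hv, hjM]
  exact h1

theorem form_le (v : Valuation L Γ) (d : ℕ) (F : L[X]) (p : L × L) (M : Γ)
    (h : ∀ i, i ≤ d → v (F.coeff i) * v p.1 ^ i * v p.2 ^ (d - i) ≤ M) :
    v (form d F p) ≤ M := by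
  rw [form]
  refine v.map_sum_le fun i hi => ?_
  rw [Finset.mem_range] at hi
  rw [map_mul, map_mul, map_pow, map_pow]
  exact h i (by omega)

/-- The hypotheses on the coefficients. -/
structure Hyp (v : Valuation L Γ) (g : Γ) (d : ℕ) (F G : L[X]) : Prop where
  hg : 1 < g
  hd : 2 ≤ d
  hF0 : v (F.coeff 0) = g ^ 3
  hF : ∀ i, 1 ≤ i → i ≤ d → v (F.coeff i) = g ^ 2
  hG0 : v (G.coeff 0) = g ^ 2
  hG : ∀ i, 1 ≤ i → i ≤ d → v (G.coeff i) = 1

theorem mixA (g X Y : Γ) (hg : 1 < g) (d i : ℕ) (hi : i ≤ d) (h : X ^ d < g * Y ^ d) :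
    X ^ i * Y ^ (d - i) < g * Y ^ d := by
  have hY : 0 < Y ^ d := by
    refine lt_of_le_of_ne zero_le fun h0 => ?_
    rw [← h0, mul_zero] at h
    exact absurd h not_lt_zero
  rcases le_or_gt X Y with hXY | hXY
  · calc X ^ i * Y ^ (d - i) ≤ Y ^ i * Y ^ (d - i) :=
        mul_le_mul_left (pow_le_pow_left₀ zero_le hXY i) _
      _ = 1 * Y ^ d := by rw [one_mul, ← pow_add, Nat.add_sub_cancel' hi]
      _ < g * Y ^ d := mul_lt_mul_of_pos_right hg hY
  · calc X ^ i * Y ^ (d - i) ≤ X ^ i * X ^ (d - i) :=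
        mul_le_mul_right (pow_le_pow_left₀ zero_le hXY.le _) _
      _ = X ^ d := by rw [← pow_add, Nat.add_sub_cancel' hi]
      _ < g * Y ^ d := h

theorem mixC_le (X Y : Γ) (d i : ℕ) (hi : i ≤ d) (h : Y < X) :
    X ^ i * Y ^ (d - i) ≤ X ^ d := by
  calc X ^ i * Y ^ (d - i) ≤ X ^ i * X ^ (d - i) :=
        mul_le_mul_right (pow_le_pow_left₀ zero_le h.le _) _
    _ = X ^ d := by rw [← pow_add, Nat.add_sub_cancel' hi]

theorem mixC_lt (X Y : Γ) (d i : ℕ) (hi : i < d) (h : Y < X) :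
    X ^ i * Y ^ (d - i) < X ^ d := by
  have hX : 0 < X := lt_of_le_of_lt zero_le h
  calc X ^ i * Y ^ (d - i) < X ^ i * X ^ (d - i) :=
        mul_lt_mul_of_pos_left (pow_lt_pow_left₀ h zero_le (by omega)) (pow_pos hX i)
    _ = X ^ d := by rw [← pow_add, Nat.add_sub_cancel' hi.le]

/-- The large region. -/
def InC (v : Valuation L Γ) (g : Γ) (d : ℕ) (p : L × L) : Prop :=
  0 < v p.1 ∧ g ^ 2 * v p.2 ^ d ≤ v p.1 ^ d

/-- The disc around infinity. -/
def InV (v : Valuation L Γ) (g : Γ) (p : L × L) : Prop :=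
  0 < v p.1 ∧ g ^ 2 * v p.2 ≤ v p.1

theorem InV.inC {v : Valuation L Γ} {g : Γ} {d : ℕ} (hg : 1 < g) (hd : 1 ≤ d) {p : L × L}
    (h : InV v g p) : InC v g d p := by
  refine ⟨h.1, ?_⟩
  calc g ^ 2 * v p.2 ^ d ≤ (g ^ 2) ^ d * v p.2 ^ d :=
        mul_le_mul_left (le_self_pow₀ (one_le_pow₀ hg.le) (by omega)) _
    _ = (g ^ 2 * v p.2) ^ d := (mul_pow _ _ _).symm
    _ ≤ v p.1 ^ d := pow_le_pow_left₀ zero_le h.2 d

theorem InC.lt {v : Valuation L Γ} {g : Γ} {d : ℕ} (hg : 1 < g) {p : L × L}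
    (h : InC v g d p) : v p.2 < v p.1 := by
  by_contra hle
  rw [not_lt] at hle
  have h0 : 0 < v p.2 := h.1.trans_le hle
  have h1 : v p.1 ^ d ≤ v p.2 ^ d := pow_le_pow_left₀ zero_le hle d
  have h2 : v p.2 ^ d < g ^ 2 * v p.2 ^ d := by
    have : 1 * v p.2 ^ d < g ^ 2 * v p.2 ^ d :=
      mul_lt_mul_of_pos_right (one_lt_pow₀ hg (by omega)) (pow_pos h0 d)
    rwa [one_mul] at this
  exact absurd (h2.trans_le (h.2.trans h1)) (lt_irrefl _)

theorem InC.valF {v : Valuation L Γ} {g : Γ} {d : ℕ} {F G : L[X]} (H : Hyp v g d F G)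
    {p : L × L} (h : InC v g d p) : v (form d F p) = g ^ 2 * v p.1 ^ d := by
  have hd := H.hd
  have hg := H.hg
  have hg0 : 0 < g := zero_lt_one.trans hg
  have hlt := h.lt hg
  refine form_val v d F p d le_rfl _ (mul_pos (pow_pos hg0 2) (pow_pos h.1 d)) ?_ ?_
  · rw [H.hF d (by omega) le_rfl, Nat.sub_self, pow_zero, mul_one]
  · intro i hi hid
    rcases Nat.eq_zero_or_pos i with rfl | h0
    · rw [H.hF0, pow_zero, mul_one, Nat.sub_zero]
      rcases eq_or_ne (v p.2) 0 with hy | hy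
      · rw [hy, zero_pow (by omega), mul_zero]
        exact mul_pos (pow_pos hg0 2) (pow_pos h.1 d)
      · have hy0 : 0 < v p.2 := lt_of_le_of_ne zero_le (Ne.symm hy)
        calc g ^ 3 * v p.2 ^ d < g ^ 2 * (g ^ 2 * v p.2 ^ d) := by
              rw [← mul_assoc, ← pow_add]
              exact mul_lt_mul_of_pos_right (pow_lt_pow_right₀ hg (by omega)) (pow_pos hy0 d)
          _ ≤ g ^ 2 * v p.1 ^ d := mul_le_mul_right h.2 _
    · rw [H.hF i h0 hi, mul_assoc]
      exact mul_lt_mul_of_pos_left (mixC_lt _ _ d i (by omega) hlt) (pow_pos hg0 2)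

theorem InC.valG {v : Valuation L Γ} {g : Γ} {d : ℕ} {F G : L[X]} (H : Hyp v g d F G)
    {p : L × L} (h : InC v g d p) : v (form d G p) ≤ v p.1 ^ d := by
  have hd := H.hd
  have hlt := h.lt H.hg
  refine form_le v d G p _ fun i hi => ?_
  rcases Nat.eq_zero_or_pos i with rfl | h0
  · rw [H.hG0, pow_zero, mul_one, Nat.sub_zero]
    exact h.2
  · rw [H.hG i h0 hi, one_mul]
    exact mixC_le _ _ d i hi hlt

theorem InC.inV {v : Valuation L Γ} {g : Γ} {d : ℕ} {F G : L[X]} (H : Hyp v g d F G)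
    {p : L × L} (h : InC v g d p) : InV v g (lift d F G p) := by
  have hg0 : 0 < g := zero_lt_one.trans H.hg
  refine ⟨?_, ?_⟩
  · change 0 < v (form d F p)
    rw [h.valF H]
    exact mul_pos (pow_pos hg0 2) (pow_pos h.1 d)
  · change g ^ 2 * v (form d G p) ≤ v (form d F p)
    rw [h.valF H]
    exact mul_le_mul_right (h.valG H) _

theorem inC_of_A {v : Valuation L Γ} {g : Γ} {d : ℕ} {F G : L[X]} (H : Hyp v g d F G)
    {p : L × L} (h : v p.1 ^ d < g * v p.2 ^ d) : InC v g d (lift d F G p) := by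
  have hd := H.hd
  have hg := H.hg
  have hg0 : 0 < g := zero_lt_one.trans hg
  have hY : 0 < v p.2 ^ d := by
    refine lt_of_le_of_ne zero_le fun h0 => ?_
    rw [← h0, mul_zero] at h
    exact absurd h not_lt_zero
  have hF : v (form d F p) = g ^ 3 * v p.2 ^ d := by
    refine form_val v d F p 0 (Nat.zero_le _) _ (mul_pos (pow_pos hg0 3) hY) ?_ ?_
    · rw [H.hF0, pow_zero, mul_one, Nat.sub_zero]
    · intro i hi h0
      rw [H.hF i (by omega) hi, mul_assoc]
      calc g ^ 2 * (v p.1 ^ i * v p.2 ^ (d - i)) < g ^ 2 * (g * v p.2 ^ d) :=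
            mul_lt_mul_of_pos_left (mixA g _ _ hg d i hi h) (pow_pos hg0 2)
        _ = g ^ 3 * v p.2 ^ d := by rw [← mul_assoc, ← pow_succ]
  have hG : v (form d G p) = g ^ 2 * v p.2 ^ d := by
    refine form_val v d G p 0 (Nat.zero_le _) _ (mul_pos (pow_pos hg0 2) hY) ?_ ?_
    · rw [H.hG0, pow_zero, mul_one, Nat.sub_zero]
    · intro i hi h0
      rw [H.hG i (by omega) hi, one_mul]
      calc v p.1 ^ i * v p.2 ^ (d - i) < g * v p.2 ^ d := mixA g _ _ hg d i hi h
        _ ≤ g ^ 2 * v p.2 ^ d := mul_le_mul_left (le_self_pow₀ hg.le (by omega)) _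
  refine ⟨?_, ?_⟩
  · change 0 < v (form d F p)
    rw [hF]
    exact mul_pos (pow_pos hg0 3) hY
  · change g ^ 2 * v (form d G p) ^ d ≤ v (form d F p) ^ d
    rw [hF, hG]
    have h1 : g ^ 3 * v p.2 ^ d = g * (g ^ 2 * v p.2 ^ d) := by
      rw [← mul_assoc, ← pow_succ']
    rw [h1, mul_pow g]
    exact mul_le_mul_left (pow_le_pow_right₀ hg.le hd) _

theorem inC_of_B {v : Valuation L Γ} {g : Γ} {d : ℕ} {F G : L[X]} (H : Hyp v g d F G)
    {p : L × L} (h1 : g * v p.2 ^ d < v p.1 ^ d) (h2 : v p.1 ^ d < g ^ 2 * v p.2 ^ d) :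
    InC v g d (lift d F G p) := by
  have hd := H.hd
  have hg := H.hg
  have hg0 : 0 < g := zero_lt_one.trans hg
  have hY : 0 < v p.2 ^ d := by
    refine lt_of_le_of_ne zero_le fun h0 => ?_
    rw [← h0, mul_zero] at h2
    exact absurd h2 not_lt_zero
  have hlt : v p.2 < v p.1 := by
    refine lt_of_pow_lt_pow_left₀ d zero_le (lt_of_le_of_lt ?_ h1)
    have : 1 * v p.2 ^ d ≤ g * v p.2 ^ d := mul_le_mul_left hg.le _
    rwa [one_mul] at this
  have hX : 0 < v p.1 := lt_of_le_of_lt zero_le hlt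
  have hF : v (form d F p) = g ^ 2 * v p.1 ^ d := by
    refine form_val v d F p d le_rfl _ (mul_pos (pow_pos hg0 2) (pow_pos hX d)) ?_ ?_
    · rw [H.hF d (by omega) le_rfl, Nat.sub_self, pow_zero, mul_one]
    · intro i hi hid
      rcases Nat.eq_zero_or_pos i with rfl | h0
      · rw [H.hF0, pow_zero, mul_one, Nat.sub_zero]
        calc g ^ 3 * v p.2 ^ d = g ^ 2 * (g * v p.2 ^ d) := by rw [← mul_assoc, ← pow_succ]
          _ < g ^ 2 * v p.1 ^ d := mul_lt_mul_of_pos_left h1 (pow_pos hg0 2)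
      · rw [H.hF i h0 hi, mul_assoc]
        exact mul_lt_mul_of_pos_left (mixC_lt _ _ d i (by omega) hlt) (pow_pos hg0 2)
  have hG : v (form d G p) = g ^ 2 * v p.2 ^ d := by
    refine form_val v d G p 0 (Nat.zero_le _) _ (mul_pos (pow_pos hg0 2) hY) ?_ ?_
    · rw [H.hG0, pow_zero, mul_one, Nat.sub_zero]
    · intro i hi h0
      rw [H.hG i (by omega) hi, one_mul]
      exact (mixC_le _ _ d i hi hlt).trans_lt h2
  refine ⟨?_, ?_⟩
  · change 0 < v (form d F p)
    rw [hF]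
    exact mul_pos (pow_pos hg0 2) (pow_pos hX d)
  · change g ^ 2 * v (form d G p) ^ d ≤ v (form d F p) ^ d
    rw [hF, hG]
    calc g ^ 2 * (g ^ 2 * v p.2 ^ d) ^ d ≤ g ^ d * (g ^ 2 * v p.2 ^ d) ^ d :=
          mul_le_mul_left (pow_le_pow_right₀ hg.le hd) _
      _ = (g ^ 2 * (g * v p.2 ^ d)) ^ d := by
          rw [← mul_pow]
          congr 1
          rw [mul_left_comm]
      _ ≤ (g ^ 2 * v p.1 ^ d) ^ d :=
          pow_le_pow_left₀ zero_le (mul_le_mul_right h1.le _) d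

theorem pow_diff (v : Valuation L Γ) (t t' : L) (ht : v t ≤ 1) (ht' : v t' ≤ 1) (n : ℕ) :
    v (t ^ n - t' ^ n) ≤ v (t - t') := by
  rw [← geom_sum₂_mul, map_mul]
  have h1 : v (∑ i ∈ Finset.range n, t ^ i * t' ^ (n - 1 - i)) ≤ 1 := by
    refine v.map_sum_le fun i _ => ?_
    rw [map_mul, map_pow, map_pow]
    exact mul_le_one' (pow_le_one₀ zero_le ht) (pow_le_one₀ zero_le ht')
  calc v (∑ i ∈ Finset.range n, t ^ i * t' ^ (n - 1 - i)) * v (t - t') ≤ 1 * v (t - t') :=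
        mul_le_mul_left h1 _
    _ = v (t - t') := one_mul _

theorem pow_diff2 (v : Valuation L Γ) (g : Γ) (hg : 1 < g) (t t' : L) (ht : g ^ 2 * v t ≤ 1)
    (ht' : g ^ 2 * v t' ≤ 1) (n : ℕ) (hn : 2 ≤ n) :
    g ^ 2 * v (t ^ n - t' ^ n) ≤ v (t - t') := by
  have hg2 : 1 ≤ g ^ 2 := one_le_pow₀ hg.le
  have h1 : ∀ x : Γ, g ^ 2 * x ≤ 1 → x ≤ 1 := by
    intro x hx
    have : 1 * x ≤ g ^ 2 * x := mul_le_mul_left hg2 _
    rw [one_mul] at this
    exact this.trans hx
  have hg0 : 0 < g ^ 2 := pow_pos (zero_lt_one.trans hg) 2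
  have h2 : g ^ 2 * v (∑ i ∈ Finset.range n, t ^ i * t' ^ (n - 1 - i)) ≤ 1 := by
    have h3 : v (∑ i ∈ Finset.range n, t ^ i * t' ^ (n - 1 - i)) ≤ (g ^ 2)⁻¹ := by
      refine v.map_sum_le fun i hi => ?_
      rw [Finset.mem_range] at hi
      rw [map_mul, map_pow, map_pow]
      have hgi : ∀ x : Γ, g ^ 2 * x ≤ 1 → x ≤ (g ^ 2)⁻¹ := by
        intro x hx
        rw [← one_div, le_div_iff₀ hg0, mul_comm]
        exact hx
      rcases Nat.eq_zero_or_pos i with rfl | h0
      · have h4 : v t' ^ (n - 1 - 0) ≤ v t' := by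
          have := pow_le_pow_of_le_one zero_le (h1 _ ht') (show 1 ≤ n - 1 - 0 by omega)
          rwa [pow_one] at this
        rw [pow_zero, one_mul]
        exact h4.trans (hgi _ ht')
      · have h4 : v t ^ i ≤ v t := by
          have := pow_le_pow_of_le_one zero_le (h1 _ ht) h0
          rwa [pow_one] at this
        calc v t ^ i * v t' ^ (n - 1 - i) ≤ v t * 1 :=
              mul_le_mul' h4 (pow_le_one₀ zero_le (h1 _ ht'))
          _ = v t := mul_one _
          _ ≤ (g ^ 2)⁻¹ := hgi _ ht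
    calc g ^ 2 * v (∑ i ∈ Finset.range n, t ^ i * t' ^ (n - 1 - i)) ≤ g ^ 2 * (g ^ 2)⁻¹ :=
          mul_le_mul_right h3 _
      _ = 1 := mul_inv_cancel₀ hg0.ne'
  rw [← geom_sum₂_mul, map_mul, ← mul_assoc]
  calc g ^ 2 * v (∑ i ∈ Finset.range n, t ^ i * t' ^ (n - 1 - i)) * v (t - t') ≤ 1 * v (t - t') :=
        mul_le_mul_left h2 _
    _ = v (t - t') := one_mul _

/-- The variation of a polynomial on the disc around infinity. -/
theorem rev_diff (v : Valuation L Γ) (g : Γ) (hg : 1 < g) (d : ℕ) (hd : 2 ≤ d) (F : L[X]) (M : Γ)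
    (hF0 : v (F.coeff 0) ≤ M * g ^ 2) (hF : ∀ i, 1 ≤ i → i ≤ d → v (F.coeff i) ≤ M)
    (t t' : L) (ht : g ^ 2 * v t ≤ 1) (ht' : g ^ 2 * v t' ≤ 1) :
    v (form d F (1, t) - form d F (1, t')) ≤ M * v (t - t') := by
  have hg2 : 1 ≤ g ^ 2 := one_le_pow₀ hg.le
  have h1 : ∀ x : Γ, g ^ 2 * x ≤ 1 → x ≤ 1 := by
    intro x hx
    have : 1 * x ≤ g ^ 2 * x := mul_le_mul_left hg2 _
    rw [one_mul] at this
    exact this.trans hx
  rw [form, form, ← Finset.sum_sub_distrib]
  refine v.map_sum_le fun i hi => ?_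
  rw [Finset.mem_range] at hi
  have h2 : F.coeff i * (1 : L) ^ i * t ^ (d - i) - F.coeff i * (1 : L) ^ i * t' ^ (d - i) =
      F.coeff i * (t ^ (d - i) - t' ^ (d - i)) := by
    rw [one_pow]
    ring
  change v (F.coeff i * (1 : L) ^ i * t ^ (d - i) - F.coeff i * (1 : L) ^ i * t' ^ (d - i)) ≤ _
  rw [h2, map_mul]
  rcases Nat.eq_zero_or_pos i with rfl | h0
  · rw [Nat.sub_zero]
    calc v (F.coeff 0) * v (t ^ d - t' ^ d) ≤ M * g ^ 2 * v (t ^ d - t' ^ d) :=
          mul_le_mul_left hF0 _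
      _ = M * (g ^ 2 * v (t ^ d - t' ^ d)) := mul_assoc _ _ _
      _ ≤ M * v (t - t') := mul_le_mul_right (pow_diff2 v g hg t t' ht ht' d hd) _
  · exact mul_le_mul' (hF i h0 (by omega)) (pow_diff v t t' (h1 _ ht) (h1 _ ht') _)

/-- The map in the coordinate at infinity is a contraction. -/
theorem contract {v : Valuation L Γ} {g : Γ} {d : ℕ} {F G : L[X]} (H : Hyp v g d F G)
    (t t' : L) (ht : g ^ 2 * v t ≤ 1) (ht' : g ^ 2 * v t' ≤ 1) :
    g ^ 2 * v (form d G (1, t) / form d F (1, t) - form d G (1, t') / form d F (1, t')) ≤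
      v (t - t') := by
  have hd := H.hd
  have hg := H.hg
  have hg0 : 0 < g := zero_lt_one.trans hg
  have hC : ∀ s : L, g ^ 2 * v s ≤ 1 → InC v g d ((1 : L), s) := by
    intro s hs
    refine InV.inC hg (by omega) ⟨?_, ?_⟩
    · change 0 < v (1 : L)
      rw [map_one]
      exact zero_lt_one
    · change g ^ 2 * v s ≤ v (1 : L)
      rw [map_one]
      exact hs
  have hF : ∀ s : L, g ^ 2 * v s ≤ 1 → v (form d F (1, s)) = g ^ 2 := by
    intro s hs
    rw [(hC s hs).valF H, map_one, one_pow, mul_one]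
  have hG : ∀ s : L, g ^ 2 * v s ≤ 1 → v (form d G (1, s)) ≤ 1 := by
    intro s hs
    have := (hC s hs).valG H
    rwa [map_one, one_pow] at this
  have hg2 : 0 < g ^ 2 := pow_pos hg0 2
  have hne : ∀ s : L, g ^ 2 * v s ≤ 1 → form d F (1, s) ≠ 0 := by
    intro s hs h0
    have := hF s hs
    rw [h0, map_zero] at this
    exact hg2.ne this
  have h1 := rev_diff v g hg d hd F (g ^ 2) (by
    rw [H.hF0, ← pow_add]
    exact pow_le_pow_right₀ hg.le (by omega)) (fun i h0 hi => (H.hF i h0 hi).le) t t' ht ht'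
  have h2 := rev_diff v g hg d hd G 1 (by rw [H.hG0, one_mul]) (fun i h0 hi => (H.hG i h0 hi).le)
    t t' ht ht'
  rw [one_mul] at h2
  have h3 : form d G (1, t) / form d F (1, t) - form d G (1, t') / form d F (1, t') =
      ((form d G (1, t) - form d G (1, t')) * form d F (1, t') -
        form d G (1, t') * (form d F (1, t) - form d F (1, t'))) /
        (form d F (1, t) * form d F (1, t')) := by
    rw [div_sub_div _ _ (hne t ht) (hne t' ht')]
    congr 1
    ring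
  have h4 : v ((form d G (1, t) - form d G (1, t')) * form d F (1, t') -
        form d G (1, t') * (form d F (1, t) - form d F (1, t'))) ≤ g ^ 2 * v (t - t') := by
    refine v.map_sub_le ?_ ?_
    · rw [map_mul, hF t' ht', mul_comm]
      exact mul_le_mul_right h2 _
    · rw [map_mul]
      calc v (form d G (1, t')) * v (form d F (1, t) - form d F (1, t')) ≤
            1 * (g ^ 2 * v (t - t')) := mul_le_mul' (hG t' ht') h1
        _ = g ^ 2 * v (t - t') := one_mul _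
  rw [h3, map_div₀, map_mul, hF t ht, hF t' ht', mul_div_assoc', div_le_iff₀ (mul_pos hg2 hg2)]
  calc g ^ 2 * v ((form d G (1, t) - form d G (1, t')) * form d F (1, t') -
        form d G (1, t') * (form d F (1, t) - form d F (1, t'))) ≤
        g ^ 2 * (g ^ 2 * v (t - t')) := mul_le_mul_right h4 _
    _ = v (t - t') * (g ^ 2 * g ^ 2) := by rw [← mul_assoc, mul_comm]

/-- The coordinate at infinity of the image. -/
theorem coord {d : ℕ} (F G : L[X]) (u : L × L) (hu : u.1 ≠ 0) :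
    (lift d F G u).2 / (lift d F G u).1 =
      form d G (1, u.2 / u.1) / form d F (1, u.2 / u.1) := by
  have h1 : u = u.1 • ((1 : L), u.2 / u.1) := by
    ext
    · simp
    · simp only [Prod.smul_snd, smul_eq_mul]
      rw [mul_div_cancel₀ _ hu]
  change form d G u / form d F u = _
  rw [h1, RDF.form_smul, RDF.form_smul, mul_div_mul_left _ _ (pow_ne_zero d hu), ← h1]

end Dyn

open Dyn

/-- A preperiodic point off the annulus becomes fixed. -/
theorem fixed_of_preper {L Γ : Type} [Field L] [LinearOrderedCommGroupWithZero Γ]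
    (v : Valuation L Γ) (g : Γ) (hg : 1 < g) (d : ℕ) (hd : 2 ≤ d) (F G : L[X])
    (hF0 : v (F.coeff 0) = g ^ 3) (hF : ∀ i, 1 ≤ i → i ≤ d → v (F.coeff i) = g ^ 2)
    (hG0 : v (G.coeff 0) = g ^ 2) (hG : ∀ i, 1 ≤ i → i ≤ d → v (G.coeff i) = 1)
    (p : L × L) (hp : p ≠ 0) (hpD : v p.1 ^ d ≠ g * v p.2 ^ d) (a b : ℕ) (hab : a < b)
    (hw : wedge ((lift d F G)^[a] p) ((lift d F G)^[b] p) = 0) :
    ∃ n : ℕ, (lift d F G)^[n] p ≠ 0 ∧
      wedge ((lift d F G)^[n] p) (lift d F G ((lift d F G)^[n] p)) = 0 := by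
  have H : Hyp v g d F G := ⟨hg, hd, hF0, hF, hG0, hG⟩
  set Ψ := lift d F G with hΨ
  have hsucc : ∀ n, Ψ^[n + 1] p = Ψ (Ψ^[n] p) := fun n => Function.iterate_succ_apply' Ψ n p
  -- the regions
  have hC1 : InC v g d (Ψ p) := by
    rcases lt_trichotomy (v p.1 ^ d) (g * v p.2 ^ d) with h | h | h
    · exact inC_of_A H h
    · exact absurd h hpD
    · rcases lt_or_ge (v p.1 ^ d) (g ^ 2 * v p.2 ^ d) with h' | h'
      · exact inC_of_B H h h'
      · have hX : 0 < v p.1 := by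
          refine lt_of_le_of_ne zero_le fun h0 => ?_
          rw [← h0, zero_pow (by omega)] at h
          exact absurd h not_lt_zero
        exact (InC.inV H ⟨hX, h'⟩).inC hg (by omega)
  have hV : ∀ n, InV v g (Ψ^[n + 2] p) := by
    intro n
    induction n with
    | zero =>
      rw [hsucc, hsucc]
      exact hC1.inV H
    | succ n ih =>
      rw [show n + 1 + 2 = (n + 2) + 1 from rfl, hsucc]
      exact (ih.inC hg (by omega)).inV H
  have hne : ∀ n, 1 ≤ n → (Ψ^[n] p).1 ≠ 0 := by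
    intro n hn
    rcases Nat.exists_eq_add_of_le hn with ⟨m, rfl⟩
    rcases m with _ | m
    · have h1 : Ψ^[1 + 0] p = Ψ p := rfl
      rw [h1]
      intro h0
      have := hC1.1
      rw [h0, map_zero] at this
      exact lt_irrefl _ this
    · have h1 : 1 + (m + 1) = m + 2 := by omega
      rw [h1]
      intro h0
      have := (hV m).1
      rw [h0, map_zero] at this
      exact lt_irrefl _ this
  -- proportional
  have hprop : ∃ c : L, Ψ^[a + 2] p = c • Ψ^[b + 2] p := by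
    have hb := hne b (by omega)
    have h1 : Ψ^[a] p = ((Ψ^[a] p).1 / (Ψ^[b] p).1) • Ψ^[b] p := by
      have h2 : (Ψ^[a] p).1 * (Ψ^[b] p).2 - (Ψ^[b] p).1 * (Ψ^[a] p).2 = 0 := hw
      ext
      · simp only [Prod.smul_fst, smul_eq_mul]
        rw [div_mul_cancel₀ _ hb]
      · simp only [Prod.smul_snd, smul_eq_mul]
        rw [div_mul_eq_mul_div, eq_div_iff hb]
        linear_combination -h2
    refine ⟨((Ψ^[a] p).1 / (Ψ^[b] p).1) ^ d ^ 2, ?_⟩
    rw [add_comm a 2, Function.iterate_add_apply, add_comm b 2, Function.iterate_add_apply,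
      ← RDF.iter_smul d 2 F G, ← h1]
  obtain ⟨c, hc⟩ := hprop
  set t : ℕ → L := fun n => (Ψ^[n + 2] p).2 / (Ψ^[n + 2] p).1 with ht
  have ht2 : ∀ n, g ^ 2 * v (t n) ≤ 1 := by
    intro n
    rw [ht]
    simp only
    rw [map_div₀, mul_div_assoc', div_le_one₀ (hV n).1]
    exact (hV n).2
  have hstep : ∀ n, t (n + 1) = form d G (1, t n) / form d F (1, t n) := by
    intro n
    simp only [ht]
    rw [show n + 1 + 2 = (n + 2) + 1 from rfl, hsucc]
    exact coord F G _ (hne (n + 2) (by omega))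
  have htab : t a = t b := by
    simp only [ht]
    rw [hc]
    have hc0 : c ≠ 0 := by
      rintro rfl
      rw [zero_smul] at hc
      exact hne (a + 2) (by omega) (by rw [hc]; rfl)
    simp only [Prod.smul_snd, Prod.smul_fst, smul_eq_mul]
    rw [mul_div_mul_left _ _ hc0]
  have hdec : ∀ k, (g ^ 2) ^ k * v (t (a + k) - t (a + k + 1)) ≤ v (t a - t (a + 1)) := by
    intro k
    induction k with
    | zero => simp
    | succ k ih =>
      refine le_trans ?_ ih
      have h1 := contract H (t (a + k)) (t (a + k + 1)) (ht2 _) (ht2 _)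
      rw [← hstep, ← hstep] at h1
      calc (g ^ 2) ^ (k + 1) * v (t (a + (k + 1)) - t (a + (k + 1) + 1)) =
            (g ^ 2) ^ k * (g ^ 2 * v (t (a + k + 1) - t (a + k + 1 + 1))) := by
            rw [pow_succ, mul_assoc]
            rfl
        _ ≤ (g ^ 2) ^ k * v (t (a + k) - t (a + k + 1)) := mul_le_mul_right h1 _
  obtain ⟨m, hm⟩ := Nat.exists_eq_add_of_lt hab
  have h1 := hdec (m + 1)
  have h2 : t (a + (m + 1)) = t a := by
    rw [htab]
    congr 1
    omega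
  have h3 : t (a + (m + 1) + 1) = t (a + 1) := by
    rw [hstep, h2, ← hstep]
  rw [h2, h3] at h1
  have h4 : v (t a - t (a + 1)) = 0 := by
    by_contra h0
    have h5 : 0 < v (t a - t (a + 1)) := lt_of_le_of_ne zero_le (Ne.symm h0)
    have h6 : 1 * v (t a - t (a + 1)) < (g ^ 2) ^ (m + 1) * v (t a - t (a + 1)) :=
      mul_lt_mul_of_pos_right (one_lt_pow₀ (one_lt_pow₀ hg (by omega)) (by omega)) h5
    rw [one_mul] at h6
    exact absurd (h6.trans_le h1) (lt_irrefl _)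
  rw [v.zero_iff, sub_eq_zero] at h4
  refine ⟨a + 2, fun h0 => hne (a + 2) (by omega) (by rw [h0]; rfl), ?_⟩
  rw [← hsucc]
  have ha := hne (a + 2) (by omega)
  have ha1 := hne (a + 2 + 1) (by omega)
  have h5 : (Ψ^[a + 2] p).2 / (Ψ^[a + 2] p).1 = (Ψ^[a + 2 + 1] p).2 / (Ψ^[a + 2 + 1] p).1 := h4
  rw [div_eq_div_iff ha ha1] at h5
  unfold wedge
  linear_combination -h5

end Pool.Agent.LIM.Ex
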