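import Mathlib
import Pool.Agent.RDF.Defs

set_option autoImplicit false

/-!
# The value of a fixed point
-/

namespace Pool.Agent.LIM.Ex

open Polynomial
open Pool.Agent.RDF (lift wedge form)

namespace FixAux

variable {L Γ : Type} [Field L] [LinearOrderedCommGroupWithZero Γ] (v : Valuation L Γ)

theorem v_mono (c x y : L) (a b : ℕ) : v (c * x ^ a * y ^ b) = v c * v x ^ a * v y ^ b := by
  rw [map_mul, map_mul, map_pow, map_pow]

/-- A monomial with a small coefficient which contains the smaller variable. -/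
theorem lt_pow (c x y : L) (hc : v c ≤ 1) (h : v y < v x) (a b : ℕ) (hb : b ≠ 0) :
    v (c * x ^ a * y ^ b) < v x ^ (a + b) := by
  have hx : 0 < v x := lt_of_le_of_lt zero_le' h
  rw [v_mono, pow_add]
  have h1 : v c * v x ^ a ≤ 1 * v x ^ a := mul_le_mul' hc le_rfl
  rw [one_mul] at h1
  refine lt_of_le_of_lt (mul_le_mul' h1 le_rfl) ?_
  exact mul_lt_mul_of_pos_left (pow_lt_pow_left₀ h zero_le' hb) (pow_pos hx _)

theorem le_pow (c x y : L) (hc : v c ≤ 1) (a b : ℕ) :
    v (c * x ^ a * y ^ b) ≤ max (v x) (v y) ^ (a + b) := by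
  rw [v_mono, pow_add]
  have h1 : v c * v x ^ a ≤ 1 * v x ^ a := mul_le_mul' hc le_rfl
  rw [one_mul] at h1
  exact mul_le_mul' (h1.trans (pow_le_pow_left₀ zero_le' (le_max_left _ _) _))
    (pow_le_pow_left₀ zero_le' (le_max_right _ _) _)

end FixAux

open FixAux in
/-- The value of a fixed point. -/
theorem fixed_val {L Γ : Type} [Field L] [LinearOrderedCommGroupWithZero Γ]
    (v : Valuation L Γ) (g : Γ) (hg : 1 < g) (d : ℕ) (F G : L[X])
    (hF0 : v (F.coeff 0) = g) (hF : ∀ i, 1 ≤ i → i ≤ d → v (F.coeff i) ≤ 1)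
    (hG : ∀ i, i ≤ d → v (G.coeff i) ≤ 1) (hGd : v (G.coeff d) = 1)
    (q : L × L) (hq : q ≠ 0) (hw : wedge q (lift d F G q) = 0) :
    q.2 ≠ 0 ∧ v (q.1 / q.2) ^ (d + 1) = g := by
  obtain ⟨x, y⟩ := q
  have hg0 : 0 < g := zero_lt_one.trans hg
  have hE : ∑ i ∈ Finset.range (d + 1), G.coeff i * x ^ (i + 1) * y ^ (d - i) =
      ∑ i ∈ Finset.range (d + 1), F.coeff i * x ^ i * y ^ (d + 1 - i) := by
    have h1 : x * form d G (x, y) - form d F (x, y) * y = 0 := hw
    have h2 : x * form d G (x, y) =
        ∑ i ∈ Finset.range (d + 1), G.coeff i * x ^ (i + 1) * y ^ (d - i) := by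
      unfold RDF.form
      rw [Finset.mul_sum]
      refine Finset.sum_congr rfl fun i _ => ?_
      simp only
      ring
    have h3 : form d F (x, y) * y =
        ∑ i ∈ Finset.range (d + 1), F.coeff i * x ^ i * y ^ (d + 1 - i) := by
      unfold RDF.form
      rw [Finset.sum_mul]
      refine Finset.sum_congr rfl fun i hi => ?_
      have h4 : d + 1 - i = (d - i) + 1 := by
        have := Finset.mem_range.1 hi
        omega
      simp only [h4, pow_succ]
      ring
    rw [← h2, ← h3]
    exact sub_eq_zero.1 h1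
  have key : v x ^ (d + 1) = g * v y ^ (d + 1) := by
    rcases lt_trichotomy (v x ^ (d + 1)) (g * v y ^ (d + 1)) with h | h | h
    · exfalso
      have hy : 0 < v y := by
        rcases (zero_le' (a := v y)).eq_or_lt with h0 | h0
        · rw [← h0, zero_pow (by omega), mul_zero] at h
          exact absurd h (not_lt.2 zero_le')
        · exact h0
      have hB : 0 < g * v y ^ (d + 1) := mul_pos hg0 (pow_pos hy _)
      have hM : max (v x) (v y) ^ (d + 1) < g * v y ^ (d + 1) := by
        rcases le_total (v x) (v y) with h1 | h1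
        · rw [max_eq_right h1]
          calc v y ^ (d + 1) = 1 * v y ^ (d + 1) := (one_mul _).symm
            _ < g * v y ^ (d + 1) := mul_lt_mul_of_pos_right hg (pow_pos hy _)
        · rw [max_eq_left h1]
          exact h
      rw [Finset.sum_range_succ'
        (fun i => F.coeff i * x ^ i * y ^ (d + 1 - i))] at hE
      have h1 : F.coeff 0 * x ^ 0 * y ^ (d + 1 - 0) =
          ∑ i ∈ Finset.range (d + 1), G.coeff i * x ^ (i + 1) * y ^ (d - i) -
            ∑ i ∈ Finset.range d, F.coeff (i + 1) * x ^ (i + 1) * y ^ (d + 1 - (i + 1)) := by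
        rw [hE]
        ring
      have h2 : v (F.coeff 0 * x ^ 0 * y ^ (d + 1 - 0)) = g * v y ^ (d + 1) := by
        rw [v_mono, hF0, pow_zero, mul_one, Nat.sub_zero]
      have h3 : v (∑ i ∈ Finset.range (d + 1), G.coeff i * x ^ (i + 1) * y ^ (d - i)) <
          g * v y ^ (d + 1) := by
        refine v.map_sum_lt hB.ne' fun i hi => ?_
        have hi' := Finset.mem_range.1 hi
        refine lt_of_le_of_lt (le_pow v _ x y (hG i (by omega)) _ _) ?_
        rwa [show i + 1 + (d - i) = d + 1 by omega]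
      have h4 : v (∑ i ∈ Finset.range d,
          F.coeff (i + 1) * x ^ (i + 1) * y ^ (d + 1 - (i + 1))) < g * v y ^ (d + 1) := by
        refine v.map_sum_lt hB.ne' fun i hi => ?_
        have hi' := Finset.mem_range.1 hi
        refine lt_of_le_of_lt (le_pow v _ x y (hF (i + 1) (by omega) (by omega)) _ _) ?_
        rwa [show i + 1 + (d + 1 - (i + 1)) = d + 1 by omega]
      have h5 := lt_of_le_of_lt (v.map_sub _ _) (max_lt h3 h4)
      rw [← h1, h2] at h5
      exact lt_irrefl _ h5
    · exact h
    · exfalso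
      have hxy : v y < v x := by
        by_contra hcon
        have h1 : v x ^ (d + 1) ≤ v y ^ (d + 1) := pow_le_pow_left₀ zero_le' (not_lt.1 hcon) _
        have h2 : 1 * v y ^ (d + 1) ≤ g * v y ^ (d + 1) := mul_le_mul' hg.le le_rfl
        rw [one_mul] at h2
        exact absurd h (not_lt.2 (h1.trans h2))
      have hx : 0 < v x := lt_of_le_of_lt zero_le' hxy
      have hB : 0 < v x ^ (d + 1) := pow_pos hx _
      rw [Finset.sum_range_succ (fun i => G.coeff i * x ^ (i + 1) * y ^ (d - i))] at hE
      have h1 : G.coeff d * x ^ (d + 1) * y ^ (d - d) =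
          ∑ i ∈ Finset.range (d + 1), F.coeff i * x ^ i * y ^ (d + 1 - i) -
            ∑ i ∈ Finset.range d, G.coeff i * x ^ (i + 1) * y ^ (d - i) := by
        rw [← hE]
        ring
      have h2 : v (G.coeff d * x ^ (d + 1) * y ^ (d - d)) = v x ^ (d + 1) := by
        rw [v_mono, hGd, Nat.sub_self, pow_zero, mul_one, one_mul]
      have h3 : v (∑ i ∈ Finset.range (d + 1), F.coeff i * x ^ i * y ^ (d + 1 - i)) <
          v x ^ (d + 1) := by
        refine v.map_sum_lt hB.ne' fun i hi => ?_
        have hi' := Finset.mem_range.1 hi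
        rcases Nat.eq_zero_or_pos i with h0 | h0
        · rw [h0, v_mono, hF0, pow_zero, mul_one, Nat.sub_zero]
          exact h
        · have h4 := lt_pow v (F.coeff i) x y (hF i h0 (by omega)) hxy i (d + 1 - i) (by omega)
          rwa [show i + (d + 1 - i) = d + 1 by omega] at h4
      have h4 : v (∑ i ∈ Finset.range d, G.coeff i * x ^ (i + 1) * y ^ (d - i)) <
          v x ^ (d + 1) := by
        refine v.map_sum_lt hB.ne' fun i hi => ?_
        have hi' := Finset.mem_range.1 hi
        have h4 := lt_pow v (G.coeff i) x y (hG i (by omega)) hxy (i + 1) (d - i) (by omega)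
        rwa [show i + 1 + (d - i) = d + 1 by omega] at h4
      have h5 := lt_of_le_of_lt (v.map_sub _ _) (max_lt h3 h4)
      rw [← h1, h2] at h5
      exact lt_irrefl _ h5
  have hy : y ≠ 0 := by
    intro h0
    rw [h0, map_zero, zero_pow (by omega), mul_zero] at key
    have h1 : v x = 0 := pow_eq_zero_iff (by omega) |>.1 key
    exact hq (Prod.ext ((v.zero_iff).1 h1) h0)
  refine ⟨hy, ?_⟩
  have hvy : v y ^ (d + 1) ≠ 0 := pow_ne_zero _ ((v.ne_zero_iff).2 hy)
  simp only
  rw [map_div₀, div_pow, key, mul_div_assoc, div_self hvy, mul_one]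

end Pool.Agent.LIM.Ex
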