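import Mathlib
import Pool.Agent.LIM.ExDefs
import Pool.Agent.LIM.ExVal
import Pool.Agent.LIM.ExDeg
import Pool.Agent.LIM.ExDyn
import Pool.Agent.LIM.ExFix
import Pool.Agent.LIM.Pig

set_option autoImplicit false

/-!
# The generic rational function has no preperiodic points of small degree
-/

namespace Pool.Agent.LIM.Ex

open Polynomial NumberField
open Pool.Agent.RDF (lift wedge)

theorem pts_empty (K : Type) [Field K] [NumberField K] (N d : ℕ) (hd : 2 ≤ d) (hN : N < d) :
    Pts (GF (d + 1 + (d + 1)) K) N d (toG (allF K d)) (toG (allG K d)) = ∅ := by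
  classical
  rw [Set.eq_empty_iff_forall_notMem]
  rintro p ⟨h1, h2, a, b, hab, hw⟩
  have hFm : (toG (allF K d)).map (algebraMap (GF (d + 1 + (d + 1)) K) (AlgebraicClosure (GF (d + 1 + (d + 1)) K))) = (allF K d).map (algebraMap (MvPolynomial (Fin (d + 1 + (d + 1))) (𝓞 K))
      (AlgebraicClosure (GF (d + 1 + (d + 1)) K))) := by
    unfold toG
    rw [Polynomial.map_map, ← IsScalarTower.algebraMap_eq]
  have hGm : (toG (allG K d)).map (algebraMap (GF (d + 1 + (d + 1)) K) (AlgebraicClosure (GF (d + 1 + (d + 1)) K))) = (allG K d).map (algebraMap (MvPolynomial (Fin (d + 1 + (d + 1))) (𝓞 K))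
      (AlgebraicClosure (GF (d + 1 + (d + 1)) K))) := by
    unfold toG
    rw [Polynomial.map_map, ← IsScalarTower.algebraMap_eq]
  have hcF : ∀ i (hi : i ≤ d), ((allF K d).map (algebraMap (MvPolynomial (Fin (d + 1 + (d + 1))) (𝓞 K))
      (AlgebraicClosure (GF (d + 1 + (d + 1)) K)))).coeff i = algebraMap (MvPolynomial (Fin (d + 1 + (d + 1))) (𝓞 K))
      (AlgebraicClosure (GF (d + 1 + (d + 1)) K))
      (MvPolynomial.X (Fin.castAdd (d + 1) ⟨i, Nat.lt_succ_of_le hi⟩)) := by
    intro i hi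
    rw [coeff_map, coeff_allF K d i hi]
  have hcG : ∀ i (hi : i ≤ d), ((allG K d).map (algebraMap (MvPolynomial (Fin (d + 1 + (d + 1))) (𝓞 K))
      (AlgebraicClosure (GF (d + 1 + (d + 1)) K)))).coeff i = algebraMap (MvPolynomial (Fin (d + 1 + (d + 1))) (𝓞 K))
      (AlgebraicClosure (GF (d + 1 + (d + 1)) K))
      (MvPolynomial.X (Fin.natAdd (d + 1) ⟨i, Nat.lt_succ_of_le hi⟩)) := by
    intro i hi
    rw [coeff_map, coeff_allG K d i hi]
  have hp0 : p ≠ 0 := by
    intro h0
    rcases h1 with h | h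
    · rw [h0] at h
      exact zero_ne_one h
    · rw [h0] at h
      exact zero_ne_one (congrArg Prod.fst h)
  rw [hFm, hGm] at hw
  -- the first valuation
  obtain ⟨Γ, _, v, g, hg, h3, h4, -, -⟩ := exists_val K (d + 1 + (d + 1))
    (fun i => if (i : ℕ) = 0 then 3 else if (i : ℕ) ≤ d + 1 then 2 else 0)
  by_cases hpD : v p.1 ^ d = g * v p.2 ^ d
  · rcases h1 with h | h
    · rw [h, map_one, one_pow, mul_one] at hpD
      have h5 := deg_le v g hg h4 p.1 d (by omega) hpD
      omega
    · rw [h, map_one, one_pow, map_zero, zero_pow (by omega), mul_zero] at hpD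
      exact one_ne_zero hpD
  · obtain ⟨n, hn0, hn⟩ := fixed_of_preper v g hg d hd ((allF K d).map (algebraMap (MvPolynomial (Fin (d + 1 + (d + 1))) (𝓞 K))
      (AlgebraicClosure (GF (d + 1 + (d + 1)) K))))
      ((allG K d).map (algebraMap (MvPolynomial (Fin (d + 1 + (d + 1))) (𝓞 K))
      (AlgebraicClosure (GF (d + 1 + (d + 1)) K))))
      (by rw [hcF 0 (Nat.zero_le _), h3]; simp)
      (fun i hi hid => by
        rw [hcF i hid, h3, if_neg (by simp; omega), if_pos (by simp; omega)])
      (by rw [hcG 0 (Nat.zero_le _), h3, if_neg (by simp), if_pos (by simp)])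
      (fun i hi hid => by
        rw [hcG i hid, h3, if_neg (by simp), if_neg (by simp; omega), pow_zero])
      p hp0 hpD a b hab hw
    obtain ⟨q, hq⟩ : ∃ q, q = (lift d
      ((allF K d).map (algebraMap (MvPolynomial (Fin (d + 1 + (d + 1))) (𝓞 K))
        (AlgebraicClosure (GF (d + 1 + (d + 1)) K))))
      ((allG K d).map (algebraMap (MvPolynomial (Fin (d + 1 + (d + 1))) (𝓞 K))
        (AlgebraicClosure (GF (d + 1 + (d + 1)) K)))))^[n] p := ⟨_, rfl⟩
    rw [← hq] at hn0 hn
    obtain ⟨Γ', _, w, g', hg', h3', h4', -, -⟩ := exists_val K (d + 1 + (d + 1))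
      (fun i => if (i : ℕ) = 0 then 1 else 0)
    obtain ⟨h5, h6⟩ := fixed_val w g' hg' d ((allF K d).map (algebraMap (MvPolynomial (Fin (d + 1 + (d + 1))) (𝓞 K))
      (AlgebraicClosure (GF (d + 1 + (d + 1)) K))))
      ((allG K d).map (algebraMap (MvPolynomial (Fin (d + 1 + (d + 1))) (𝓞 K))
      (AlgebraicClosure (GF (d + 1 + (d + 1)) K))))
      (by rw [hcF 0 (Nat.zero_le _), h3']; simp)
      (fun i hi hid => by rw [hcF i hid, h3', if_neg (by simp; omega), pow_zero])
      (fun i hid => by rw [hcG i hid, h3', if_neg (by simp), pow_zero])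
      (by rw [hcG d le_rfl, h3', if_neg (by simp), pow_zero])
      q hn0 hn
    have h7 := deg_le w g' hg' h4' (q.1 / q.2) (d + 1) (by omega) h6
    have hS1 : p.1 ∈ IntermediateField.adjoin (GF (d + 1 + (d + 1)) K) {p.1} :=
      IntermediateField.mem_adjoin_simple_self _ p.1
    have hS2 : p.2 ∈ IntermediateField.adjoin (GF (d + 1 + (d + 1)) K) {p.1} := by
      rcases h1 with h | h
      · rw [h]
        exact one_mem _
      · rw [show p.2 = 0 from congrArg Prod.snd h]
        exact zero_mem _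
    have h8 := Pig.iter_mem _ d (toG (allF K d)) (toG (allG K d))
      (IntermediateField.adjoin (GF (d + 1 + (d + 1)) K) {p.1}) n hS1 hS2
    rw [hFm, hGm, ← hq] at h8
    have h9 := Pig.degree_le _
      ((IntermediateField.adjoin (GF (d + 1 + (d + 1)) K) {p.1}).div_mem h8.1 h8.2)
    omega

end Pool.Agent.LIM.Ex
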