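import Mathlib

/-!
# The multiplier of a fixed point for a valuation
-/

set_option autoImplicit false

namespace Pool.Agent.LIM.Ex

open Polynomial

private theorem efb_eval {L Γ : Type} [Field L] [LinearOrderedCommGroupWithZero Γ]
    (v : Valuation L Γ) {n : ℕ} {P : L[X]} (hn : P.natDegree ≤ n)
    (h : ∀ i, i < n → v (P.coeff i) ≤ 1) (hl : v (P.coeff n) = 1) {x : L} (hx : 1 < v x) :
    v (P.eval x) = v x ^ n := by
  have hx0 : v x ≠ 0 := (zero_lt_one.trans hx).ne'
  have hlast : v (P.coeff n * x ^ n) = v x ^ n := by rw [map_mul, map_pow, hl, one_mul]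
  rw [eval_eq_sum_range' (Nat.lt_succ_of_le hn), Finset.sum_range_succ, ← hlast]
  refine v.map_add_eq_of_lt_right ?_
  rw [hlast]
  refine v.map_sum_lt (pow_ne_zero _ hx0) fun i hi => ?_
  rw [map_mul, map_pow]
  have hi' : i < n := Finset.mem_range.1 hi
  calc v (P.coeff i) * v x ^ i ≤ 1 * v x ^ i := by gcongr; exact h i hi'
    _ = v x ^ i := one_mul _
    _ < v x ^ n := pow_lt_pow_right₀ hx hi'

theorem multiplier_val {L Γ : Type} [Field L] [LinearOrderedCommGroupWithZero Γ]
    (v : Valuation L Γ) (g : Γ) (hg : 1 < g) (d : ℕ) (hd : 1 ≤ d) (F G : L[X])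
    (hFd : F.natDegree ≤ d) (hGd : G.natDegree ≤ d) (hF : ∀ i, 1 ≤ i → i ≤ d → v (F.coeff i) ≤ 1)
    (hG : ∀ i, i ≤ d → v (G.coeff i) ≤ 1) (hGd : v (G.coeff d) = 1)
    (hlead : v ((d : L) * F.coeff d + G.coeff (d - 1)) = 1) (hn : ∀ n : ℕ, v (n : L) ≤ 1)
    (x : L) (hx : v x ^ (d + 1) = g) (hfix : F.eval x = x * G.eval x) (m : L)
    (hm : m * G.eval x ^ 2 =
      (derivative F).eval x * G.eval x - F.eval x * (derivative G).eval x) :
    m + d ≠ 0 ∧ v (m + d) < 1 := by
  have hGdeg : G.natDegree ≤ d := by assumption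
  have hx1 : 1 < v x := by
    by_contra h
    rw [not_lt] at h
    exact absurd (hx ▸ pow_le_one₀ zero_le h : g ≤ 1) (not_le.2 hg)
  have hx0 : v x ≠ 0 := (zero_lt_one.trans hx1).ne'
  have hGv : v (G.eval x) = v x ^ d := efb_eval v hGdeg (fun i hi => hG i hi.le) hGd hx1
  have hG0 : G.eval x ≠ 0 := by
    intro h
    rw [h, map_zero] at hGv
    exact pow_ne_zero _ hx0 hGv.symm
  obtain ⟨e, rfl⟩ : ∃ e, d = e + 1 := ⟨d - 1, by omega⟩
  let P : L[X] := derivative F - X * derivative G + C ((e + 1 : ℕ) : L) * G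
  have hXG : ∀ j : ℕ, (X * derivative G).coeff j = (j : L) * G.coeff j := by
    intro j
    cases j with
    | zero => simp
    | succ k =>
      rw [coeff_X_mul, coeff_derivative]
      push_cast
      ring
  have hc : ∀ j : ℕ, P.coeff j = ((j : L) + 1) * F.coeff (j + 1) +
      (((e + 1 : ℕ) : L) - j) * G.coeff j := by
    intro j
    simp only [P, coeff_add, coeff_sub, coeff_C_mul, hXG, coeff_derivative]
    ring
  have hPe : P.natDegree ≤ e := by
    rw [natDegree_le_iff_coeff_eq_zero]
    intro j hj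
    rw [hc]
    have h1 : F.coeff (j + 1) = 0 := coeff_eq_zero_of_natDegree_lt (by omega)
    rcases Nat.lt_or_ge (e + 1) j with h2 | h2
    · rw [h1, coeff_eq_zero_of_natDegree_lt (show G.natDegree < j by omega)]
      simp
    · have : j = e + 1 := by omega
      subst this
      rw [h1]
      simp
  have hPv : v (P.eval x) = v x ^ e := by
    refine efb_eval v hPe (fun i hi => ?_) ?_ hx1
    · rw [hc]
      refine (v.map_add _ _).trans (max_le ?_ ?_)
      · rw [map_mul]
        have h1 : v ((i : L) + 1) ≤ 1 := by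
          have := hn (i + 1)
          push_cast at this
          exact this
        exact mul_le_one' h1 (hF _ (by omega) (by omega))
      · rw [map_mul]
        have h1 : v (((e + 1 : ℕ) : L) - i) ≤ 1 := by
          have := hn (e + 1 - i)
          rw [Nat.cast_sub (by omega)] at this
          exact this
        exact mul_le_one' h1 (hG _ (by omega))
    · rw [hc]
      have h1 : ((e : L) + 1) * F.coeff (e + 1) + (((e + 1 : ℕ) : L) - e) * G.coeff e =
          ((e + 1 : ℕ) : L) * F.coeff (e + 1) + G.coeff (e + 1 - 1) := by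
        rw [Nat.add_sub_cancel]
        push_cast
        ring
      rw [h1]
      exact hlead
  have hkey : (m + ((e + 1 : ℕ) : L)) * G.eval x = P.eval x := by
    have h1 : m * G.eval x = (derivative F).eval x - x * (derivative G).eval x := by
      apply mul_right_cancel₀ hG0
      rw [hfix] at hm
      linear_combination hm
    simp only [P, eval_add, eval_sub, eval_mul, eval_X, eval_C]
    linear_combination h1
  have hv : v (m + ((e + 1 : ℕ) : L)) * v x ^ (e + 1) = v x ^ e := by
    rw [← hGv, ← map_mul, hkey, hPv]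
  refine ⟨?_, ?_⟩
  · intro h
    rw [h, map_zero, zero_mul] at hv
    exact pow_ne_zero _ hx0 hv.symm
  · by_contra h
    rw [not_lt] at h
    have h1 : v x ^ (e + 1) ≤ v x ^ e := by
      rw [← hv]
      calc v x ^ (e + 1) = 1 * v x ^ (e + 1) := (one_mul _).symm
        _ ≤ v (m + ((e + 1 : ℕ) : L)) * v x ^ (e + 1) := by gcongr
    exact absurd h1 (not_le.2 (pow_lt_pow_right₀ hx1 (Nat.lt_succ_self e)))

end Pool.Agent.LIM.Ex
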