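import Mathlib
import Pool.Agent.LIM.ExDefs
import Pool.Agent.LIM.ExVal
import Pool.Agent.LIM.ExFix
import Pool.Agent.LIM.ExFix2

set_option autoImplicit false

/-!
# A multiplier of the family of all rational functions varies
-/

namespace Pool.Agent.LIM.Ex

open Polynomial NumberField
open Pool.Agent.RDF (lift wedge)
open Pool.Agent.FAM (itP)
open Pool.Agent.FamK (Varies Varies1)

/-- The first iterate. -/
theorem itP_one {R : Type} [CommRing R] (d : ℕ) (F G : R[X]) (hF : F.natDegree ≤ d)
    (hG : G.natDegree ≤ d) : itP d 1 F G = (F, G) := by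
  have h : ∀ P : R[X], P.natDegree ≤ d → RDF.form d (P.map C) (X, 1) = P := by
    intro P hP
    unfold RDF.form
    conv_rhs => rw [P.as_sum_range' (d + 1) (Nat.lt_succ_of_le hP)]
    refine Finset.sum_congr rfl fun i _ => ?_
    rw [coeff_map, one_pow, mul_one, C_mul_X_pow_eq_monomial]
  unfold itP
  rw [Function.iterate_one]
  unfold lift
  rw [h F hF, h G hG]

theorem lead_ne {A : Type} [CommRing A] [Nontrivial A] {r : ℕ} (i j : Fin r) (hij : i ≠ j)
    (d : ℕ) : ((d : MvPolynomial (Fin r) A) * MvPolynomial.X i + MvPolynomial.X j) ≠ 0 := by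
  classical
  intro h
  have h1 := congrArg (MvPolynomial.eval fun l => if l = j then (1 : A) else 0) h
  simp [hij] at h1

theorem lead_vars {A : Type} [CommRing A] [Nontrivial A] {r : ℕ} (i j : Fin r) (d : ℕ)
    (l : Fin r)
    (hl : l ∈ ((d : MvPolynomial (Fin r) A) * MvPolynomial.X i + MvPolynomial.X j).vars) :
    l = i ∨ l = j := by
  classical
  have h1 := MvPolynomial.vars_add_subset _ _ hl
  rw [Finset.mem_union] at h1
  rcases h1 with h1 | h1
  · have h2 := MvPolynomial.vars_mul _ _ h1
    rw [Finset.mem_union] at h2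
    rcases h2 with h2 | h2
    · rw [← map_natCast (MvPolynomial.C : A →+* MvPolynomial (Fin r) A), MvPolynomial.vars_C] at h2
      exact absurd h2 (Finset.notMem_empty _)
    · rw [MvPolynomial.vars_X, Finset.mem_singleton] at h2
      exact Or.inl h2
  · rw [MvPolynomial.vars_X, Finset.mem_singleton] at h1
    exact Or.inr h1

theorem varies_all (K : Type) [Field K] [NumberField K] (d : ℕ) (hd : 2 ≤ d) :
    Varies d (allF K d) (allG K d) := by
  classical
  have hF := natDegree_allF K d
  have hG := natDegree_allG K d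
  refine ⟨1, le_rfl, ?_⟩
  rw [itP_one d _ _ hF hG]
  change Varies1 (allF K d) (allG K d)
  set r := d + 1 + (d + 1) with hr
  obtain ⟨Γ, _, v, g, hg, h1, -, h3, h4⟩ := exists_val K r
    (fun i => if i = Fin.castAdd (d + 1) (0 : Fin (d + 1)) then 1 else 0)
  set A := MvPolynomial (Fin r) (𝓞 K) with hA
  set L := AlgebraicClosure (GF r K) with hL
  set F : L[X] := (allF K d).map (algebraMap A L) with hFd
  set G : L[X] := (allG K d).map (algebraMap A L) with hGd
  have hFdeg : F.natDegree ≤ d := natDegree_map_le.trans hF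
  have hGdeg : G.natDegree ≤ d := natDegree_map_le.trans hG
  have hF0 : v (F.coeff 0) = g := by
    rw [hFd, coeff_map, coeff_allF K d 0 (Nat.zero_le _), h1]
    simp
  have hF1 : ∀ i, 1 ≤ i → i ≤ d → v (F.coeff i) = 1 := by
    intro i hi hid
    rw [hFd, coeff_map, coeff_allF K d i hid, h1, if_neg, pow_zero]
    intro h
    have h5 := congrArg Fin.val h
    simp at h5
    omega
  have hG1 : ∀ i, i ≤ d → v (G.coeff i) = 1 := by
    intro i hid
    rw [hGd, coeff_map, coeff_allG K d i hid, h1, if_neg, pow_zero]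
    intro h
    have h5 := congrArg Fin.val h
    simp at h5
  -- a fixed point
  have hroot : ∃ x : L, F.eval x = x * G.eval x := by
    have hc : (F - X * G).coeff (d + 1) ≠ 0 := by
      rw [coeff_sub, coeff_X_mul, coeff_eq_zero_of_natDegree_lt (by omega), zero_sub, neg_ne_zero]
      intro h
      have h5 := hG1 d le_rfl
      rw [h, map_zero] at h5
      exact zero_ne_one h5
    have hdeg : (F - X * G).degree ≠ 0 := by
      have h5 := le_degree_of_ne_zero hc
      intro h6
      rw [h6] at h5
      have h7 : d + 1 ≤ 0 := by exact_mod_cast h5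
      omega
    obtain ⟨x, hx⟩ := IsAlgClosed.exists_root _ hdeg
    refine ⟨x, ?_⟩
    rw [IsRoot, eval_sub, eval_mul, eval_X, sub_eq_zero] at hx
    exact hx
  obtain ⟨x, hx⟩ := hroot
  have hval : v x ^ (d + 1) = g := by
    have h5 := fixed_val v g hg d F G hF0 (fun i hi hid => (hF1 i hi hid).le)
      (fun i hid => (hG1 i hid).le) (hG1 d le_rfl) (x, 1)
      (fun h => one_ne_zero (congrArg Prod.snd h)) (by
        unfold lift wedge
        rw [RDF.form_one d F hFdeg x, RDF.form_one d G hGdeg x, hx]
        ring)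
    simpa using h5.2
  -- the multiplier
  obtain ⟨m, hm⟩ : ∃ m : L, m * G.eval x ^ 2 =
      (derivative F).eval x * G.eval x - F.eval x * (derivative G).eval x := by
    by_cases h0 : G.eval x = 0
    · refine ⟨0, ?_⟩
      rw [hx, h0]
      ring
    · exact ⟨((derivative F).eval x * G.eval x - F.eval x * (derivative G).eval x) / G.eval x ^ 2,
        div_mul_cancel₀ _ (pow_ne_zero 2 h0)⟩
  have halg : ∀ n : ℕ, IsAlgebraic ℤ (n : L) := fun n => isAlgebraic_natCast n
  have hn : ∀ n : ℕ, v (n : L) ≤ 1 := by
    intro n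
    by_cases h0 : (n : L) = 0
    · rw [h0, map_zero]; exact zero_le_one
    · exact (h4 _ (halg n) h0).le
  have hlead : v ((d : L) * F.coeff d + G.coeff (d - 1)) = 1 := by
    have hne : (Fin.castAdd (d + 1) (⟨d, by omega⟩ : Fin (d + 1))) ≠
        Fin.natAdd (d + 1) (⟨d - 1, by omega⟩ : Fin (d + 1)) := by
      intro h
      have h5 := congrArg Fin.val h
      simp at h5
      omega
    have h5 := h3 ((d : A) * MvPolynomial.X (Fin.castAdd (d + 1) (⟨d, by omega⟩ : Fin (d + 1))) +
      MvPolynomial.X (Fin.natAdd (d + 1) (⟨d - 1, by omega⟩ : Fin (d + 1))))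
      (lead_ne _ _ hne d) (fun l hl => by
        rw [if_neg]
        rintro rfl
        rcases lead_vars _ _ d _ hl with h | h
        · have h6 := congrArg Fin.val h
          simp at h6
          omega
        · have h6 := congrArg Fin.val h
          simp at h6)
    rw [map_add, map_mul, map_natCast] at h5
    rw [hFd, hGd, coeff_map, coeff_map, coeff_allF K d d le_rfl,
      coeff_allG K d (d - 1) (Nat.sub_le _ _)]
    exact h5
  have hmain := multiplier_val v g hg d (by omega) F G hFdeg hGdeg
    (fun i hi hid => (hF1 i hi hid).le) (fun i hid => (hG1 i hid).le) (hG1 d le_rfl) hlead hn x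
    hval hx m hm
  refine ⟨x, m, ?_, ?_, ?_⟩
  · rw [aeval_def, aeval_def, eval₂_eq_eval_map, eval₂_eq_eval_map]
    exact hx
  · simp only [aeval_def, eval₂_eq_eval_map, ← derivative_map]
    exact hm
  · intro h
    have h5 : IsAlgebraic ℤ (m + (d : L)) := h.add (halg d)
    have h6 := h4 _ h5 hmain.1
    exact absurd h6 hmain.2.ne

end Pool.Agent.LIM.Ex
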