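import Mathlib
import Pool.Agent.LIM.Defs

set_option autoImplicit false

/-!
# The limit along a set of positive density, in particular over the primitive points
-/

namespace Pool.Agent.LIM

open Filter
open Pool.Agent.FAM (Cube)

namespace PrimA

theorem exp_ge_one (m : ℕ) : 1 ≤ Real.exp ((m : ℝ) ^ ((1 : ℝ) / 4)) := by
  rw [← Real.exp_zero]
  exact Real.exp_le_exp.mpr (Real.rpow_nonneg (Nat.cast_nonneg _) _)

theorem vol_pos (r H : ℕ) : (0 : ℝ) < (2 * (H : ℝ) + 1) ^ r := by positivity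

theorem card_cube (r H : ℕ) : ((Cube r H).card : ℝ) = (2 * (H : ℝ) + 1) ^ r := by
  rw [FAM.card_Cube]
  push_cast
  rfl

/-- The mean of `|φ(n(s)) - φ(G)|` tends to zero. -/
theorem l1 {r : ℕ} (good : (Fin r → ℤ) → Prop) [DecidablePred good] (n : (Fin r → ℤ) → ℕ) (G : ℕ)
    (hlim : ∀ φ : ℕ → ℝ, (∀ m : ℕ, |φ m| ≤ Real.exp ((m : ℝ) ^ ((1 : ℝ) / 4))) →
      Tendsto (fun H : ℕ => (∑ s ∈ (Cube r H).filter (fun s => good s), φ (n s)) /
        (2 * (H : ℝ) + 1) ^ r) atTop (nhds (φ G)))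
    (φ : ℕ → ℝ) (hφ : ∀ m : ℕ, |φ m| ≤ Real.exp ((m : ℝ) ^ ((1 : ℝ) / 4))) :
    Tendsto (fun H : ℕ => (∑ s ∈ (Cube r H).filter (fun s => good s), |φ (n s) - φ G|) /
        (2 * (H : ℝ) + 1) ^ r) atTop (nhds 0) := by
  obtain ⟨M, hM⟩ : ∃ M, Real.exp ((G : ℝ) ^ ((1 : ℝ) / 4)) = M := ⟨_, rfl⟩
  have hM1 : 1 ≤ M := hM ▸ exp_ge_one G
  have hM0 : (0 : ℝ) < 1 + M := by linarith
  have h1 := hlim (fun m => |φ m - φ G| / (1 + M)) fun m => by
    rw [abs_div, abs_abs, abs_of_pos hM0, div_le_iff₀ hM0]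
    have h2 := abs_sub (φ m) (φ G)
    have h3 := hφ m
    have h4 := hφ G
    rw [hM] at h4
    have h5 := exp_ge_one m
    nlinarith
  have h2 := h1.const_mul (1 + M)
  simp only [sub_self, abs_zero, zero_div, mul_zero] at h2
  refine h2.congr fun H => ?_
  rw [← Finset.sum_div]
  field_simp

/-- The limit along a set `T` of positive lower density. -/
theorem along {r : ℕ} (good : (Fin r → ℤ) → Prop) [DecidablePred good] (n : (Fin r → ℤ) → ℕ) (G : ℕ)
    (hlim : ∀ φ : ℕ → ℝ, (∀ m : ℕ, |φ m| ≤ Real.exp ((m : ℝ) ^ ((1 : ℝ) / 4))) →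
      Tendsto (fun H : ℕ => (∑ s ∈ (Cube r H).filter (fun s => good s), φ (n s)) /
        (2 * (H : ℝ) + 1) ^ r) atTop (nhds (φ G)))
    (T : (Fin r → ℤ) → Prop) [DecidablePred T] (c : ℝ) (hc : 0 < c) (H₀ : ℕ)
    (hT : ∀ H : ℕ, H₀ ≤ H → c * (2 * (H : ℝ) + 1) ^ r ≤
      (((Cube r H).filter fun s => T s).card : ℝ))
    (φ : ℕ → ℝ) (hφ : ∀ m : ℕ, |φ m| ≤ Real.exp ((m : ℝ) ^ ((1 : ℝ) / 4))) :
    Tendsto (fun H : ℕ => (∑ s ∈ (Cube r H).filter (fun s => T s ∧ good s), φ (n s)) /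
      (((Cube r H).filter fun s => T s).card : ℝ)) atTop (nhds (φ G)) := by
  have h1 := l1 good n G hlim φ hφ
  have h2 : Tendsto (fun H : ℕ => (((Cube r H).filter fun s => good s).card : ℝ) /
      (2 * (H : ℝ) + 1) ^ r) atTop (nhds 1) := by
    have h3 := hlim (fun _ => 1) fun m => by
      rw [abs_one]
      exact exp_ge_one m
    simpa using h3
  have h3 : Tendsto (fun H : ℕ => ((∑ s ∈ (Cube r H).filter (fun s => good s),
      |φ (n s) - φ G|) / (2 * (H : ℝ) + 1) ^ r + |φ G| * (1 -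
      (((Cube r H).filter fun s => good s).card : ℝ) / (2 * (H : ℝ) + 1) ^ r)) / c) atTop
      (nhds 0) := by
    have h4 := ((h1.add ((h2.const_sub 1).const_mul |φ G|))).div_const c
    simpa using h4
  rw [tendsto_iff_norm_sub_tendsto_zero]
  refine squeeze_zero' (Eventually.of_forall fun H => norm_nonneg _) ?_ h3
  filter_upwards [eventually_ge_atTop H₀] with H hH
  obtain ⟨V, hV⟩ : ∃ V, (2 * (H : ℝ) + 1) ^ r = V := ⟨_, rfl⟩
  have hV0 : 0 < V := hV ▸ vol_pos r H
  have hTH := hT H hH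
  rw [hV] at hTH ⊢
  have hcV : 0 < c * V := mul_pos hc hV0
  have hT0 : (0 : ℝ) < (((Cube r H).filter fun s => T s).card : ℝ) := lt_of_lt_of_le hcV hTH
  have hTc : (((Cube r H).filter fun s => T s).card : ℝ) =
      (((Cube r H).filter fun s => T s ∧ good s).card : ℝ) +
      (((Cube r H).filter fun s => T s ∧ ¬ good s).card : ℝ) := by
    rw [← Finset.filter_filter, ← Finset.filter_filter]
    exact_mod_cast (Finset.card_filter_add_card_filter_not (s := (Cube r H).filter fun s => T s)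
      (fun s => good s)).symm
  have hgV : (((Cube r H).filter fun s => ¬ good s).card : ℝ) =
      V - (((Cube r H).filter fun s => good s).card : ℝ) := by
    rw [← hV, ← card_cube, eq_sub_iff_add_eq, add_comm]
    exact_mod_cast Finset.card_filter_add_card_filter_not (s := Cube r H) (fun s => good s)
  have hb : (((Cube r H).filter fun s => T s ∧ ¬ good s).card : ℝ) ≤
      (((Cube r H).filter fun s => ¬ good s).card : ℝ) := by
    refine Nat.cast_le.mpr (Finset.card_le_card fun s hs => ?_)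
    rw [Finset.mem_filter] at hs ⊢
    exact ⟨hs.1, hs.2.2⟩
  have hsum : |∑ s ∈ (Cube r H).filter (fun s => T s ∧ good s), (φ (n s) - φ G)| ≤
      ∑ s ∈ (Cube r H).filter (fun s => good s), |φ (n s) - φ G| := by
    refine (Finset.abs_sum_le_sum_abs _ _).trans ?_
    exact Finset.sum_le_sum_of_subset_of_nonneg
      (Finset.monotone_filter_right _ fun s _ hs => hs.2) fun s _ _ => abs_nonneg _
  rw [Finset.sum_sub_distrib, Finset.sum_const, nsmul_eq_mul] at hsum
  have hkey : |(∑ s ∈ (Cube r H).filter (fun s => T s ∧ good s), φ (n s)) -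
      φ G * (((Cube r H).filter fun s => T s).card : ℝ)| ≤
      (∑ s ∈ (Cube r H).filter (fun s => good s), |φ (n s) - φ G|) +
      |φ G| * (V - (((Cube r H).filter fun s => good s).card : ℝ)) := by
    rw [hTc, ← hgV]
    have h5 : (∑ s ∈ (Cube r H).filter (fun s => T s ∧ good s), φ (n s)) -
        φ G * ((((Cube r H).filter fun s => T s ∧ good s).card : ℝ) +
          (((Cube r H).filter fun s => T s ∧ ¬ good s).card : ℝ)) =
        ((∑ s ∈ (Cube r H).filter (fun s => T s ∧ good s), φ (n s)) -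
          (((Cube r H).filter fun s => T s ∧ good s).card : ℝ) * φ G) +
        -(φ G * (((Cube r H).filter fun s => T s ∧ ¬ good s).card : ℝ)) := by ring
    rw [h5]
    refine (abs_add_le _ _).trans (add_le_add hsum ?_)
    rw [abs_neg, abs_mul, Nat.abs_cast]
    exact mul_le_mul_of_nonneg_left hb (abs_nonneg _)
  have h6 : (∑ s ∈ (Cube r H).filter (fun s => T s ∧ good s), φ (n s)) /
      (((Cube r H).filter fun s => T s).card : ℝ) - φ G =
      ((∑ s ∈ (Cube r H).filter (fun s => T s ∧ good s), φ (n s)) -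
      φ G * (((Cube r H).filter fun s => T s).card : ℝ)) /
      (((Cube r H).filter fun s => T s).card : ℝ) := by
    rw [sub_div, mul_div_assoc, div_self hT0.ne', mul_one]
  rw [h6, Real.norm_eq_abs, abs_div, Nat.abs_cast]
  refine (div_le_div₀ ((abs_nonneg _).trans hkey) hkey hcV hTH).trans (le_of_eq ?_)
  field_simp

end PrimA

/-- The coordinates of `s` have no common prime factor. -/
def IsPrimitive {r : ℕ} (s : Fin r → ℤ) : Prop := ∀ p : ℕ, p.Prime → ∃ i, ¬ (p : ℤ) ∣ s i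

namespace PrimA

/-- The sum of the inverse squares of the odd numbers. -/
theorem sum_odd (n : ℕ) :
    ∑ k ∈ Finset.Icc 1 n, (1 : ℝ) / (2 * (k : ℝ) + 1) ^ 2 ≤ 1 / 4 := by
  have h : ∀ n : ℕ, ∑ k ∈ Finset.Icc 1 n, (1 : ℝ) / (2 * (k : ℝ) + 1) ^ 2 ≤
      1 / 4 * (1 - 1 / ((n : ℝ) + 1)) := by
    intro n
    induction n with
    | zero => simp
    | succ n ih =>
      rw [Finset.sum_Icc_succ_top (by omega)]
      have h1 : (1 : ℝ) / (2 * ((n + 1 : ℕ) : ℝ) + 1) ^ 2 ≤
          1 / 4 * (1 / ((n : ℝ) + 1) - 1 / ((n : ℝ) + 2)) := by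
        push_cast
        rw [div_sub_div _ _ (by positivity) (by positivity), div_mul_div_comm,
          div_le_div_iff₀ (by positivity) (by positivity)]
        nlinarith
      have h2 : ((n + 1 : ℕ) : ℝ) + 1 = (n : ℝ) + 2 := by
        push_cast
        ring
      rw [h2]
      linarith
  refine (h n).trans ?_
  have h1 : (0 : ℝ) ≤ 1 / ((n : ℝ) + 1) := by positivity
  linarith

/-- The sum of the inverse squares of the primes. -/
theorem sum_primes (n : ℕ) :
    ∑ p ∈ (Finset.range (n + 1)).filter Nat.Prime, (1 : ℝ) / (p : ℝ) ^ 2 ≤ 1 / 2 := by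
  have h1 : (Finset.range (n + 1)).filter Nat.Prime ⊆
      insert 2 ((Finset.Icc 1 n).image fun k => 2 * k + 1) := by
    intro p hp
    rw [Finset.mem_filter, Finset.mem_range] at hp
    rw [Finset.mem_insert, Finset.mem_image]
    rcases hp.2.eq_two_or_odd' with h | ⟨k, hk⟩
    · exact Or.inl h
    · refine Or.inr ⟨k, ?_, hk.symm⟩
      rw [Finset.mem_Icc]
      have := hp.2.two_le
      omega
  refine (Finset.sum_le_sum_of_subset_of_nonneg h1 fun p _ _ => by positivity).trans ?_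
  rw [Finset.sum_insert (by
    rw [Finset.mem_image]
    rintro ⟨k, _, hk⟩
    omega), Finset.sum_image (by
    intro a _ b _ hab
    simpa using hab)]
  have h2 := sum_odd n
  push_cast
  norm_num at h2 ⊢
  linarith

/-- A box with two special coordinates. -/
noncomputable def Bx (r H : ℕ) (A : Finset ℤ) : Finset (Fin (r + 2) → ℤ) :=
  Fintype.piFinset fun i => if (i : ℕ) < 2 then A else Finset.Icc (-(H : ℤ)) H

theorem card_Bx (r H : ℕ) (A : Finset ℤ) :
    ((Bx r H A).card : ℝ) = (A.card : ℝ) ^ 2 * (2 * (H : ℝ) + 1) ^ r := by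
  unfold Bx
  rw [Fintype.card_piFinset, Fin.prod_univ_succ, Fin.prod_univ_succ]
  have h : (Finset.Icc (-(H : ℤ)) H).card = 2 * H + 1 := by
    rw [Int.card_Icc]
    omega
  have h1 : ∀ i : Fin r, (if ((i.succ.succ : Fin (r + 2)) : ℕ) < 2 then A else
      Finset.Icc (-(H : ℤ)) H).card = 2 * H + 1 := by
    intro i
    rw [if_neg (by simp [Fin.val_succ]), h]
  rw [Finset.prod_congr rfl fun i _ => h1 i]
  simp only [Fin.val_zero, Fin.val_succ, zero_add, Finset.prod_const, Finset.card_univ,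
    Fintype.card_fin]
  norm_num
  ring

theorem card_mult (H p : ℕ) (hp : 0 < p) :
    ((((Finset.Ioc (0 : ℤ) H).filter fun x => (p : ℤ) ∣ x).card : ℕ) : ℝ) ≤ (H : ℝ) / p := by
  obtain ⟨m, hm⟩ : ∃ m, ((Finset.Ioc (0 : ℤ) H).filter fun x => (p : ℤ) ∣ x).card = m := ⟨_, rfl⟩
  have h1 := Int.Ioc_filter_dvd_card (0 : ℤ) (H : ℤ) (r := (p : ℤ)) (by exact_mod_cast hp)
  rw [hm] at h1 ⊢
  have hp' : (0 : ℚ) < (p : ℚ) := by exact_mod_cast hp
  have h2 : (m : ℚ) ≤ (H : ℚ) / p := by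
    have h3 : ((m : ℤ) : ℚ) = ((max (⌊((H : ℤ) : ℚ) / ((p : ℤ) : ℚ)⌋ -
        ⌊((0 : ℤ) : ℚ) / ((p : ℤ) : ℚ)⌋) 0 : ℤ) : ℚ) := by
      rw [h1]
    rw [Int.cast_zero, zero_div, Int.floor_zero, sub_zero, Int.cast_max, Int.cast_zero] at h3
    rw [Int.cast_natCast] at h3
    rw [h3]
    refine max_le ?_ (by positivity)
    refine (Int.floor_le _).trans (le_of_eq ?_)
    push_cast
    rfl
  rw [le_div_iff₀ hp'] at h2
  have h4 : m * p ≤ H := by exact_mod_cast h2
  rw [le_div_iff₀ (by exact_mod_cast hp)]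
  exact_mod_cast h4

open Classical in
/-- For `r ≥ 2` a positive proportion of the integral points is primitive. -/
theorem dens (r H : ℕ) (hr : 2 ≤ r) (hH : 1 ≤ H) :
    1 / 18 * (2 * (H : ℝ) + 1) ^ r ≤
      (((Cube r H).filter fun s => IsPrimitive s).card : ℝ) := by
  obtain ⟨r, rfl⟩ : ∃ r', r = r' + 2 := ⟨r - 2, by omega⟩
  -- the box and its points divisible by `p`
  have h1 : Bx r H (Finset.Ioc 0 H) ⊆ ((Cube (r + 2) H).filter fun s => IsPrimitive s) ∪
      ((Finset.range (H + 1)).filter Nat.Prime).biUnion fun p =>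
        Bx r H ((Finset.Ioc (0 : ℤ) H).filter fun x => (p : ℤ) ∣ x) := by
    intro s hs
    unfold Bx at hs
    rw [Fintype.mem_piFinset] at hs
    rw [Finset.mem_union]
    by_cases hprim : IsPrimitive s
    · left
      rw [Finset.mem_filter]
      refine ⟨?_, hprim⟩
      unfold FAM.Cube
      rw [Fintype.mem_piFinset]
      intro i
      have h2 := hs i
      split_ifs at h2
      · rw [Finset.mem_Ioc] at h2
        rw [Finset.mem_Icc]
        omega
      · exact h2
    · right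
      unfold IsPrimitive at hprim
      push Not at hprim
      obtain ⟨p, hp, hd⟩ := hprim
      rw [Finset.mem_biUnion]
      refine ⟨p, ?_, ?_⟩
      · rw [Finset.mem_filter, Finset.mem_range]
        refine ⟨?_, hp⟩
        have h2 := hs 0
        rw [if_pos (by simp), Finset.mem_Ioc] at h2
        have h3 := Int.le_of_dvd h2.1 (hd 0)
        omega
      · unfold Bx
        rw [Fintype.mem_piFinset]
        intro i
        have h2 := hs i
        split_ifs at h2 ⊢
        · rw [Finset.mem_filter]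
          exact ⟨h2, hd i⟩
        · exact h2
  have h2 := (Finset.card_le_card h1).trans (Finset.card_union_le _ _)
  have h3 : ((Bx r H (Finset.Ioc 0 H)).card : ℝ) ≤
      (((Cube (r + 2) H).filter fun s => IsPrimitive s).card : ℝ) +
      ∑ p ∈ (Finset.range (H + 1)).filter Nat.Prime,
        ((Bx r H ((Finset.Ioc (0 : ℤ) H).filter fun x => (p : ℤ) ∣ x)).card : ℝ) := by
    have h4 := Finset.card_biUnion_le (s := (Finset.range (H + 1)).filter Nat.Prime)
      (t := fun p => Bx r H ((Finset.Ioc (0 : ℤ) H).filter fun x => (p : ℤ) ∣ x))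
    have h5 := h2.trans (Nat.add_le_add_left h4 _)
    exact_mod_cast h5
  rw [card_Bx] at h3
  have h4 : ∑ p ∈ (Finset.range (H + 1)).filter Nat.Prime,
      ((Bx r H ((Finset.Ioc (0 : ℤ) H).filter fun x => (p : ℤ) ∣ x)).card : ℝ) ≤
      1 / 2 * ((H : ℝ) ^ 2 * (2 * (H : ℝ) + 1) ^ r) := by
    have h5 : ∀ p ∈ (Finset.range (H + 1)).filter Nat.Prime,
        ((Bx r H ((Finset.Ioc (0 : ℤ) H).filter fun x => (p : ℤ) ∣ x)).card : ℝ) ≤
        (1 : ℝ) / (p : ℝ) ^ 2 * ((H : ℝ) ^ 2 * (2 * (H : ℝ) + 1) ^ r) := by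
      intro p hp
      rw [Finset.mem_filter] at hp
      rw [card_Bx]
      have h6 := card_mult H p hp.2.pos
      have h7 : (((Finset.Ioc (0 : ℤ) H).filter fun x => (p : ℤ) ∣ x).card : ℝ) ^ 2 ≤
          ((H : ℝ) / p) ^ 2 := pow_le_pow_left₀ (Nat.cast_nonneg _) h6 2
      refine (mul_le_mul_of_nonneg_right h7 (by positivity)).trans (le_of_eq ?_)
      rw [div_pow]
      ring
    refine (Finset.sum_le_sum h5).trans ?_
    rw [← Finset.sum_mul]
    exact mul_le_mul_of_nonneg_right (sum_primes H) (by positivity)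
  have h5 : ((Finset.Ioc (0 : ℤ) H).card : ℝ) = H := by
    rw [Int.card_Ioc]
    simp
  rw [h5] at h3
  have h6 : 1 / 18 * (2 * (H : ℝ) + 1) ^ (r + 2) ≤
      1 / 2 * ((H : ℝ) ^ 2 * (2 * (H : ℝ) + 1) ^ r) := by
    have h7 : (1 : ℝ) ≤ H := by exact_mod_cast hH
    have h8 : (0 : ℝ) < (2 * (H : ℝ) + 1) ^ r := by positivity
    have h9 : (2 * (H : ℝ) + 1) ^ 2 ≤ 9 * (H : ℝ) ^ 2 := by nlinarith
    rw [pow_add]
    nlinarith
  linarith

end PrimA

end Pool.Agent.LIM
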