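import Mathlib
import Pool.Agent.LIM.Top
import Pool.Agent.LIM.PrimA

set_option autoImplicit false

/-!
# The limit along sets of positive density, in particular over the primitive integral points
-/

namespace Pool.Agent.LIM

open Polynomial NumberField Filter
open Pool.Agent.FAM (Cube)
open Pool.Agent.FamK (ev spec Varies)

open Classical in
/-- The limit along every set `T` of positive lower density. -/
theorem limit_along {K : Type} [Field K] [NumberField K] (N : ℕ) {r d : ℕ} (hd : 2 ≤ d)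
    (F G : (MvPolynomial (Fin r) (𝓞 K))[X])
    (hF : F.natDegree ≤ d) (hG : G.natDegree ≤ d) (hR : resultant F G d d ≠ 0)
    (hv : Varies d F G) (T : Set (Fin r → ℤ)) (c : ℝ) (hc : 0 < c) (H₀ : ℕ)
    (hT : ∀ H : ℕ, H₀ ≤ H → c * (2 * (H : ℝ) + 1) ^ r ≤
      (((Cube r H).filter fun s => s ∈ T).card : ℝ))
    (φ : ℕ → ℝ) (hφ : ∀ n : ℕ, |φ n| ≤ Real.exp ((n : ℝ) ^ ((1 : ℝ) / 4))) :
    Tendsto (fun H : ℕ =>
      (∑ s ∈ (Cube r H).filter (fun s => s ∈ T ∧ ev s (resultant F G d d) ≠ 0),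
        φ (Pts K N d (toK (spec s F)) (toK (spec s G))).ncard) /
        (((Cube r H).filter fun s => s ∈ T).card : ℝ)) atTop
      (nhds (φ (Pts (GF r K) N d (toG F) (toG G)).ncard)) := by
  obtain ⟨_, _, h⟩ := limit N hd F G hF hG hR hv
  exact PrimA.along (fun s => ev s (resultant F G d d) ≠ 0)
    (fun s => (Pts K N d (toK (spec s F)) (toK (spec s G))).ncard)
    (Pts (GF r K) N d (toG F) (toG G)).ncard h (fun s => s ∈ T) c hc H₀ hT φ hφ

open Classical in
/-- The mean over the primitive integral points: for `F`, `G` homogeneous in `s` these are the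
rational points of the projective space, ordered by height. -/
theorem limit_prim {K : Type} [Field K] [NumberField K] (N : ℕ) {r d : ℕ} (hr : 2 ≤ r)
    (hd : 2 ≤ d) (F G : (MvPolynomial (Fin r) (𝓞 K))[X])
    (hF : F.natDegree ≤ d) (hG : G.natDegree ≤ d) (hR : resultant F G d d ≠ 0)
    (hv : Varies d F G) :
    (∃ C : ℝ, ∀ H : ℕ, 1 ≤ H →
      ∑ s ∈ (Cube r H).filter (fun s => IsPrimitive s ∧ ev s (resultant F G d d) ≠ 0),
        Real.exp (((Pts K N d (toK (spec s F)) (toK (spec s G))).ncard : ℝ) ^ ((1 : ℝ) / 3)) ≤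
      C * (((Cube r H).filter fun s => IsPrimitive s).card : ℝ)) ∧
    ∀ φ : ℕ → ℝ, (∀ n : ℕ, |φ n| ≤ Real.exp ((n : ℝ) ^ ((1 : ℝ) / 4))) →
      Tendsto (fun H : ℕ =>
        (∑ s ∈ (Cube r H).filter (fun s => IsPrimitive s ∧ ev s (resultant F G d d) ≠ 0),
          φ (Pts K N d (toK (spec s F)) (toK (spec s G))).ncard) /
          (((Cube r H).filter fun s => IsPrimitive s).card : ℝ)) atTop
        (nhds (φ (Pts (GF r K) N d (toG F) (toG G)).ncard)) := by
  constructor
  · obtain ⟨_, C, hC⟩ := FamK.average N hd F G hF hG hR hv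
    refine ⟨18 * max C 0, fun H hH => ?_⟩
    have h1 := hC H hH
    have h2 : ∑ s ∈ (Cube r H).filter
          (fun s => IsPrimitive s ∧ ev s (resultant F G d d) ≠ 0),
        Real.exp (((Pts K N d (toK (spec s F)) (toK (spec s G))).ncard : ℝ) ^ ((1 : ℝ) / 3)) ≤
        ∑ s ∈ (Cube r H).filter (fun s => ev s (resultant F G d d) ≠ 0),
        Real.exp (((FamK.Pts N d (spec s F) (spec s G)).ncard : ℝ) ^ ((1 : ℝ) / 3)) := by
      simp only [pts_famK]
      refine Finset.sum_le_sum_of_subset_of_nonneg (fun s hs => ?_) fun s _ _ => (Real.exp_pos _).le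
      rw [Finset.mem_filter] at hs ⊢
      exact ⟨hs.1, hs.2.2⟩
    have h3 := PrimA.dens r H hr hH
    have h4 : (0 : ℝ) ≤ (2 * (H : ℝ) + 1) ^ r := by positivity
    have h5 : C * (2 * (H : ℝ) + 1) ^ r ≤ max C 0 * (2 * (H : ℝ) + 1) ^ r :=
      mul_le_mul_of_nonneg_right (le_max_left _ _) h4
    have h6 : (0 : ℝ) ≤ max C 0 := le_max_right _ _
    have h7 := mul_le_mul_of_nonneg_left h3 h6
    linarith
  · intro φ hφ
    obtain ⟨_, _, h⟩ := limit N hd F G hF hG hR hv
    exact PrimA.along (fun s => ev s (resultant F G d d) ≠ 0)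
      (fun s => (Pts K N d (toK (spec s F)) (toK (spec s G))).ncard)
      (Pts (GF r K) N d (toG F) (toG G)).ncard h (fun s => IsPrimitive s) (1 / 18) (by norm_num) 1
      (fun H hH => PrimA.dens r H hr hH) φ hφ

end Pool.Agent.LIM
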