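import Mathlib
import Pool.Agent.LIM.Top
import Pool.Agent.LIM.ExDefs
import Pool.Agent.LIM.ExPts
import Pool.Agent.LIM.ExVar

set_option autoImplicit false

/-!
# The family of all rational functions of degree `d`
-/

namespace Pool.Agent.LIM.Ex

open Polynomial NumberField Filter
open Pool.Agent.RDF (lift wedge)
open Pool.Agent.FAM (Cube)
open Pool.Agent.FamK (ev spec Varies)

theorem ev_X (K : Type) [Field K] [NumberField K] {r : ℕ} (s : Fin r → ℤ) (i : Fin r) :
    ev s (MvPolynomial.X i : MvPolynomial (Fin r) (𝓞 K)) = ((s i : ℤ) : 𝓞 K) := by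
  unfold ev
  exact MvPolynomial.eval_X _

theorem spec_allF (K : Type) [Field K] [NumberField K] (d : ℕ) (s : Fin (d + 1 + (d + 1)) → ℤ) :
    spec s (allF K d) =
      ∑ i : Fin (d + 1), C ((s (Fin.castAdd (d + 1) i) : ℤ) : 𝓞 K) * X ^ (i : ℕ) := by
  unfold spec allF
  rw [Polynomial.map_sum]
  refine Finset.sum_congr rfl fun i _ => ?_
  rw [Polynomial.map_mul, Polynomial.map_pow, map_C, map_X, ev_X]

theorem spec_allG (K : Type) [Field K] [NumberField K] (d : ℕ) (s : Fin (d + 1 + (d + 1)) → ℤ) :
    spec s (allG K d) =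
      ∑ i : Fin (d + 1), C ((s (Fin.natAdd (d + 1) i) : ℤ) : 𝓞 K) * X ^ (i : ℕ) := by
  unfold spec allG
  rw [Polynomial.map_sum]
  refine Finset.sum_congr rfl fun i _ => ?_
  rw [Polynomial.map_mul, Polynomial.map_pow, map_C, map_X, ev_X]

theorem toK_sum (K : Type) [Field K] [NumberField K] {d : ℕ} (a : Fin (d + 1) → ℤ) :
    toK (∑ i : Fin (d + 1), C ((a i : ℤ) : 𝓞 K) * X ^ (i : ℕ)) = poly K a := by
  unfold toK poly
  rw [Polynomial.map_sum]
  refine Finset.sum_congr rfl fun i _ => ?_
  rw [Polynomial.map_mul, Polynomial.map_pow, map_C, map_X, map_intCast]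

theorem toK_allF (K : Type) [Field K] [NumberField K] {d : ℕ} (a b : Fin (d + 1) → ℤ) :
    toK (spec (Fin.append a b) (allF K d)) = poly K a := by
  rw [spec_allF]
  simp only [Fin.append_left]
  exact toK_sum K a

theorem toK_allG (K : Type) [Field K] [NumberField K] {d : ℕ} (a b : Fin (d + 1) → ℤ) :
    toK (spec (Fin.append a b) (allG K d)) = poly K b := by
  rw [spec_allG]
  simp only [Fin.append_right]
  exact toK_sum K b

theorem res_poly (K : Type) [Field K] [NumberField K] {d : ℕ} (a b : Fin (d + 1) → ℤ) :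
    ev (Fin.append a b) (resultant (allF K d) (allG K d) d d) ≠ 0 ↔
      resultant (poly K a) (poly K b) d d ≠ 0 := by
  rw [← toK_allF K a b, ← toK_allG K a b]
  unfold toK
  rw [resultant_map_map, FamK.spec_res]
  exact (map_ne_zero_iff (algebraMap (𝓞 K) K) (RingOfIntegers.coe_injective)).symm

theorem res_ne (K : Type) [Field K] [NumberField K] (d : ℕ) :
    resultant (allF K d) (allG K d) d d ≠ 0 := by
  intro h
  have h1 := FamK.spec_res (Fin.append (fun i : Fin (d + 1) => if (i : ℕ) = d then (1 : ℤ) else 0)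
    (fun i : Fin (d + 1) => if (i : ℕ) = 0 then (1 : ℤ) else 0)) (allF K d) (allG K d) d d
  rw [h, map_zero] at h1
  have h2 : spec (Fin.append (fun i : Fin (d + 1) => if (i : ℕ) = d then (1 : ℤ) else 0)
      (fun i : Fin (d + 1) => if (i : ℕ) = 0 then (1 : ℤ) else 0)) (allG K d) = 1 := by
    rw [spec_allG]
    simp only [Fin.append_right]
    rw [Finset.sum_eq_single (0 : Fin (d + 1))]
    · simp
    · intro i _ hi
      have : (i : ℕ) ≠ 0 := fun h => hi (Fin.ext h)
      rw [if_neg this]
      simp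
    · intro h
      exact absurd (Finset.mem_univ _) h
  rw [h2, resultant_one_right, FamK.spec_coeff, coeff_allF K d d le_rfl, ev_X, Fin.append_left] at h1
  simp at h1

open Classical in
theorem all_rational (K : Type) [Field K] [NumberField K] (N d : ℕ) (hd : 2 ≤ d) (hN : N < d) :
    Tendsto (fun H : ℕ => ((((Cube (d + 1) H) ×ˢ (Cube (d + 1) H)).filter fun s =>
        resultant (poly K s.1) (poly K s.2) d d ≠ 0 ∧
        Pts K N d (poly K s.1) (poly K s.2) = ∅).card : ℝ) /
      ((Cube (d + 1) H) ×ˢ (Cube (d + 1) H)).card) atTop (nhds 1) := by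
  obtain ⟨h1, -, h2⟩ := limit (K := K) N hd (allF K d) (allG K d) (natDegree_allF K d)
    (natDegree_allG K d) (res_ne K d) (varies_all K d hd)
  have h3 := h2 (fun n => if n = 0 then 1 else 0) (fun n => by
    have h : (1 : ℝ) ≤ Real.exp ((n : ℝ) ^ ((1 : ℝ) / 4)) := Real.one_le_exp (by positivity)
    by_cases h' : n = 0
    · rw [if_pos h', abs_one]
      exact h
    · rw [if_neg h', abs_zero]
      exact (Real.exp_pos _).le)
  rw [pts_empty K N d hd hN, Set.ncard_empty, if_pos rfl] at h3
  refine h3.congr fun H => ?_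
  congr 1
  · rw [Finset.sum_ite, Finset.sum_const_zero, add_zero, Finset.sum_const, nsmul_eq_mul, mul_one,
      Finset.filter_filter]
    congr 1
    symm
    refine Finset.card_bij (fun s _ => Fin.append s.1 s.2) ?_ ?_ ?_
    · intro s hs
      rw [Finset.mem_filter, Finset.mem_product] at hs
      obtain ⟨⟨h4, h5⟩, h6, h7⟩ := hs
      rw [Finset.mem_filter]
      refine ⟨?_, (res_poly K s.1 s.2).2 h6, ?_⟩
      · rw [FAM.mem_Cube] at h4 h5 ⊢
        intro i
        refine Fin.addCases (fun j => ?_) (fun j => ?_) i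
        · rw [Fin.append_left]
          exact h4 j
        · rw [Fin.append_right]
          exact h5 j
      · rw [toK_allF, toK_allG, h7, Set.ncard_empty]
    · intro s _ t _ hst
      refine Prod.ext (funext fun i => ?_) (funext fun i => ?_)
      · have h4 := congrFun hst (Fin.castAdd (d + 1) i)
        rwa [Fin.append_left, Fin.append_left] at h4
      · have h4 := congrFun hst (Fin.natAdd (d + 1) i)
        rwa [Fin.append_right, Fin.append_right] at h4
    · intro s hs
      rw [Finset.mem_filter] at hs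
      obtain ⟨h4, h5, h6⟩ := hs
      have h7 : Fin.append (fun i => s (Fin.castAdd (d + 1) i)) (fun i => s (Fin.natAdd (d + 1) i)) =
          s := Fin.append_castAdd_natAdd
      refine ⟨(fun i => s (Fin.castAdd (d + 1) i), fun i => s (Fin.natAdd (d + 1) i)), ?_, h7⟩
      have h8 := (Set.ncard_eq_zero (h1 s h5)).1 h6
      rw [← h7, toK_allF, toK_allG] at h8
      rw [← h7, res_poly] at h5
      rw [Finset.mem_filter, Finset.mem_product]
      rw [FAM.mem_Cube] at h4
      exact ⟨⟨FAM.mem_Cube.2 fun i => h4 _, FAM.mem_Cube.2 fun i => h4 _⟩, h5, h8⟩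
  · rw [Finset.card_product, FAM.card_Cube, ← pow_add]
    push_cast
    rfl

end Pool.Agent.LIM.Ex
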